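import Pool.Agent.RP.FV
import Pool.Agent.Helper47.TR.AP

set_option autoImplicit false

/-!
The derivatives of programs are in the class `FV`: the derivative is again the value of a program (`val_modL_derL`), and
a program is tabulated on a grid in polynomial time (`fp_tabR`) with any width that bounds the number of rows of all layers.
-/

namespace Pool.Agent.RP

open MvPolynomial N487b59b3 N68a2faeb Pool.Agent.Helper22 Pool.Agent.Helper6.WB
  Pool.Agent.Helper6.SP Pool.Agent.PQ

variable {α : Type} [N487b59b3 α]

theorem fp_modL {g : α → Rb} {j : α → ℕ} {h : α × Lay → Lay} (hg : FP g) (hj : FP j)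
    (hh : FP h) : FP fun a => modL (j a) (fun L => h (a, L)) (g a) := by
  have h0 : FP fun p : α × (Lay × ℕ) => p.2.2 := by fun_prop
  have h0' : FP fun p : α × (Lay × ℕ) => p.2.1 := by fun_prop
  have h1 : FP fun p : α × (Lay × ℕ) => decide (p.2.2 = j p.1) :=
    Helper6.WB.FP.natEq h0 (hj.comp FP.fst)
  have h2 : FP fun p : α × (Lay × ℕ) => h (p.1, p.2.1) := hh.comp (FP.fst.pair h0')
  have h3 : FP fun p : α × (Lay × ℕ) => if p.2.2 = j p.1 then h (p.1, p.2.1) else p.2.1 := by
    refine (congrArg FP (funext fun p => ?_)).mp (FP.ite h1 h2 h0')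
    by_cases hp : p.2.2 = j p.1 <;> simp [hp]
  exact fp_map (fp_zipIdx hg) h3

private theorem fp_derC {f : α → List ℤ} (hf : FP f) : FP fun a => derC (f a) := by
  have h1 : FP fun p : α × (ℤ × ℕ) => (p.2.2 : ℤ) * p.2.1 :=
    Helper47.TR.FP.intMul (Helper47.TR.FP.intPos (by fun_prop)) (by fun_prop)
  exact fp_map (FP.tail (fp_zipIdx hf)) h1

theorem fp_derL {f : α → Lay} (hf : FP f) : FP fun a => derL (f a) := by
  have h1 : FP fun p : (α × List (List ℤ)) × List ℤ => derC p.2 := fp_derC FP.snd
  have h2 : FP fun p : α × List (List ℤ) => p.2.map derC := fp_map FP.snd h1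
  exact fp_map hf h2

private theorem length_derL (L : Lay) : (derL L).length = L.length := by
  simp [derL]

private theorem le_flatten {L : Lay} {g : Rb} (h : L ∈ g) : L.length ≤ g.flatten.length := by
  induction g with
  | nil => simp at h
  | cons M g ih =>
    rw [List.flatten_cons, List.length_append]
    rcases List.mem_cons.1 h with h | h
    · subst h
      omega
    · have := ih h
      omega

private theorem mem_modL {j : ℕ} {h : Lay → Lay} {g : Rb} {L : Lay} (hL : L ∈ modL j h g) :
    ∃ M ∈ g, L = M ∨ L = h M := by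
  unfold modL at hL
  obtain ⟨q, hq, rfl⟩ := List.mem_map.1 hL
  have h1 : q.1 ∈ g := by
    have h2 := List.mem_map_of_mem (f := Prod.fst) hq
    simpa using h2
  refine ⟨q.1, h1, ?_⟩
  by_cases h2 : q.2 = j
  · right
    rw [if_pos h2]
  · left
    rw [if_neg h2]

/-- a unary bound for the width -/
private def wid (g : Rb) : List Bool := true :: g.flatten.map fun _ => true

private theorem fp_wid {f : α → Rb} (hf : FP f) : FP fun a => wid (f a) := by
  have h1 : FP fun _ : α × List (List ℤ) => true := FP.const true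
  have h2 : FP fun a => (f a).flatten.map fun _ => true := fp_map (fp_flatten hf) h1
  exact FP.cons (FP.const true) h2

theorem fv_der : FV (fun p : List (List ZZ) × (Rb × ℕ) => p.1)
    (fun p => p.2.1.length = p.1.length ∧ p.2.2 < p.1.length)
    (fun p => pderiv p.2.2 (val p.2.1)) := by
  refine ⟨fun p => tabR (wid p.2.1) (modL p.2.2 derL p.2.1) p.1, ?_, ?_⟩
  · have h1 : FP fun p : List (List ZZ) × (Rb × ℕ) => p.2.1 := by fun_prop
    have h2 : FP fun p : List (List ZZ) × (Rb × ℕ) => p.2.2 := by fun_prop
    have h3 : FP fun p : List (List ZZ) × (Rb × ℕ) => p.1 := by fun_prop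
    have h4 : FP fun p : List (List ZZ) × (Rb × ℕ) => modL p.2.2 derL p.2.1 :=
      fp_modL (h := fun q => derL q.2) h1 h2 (fp_derL FP.snd)
    exact fp_tabR (fp_wid h1) h4 h3
  · rintro ⟨xs, g, j⟩ ⟨h1, h2⟩
    simp only at h1 h2 ⊢
    have hW : wid g ≠ [] := by simp [wid]
    have hl : (modL j derL g).length = xs.length := by rw [length_modL, h1]
    refine ⟨⟨_, sqV_tabR _ _ _ hl hW⟩, fun κ hκ => ?_⟩
    rw [vval_tabR _ _ _ hl hW ?_ κ hκ, ← val_modL_derL j g (by omega), eval_val]
    intro L hL
    obtain ⟨M, hM, h3⟩ := mem_modL hL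
    have h4 : L.length = M.length := by
      rcases h3 with rfl | rfl
      · rfl
      · rw [length_derL]
    have h5 := le_flatten hM
    simp only [wid, List.length_cons, List.length_map]
    omega

end Pool.Agent.RP
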