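import Pool.Agent.RP.Dsc
import Pool.Agent.RP.Der

set_option autoImplicit false

/-!
RP-DscF. The list of the minors in polynomial time.

Plan: `fp_flatten`, `fp_map`, `fp_flatMap`, `fp_lpow` (fixed exponent), `FP.range`, `FP.append`, `FP.drop`, `FP.un_poly`/`FP.unMul` (`Helper22/Tools.lean`).
`cfs r g` for lists `r` of pairs of fixed length `k`: the elements of `lpow` have length `k`, so `cfs r g` equals a `k`-fold
composition of `modL (r.getD i d).1 (cfL (r.getD i d).2)`; define `cfsK` by recursion on `k` (`headD`, `tail`) and replace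
`(lpow P k).map (fun r => .. cfs r g ..)` by the version with `cfsK k` (`List.map_congr_left`, `mem_lpow`). The same for `ders V g` with `Δ` steps.
`mns k Δ Ps T` by induction on `T`.
-/

namespace Pool.Agent.RP

open MvPolynomial N487b59b3 N68a2faeb Pool.Agent.Helper22 Pool.Agent.Helper6.WB
  Pool.Agent.Helper6.SP Pool.Agent.PQ

section

variable {α : Type} [N487b59b3 α]

private theorem dscf_unit {β : Type} [N487b59b3 β] [Inhabited β] {f : α → List β} (hf : FP f) :
    FP fun a => (f a).map fun _ => true :=
  fp_map (h := fun _ : α × β => true) hf (FP.const true)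

theorem fp_nL : FP nL := by
  have h1 : FP fun Ps : List Rb => Ps.flatten := fp_flatten FP.id
  exact FP.cons (FP.const true) (dscf_unit h1)

theorem fp_DL : FP DL := by
  have h1 : FP fun Ps : List Rb => Ps.flatten.flatten.flatten.flatten :=
    fp_flatten (fp_flatten (fp_flatten (fp_flatten FP.id)))
  exact FP.cons (FP.const true) (FP.cons (FP.const true) (dscf_unit h1))

private theorem dscf_zerR {n : α → List Bool} (hn : FP n) : FP fun a => zerR (n a) :=
  fp_map (h := fun _ : α × ℕ => ([[[0]]] : Lay)) (FP.range hn) (FP.const _)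

private theorem dscf_padR {n : α → List Bool} {g : α → Rb} (hn : FP n) (hg : FP g) :
    FP fun a => padR (n a) (g a) :=
  FP.append hg (fp_map (h := fun _ : α × Bool => ([[[1]]] : Lay)) (FP.drop hn hg) (FP.const _))

private theorem dscf_varR {n : α → List Bool} {j : α → ℕ} (hn : FP n) (hj : FP j) :
    FP fun a => varR (n a) (j a) := by
  have h1 : FP fun q : α × ℕ => decide (q.2 = j q.1) := by
    have h2 : FP fun q : α × ℕ => (q.2, j q.1) := FP.pair FP.snd (hj.comp FP.fst)
    have h3 : FP fun q : ℕ × ℕ => decide (q.1 = q.2) := by fun_prop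
    exact h3.comp h2
  have h2 : FP fun q : α × ℕ =>
      if decide (q.2 = j q.1) then ([[[0, 1]]] : Lay) else ([[[1]]] : Lay) :=
    FP.ite h1 (FP.const _) (FP.const _)
  have h3 := fp_map (FP.range hn) h2
  refine (congrArg FP (funext fun a => ?_)).mp h3
  unfold varR
  apply List.map_congr_left
  intro i _
  simp

private theorem dscf_prg : FP prg := by
  have h1 : FP fun Ps : List Rb => Ps.map (padR (nL Ps)) :=
    fp_map (h := fun q : List Rb × Rb => padR (nL q.1) q.2) FP.id
      (dscf_padR (fp_nL.comp FP.fst) FP.snd)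
  have h2 : FP fun Ps : List Rb => (List.range (nL Ps).length).map (varR (nL Ps)) :=
    fp_map (h := fun q : List Rb × ℕ => varR (nL q.1) q.2) (FP.range fp_nL)
      (dscf_varR (fp_nL.comp FP.fst) FP.snd)
  exact FP.append h1 (FP.append h2 (FP.cons (dscf_zerR fp_nL) (FP.const [])))

private theorem dscf_len {n : α → List Bool} (hn : FP n) : FP fun a => (n a).length := by
  have h1 : FP fun a => (n a).length := Pool.Agent.Helper47.TR.FP.length hn
  exact h1

private theorem dscf_prs : FP prs := by
  have h1 : FP fun Ps : List Rb => ((nL Ps).length, 0) := FP.pair (dscf_len fp_nL) (FP.const 0)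
  have h2 : FP fun q : List Rb × ℕ => (List.range (DL q.1).length).map fun e => (q.2, e) :=
    fp_map (h := fun r : (List Rb × ℕ) × ℕ => (r.1.2, r.2)) (FP.range (fp_DL.comp FP.fst))
      (FP.pair (FP.fst.snd') FP.snd)
  exact FP.cons h1 (fp_flatMap (FP.range fp_nL) h2)

private def dscfC : ℕ → List (ℕ × ℕ) → Rb → Rb
  | 0, _, g => g
  | k + 1, r, g => dscfC k r.tail (modL (r.headD (0, 0)).1 (cfL (r.headD (0, 0)).2) g)

private theorem dscfC_eq (k : ℕ) (r : List (ℕ × ℕ)) (g : Rb) (h : r.length = k) :
    dscfC k r g = cfs r g := by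
  induction k generalizing r g with
  | zero =>
    have := List.eq_nil_of_length_eq_zero h
    subst this
    rfl
  | succ k ih =>
    cases r with
    | nil => simp at h
    | cons p r =>
      have h1 : r.length = k := by simpa using h
      change dscfC k r (modL p.1 (cfL p.2) g) = _
      rw [ih r _ h1]
      rfl

private theorem dscf_cfL {e : α → ℕ} {L : α → Lay} (he : FP e) (hL : FP L) :
    FP fun a => cfL (e a) (L a) := by
  have h1 : FP fun q : (α × List (List ℤ)) × List ℤ => [q.2.getD (e q.1.1) 0] :=
    FP.cons (Pool.Agent.G4.FP.getDNat FP.snd (he.comp (FP.fst.fst')) 0) (FP.const [])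
  have h2 : FP fun q : α × List (List ℤ) => q.2.map fun c => [c.getD (e q.1) 0] :=
    fp_map FP.snd h1
  exact fp_map hL h2

private theorem dscf_C (k : ℕ) : FP fun p : List (ℕ × ℕ) × Rb => dscfC k p.1 p.2 := by
  induction k with
  | zero => exact FP.snd
  | succ k ih =>
    have h0 : FP fun p : List (ℕ × ℕ) × Rb => p.1.headD (0, 0) := FP.headD FP.fst (0, 0)
    have h1 : FP fun p : List (ℕ × ℕ) × Rb =>
        modL (p.1.headD (0, 0)).1 (fun L => cfL (p.1.headD (0, 0)).2 L) p.2 :=
      fp_modL (h := fun q : (List (ℕ × ℕ) × Rb) × Lay => cfL (q.1.1.headD (0, 0)).2 q.2)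
        FP.snd h0.fst' (dscf_cfL ((h0.snd').comp FP.fst) FP.snd)
    have h2 := ih.comp (FP.pair (FP.tail FP.fst) h1)
    exact h2

private def dscfD : ℕ → List ℕ → Rb → Rb
  | 0, _, g => g
  | k + 1, V, g => modL (V.headD 0) derL (dscfD k V.tail g)

private theorem dscfD_eq (k : ℕ) (V : List ℕ) (g : Rb) (h : V.length = k) :
    dscfD k V g = ders V g := by
  induction k generalizing V g with
  | zero =>
    have := List.eq_nil_of_length_eq_zero h
    subst this
    rfl
  | succ k ih =>
    cases V with
    | nil => simp at h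
    | cons p V =>
      have h1 : V.length = k := by simpa using h
      change modL p derL (dscfD k V g) = _
      rw [ih V _ h1]
      rfl

private theorem dscf_D (k : ℕ) : FP fun p : List ℕ × Rb => dscfD k p.1 p.2 := by
  induction k with
  | zero => exact FP.snd
  | succ k ih =>
    have h1 : FP fun p : List ℕ × Rb => dscfD k p.1.tail p.2 :=
      ih.comp (FP.pair (FP.tail FP.fst) FP.snd)
    exact fp_modL (h := fun q : (List ℕ × Rb) × Lay => derL q.2) h1 (FP.headD FP.fst 0)
      (fp_derL FP.snd)

private theorem dscf_As (k Δ : ℕ) : FP fun Ps : List Rb => As k Δ Ps := by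
  have h1 : FP fun q : ((List Rb × Rb) × List (ℕ × ℕ)) × List ℕ =>
      dscfD Δ q.2 (dscfC k q.1.2 q.1.1.2) :=
    (dscf_D Δ).comp (FP.pair FP.snd
      ((dscf_C k).comp (FP.pair (FP.fst.snd') ((FP.fst.fst').snd'))))
  have h2 : FP fun q : (List Rb × Rb) × List (ℕ × ℕ) =>
      (lpow (List.range ((nL q.1.1).length + 1)) Δ).map fun V =>
        dscfD Δ V (dscfC k q.2 q.1.2) := by
    have h3 : FP fun q : (List Rb × Rb) × List (ℕ × ℕ) =>
        List.range (true :: nL q.1.1).length :=
      FP.range (FP.cons (FP.const true) (fp_nL.comp (FP.fst.fst')))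
    exact fp_map (fp_lpow h3 Δ) h1
  have h3 : FP fun q : List Rb × Rb => (lpow (prs q.1) k).flatMap fun r =>
      (lpow (List.range ((nL q.1).length + 1)) Δ).map fun V => dscfD Δ V (dscfC k r q.2) :=
    fp_flatMap (fp_lpow (dscf_prs.comp FP.fst) k) h2
  have h4 : FP fun Ps : List Rb => (prg Ps).flatMap fun g => (lpow (prs Ps) k).flatMap fun r =>
      (lpow (List.range ((nL Ps).length + 1)) Δ).map fun V => dscfD Δ V (dscfC k r g) :=
    fp_flatMap dscf_prg h3
  refine (congrArg FP (funext fun Ps => ?_)).mp h4
  unfold As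
  rw [List.flatMap_def, List.flatMap_def]
  congr 1
  apply List.map_congr_left
  intro g _
  rw [List.flatMap_def, List.flatMap_def]
  congr 1
  apply List.map_congr_left
  intro r hr
  apply List.map_congr_left
  intro V hV
  rw [dscfC_eq k r g (mem_lpow.1 hr).1, dscfD_eq Δ V _ (mem_lpow.1 hV).1]

private theorem dscf_mns (k Δ T : ℕ) : FP fun Ps : List Rb => mns k Δ Ps T := by
  induction T with
  | zero => exact FP.const _
  | succ T ih =>
    have h1 : FP fun q : List Rb × List Rb =>
        (lpow (List.range (nL q.1).length) (T + 1)).map fun V => ((q.2, V) : Mn) :=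
      fp_map (h := fun r : (List Rb × List Rb) × List ℕ => ((r.1.2, r.2) : Mn))
        (fp_lpow (FP.range (fp_nL.comp FP.fst)) (T + 1)) (FP.pair (FP.fst.snd') FP.snd)
    exact FP.append ih (fp_flatMap (fp_lpow (dscf_As k Δ) (T + 1)) h1)

theorem fp_cxL (k Δ T : ℕ) : FP (cxL k Δ T) := by
  have h1 := dscf_mns k Δ T
  have h2 : FP fun Ps : List Rb => (mns k Δ Ps T).map fun _ => true := dscf_unit h1
  have h3 : FP fun Ps : List Rb =>
      un ((List.replicate T true).length * (DL Ps).length) :=
    FP.unMul (FP.const (List.replicate T true)) fp_DL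
  have h4 : FP fun Ps : List Rb => List.range (true :: un (((mns k Δ Ps T).map fun _ => true).length *
      (un ((List.replicate T true).length * (DL Ps).length)).length)).length :=
    FP.range (FP.cons (FP.const true) (FP.unMul h2 h3))
  have h5 : FP fun Ps : List Rb => vls k Δ T Ps := by
    refine (congrArg FP (funext fun Ps => ?_)).mp h4
    unfold vls
    rw [List.length_map]
  exact FP.pair h5 h1

end

end Pool.Agent.RP
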