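import Pool.Agent.RP.SrD

set_option autoImplicit false

/-!
RP-SrF. The search in polynomial time.

Plan: `FP.loopList` (`Helper22/Typed.lean`); the state is the context (unchanged) and the list of the values, which grows by one
element of `x.1` or `0` in every step, so its size is at most `n.length * (constant * sz x + constant)`. The step: `fp_flatMap`, `fp_any`,
`FP.ite`, `FP.append`, `fp_map`. Compare `PQ/SrchF.lean` (when it is landed).
-/

namespace Pool.Agent.RP

open MvPolynomial N487b59b3 N68a2faeb Pool.Agent.Helper22 Pool.Agent.Helper6.WB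
  Pool.Agent.Helper6.SP Pool.Agent.PQ

private theorem srF_pre {α : Type} [N487b59b3 α] {vs G : α → List ℕ} {rest : α → List Bool}
    (hvs : FP vs) (hr : FP rest) (hG : FP G) : FP fun a => pre (vs a) (rest a) (G a) := by
  have h1 : FP fun q : α × ℕ => [((q.2, 0) : ZZ)] :=
    FP.cons (FP.pair FP.snd (FP.const 0)) (FP.const [])
  have h3 : FP fun z : (α × Bool) × ℕ => ((z.2, 0) : ZZ) := FP.pair FP.snd (FP.const 0)
  have h2 : FP fun q : α × Bool => (G q.1).map fun v => (fun z : (α × Bool) × ℕ =>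
      ((z.2, 0) : ZZ)) (q, v) :=
    fp_map (hG.comp FP.fst) h3
  have h4 : FP fun a => (vs a).map fun v => (fun q : α × ℕ => [((q.2, 0) : ZZ)]) (a, v) :=
    fp_map hvs h1
  have h5 : FP fun a => (rest a).map fun b => (fun q : α × Bool =>
      (G q.1).map fun v => (fun z : (α × Bool) × ℕ => ((z.2, 0) : ZZ)) (q, v)) (a, b) :=
    fp_map hr h2
  exact FP.append h4 h5

private theorem srF_okv {g : List (List ZZ) × Mn → Bool} (hg : FP g) :
    FP fun z : (List Bool × (Cx × List ℕ)) × ℕ => okv g z.1.2.1 z.1.2.2 z.1.1.tail z.2 := by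
  have e1 : FP fun w : ((List Bool × (Cx × List ℕ)) × ℕ) × Mn => w.1.1.2.2 := by fun_prop
  have e2 : FP fun w : ((List Bool × (Cx × List ℕ)) × ℕ) × Mn => w.1.1.1.tail := by fun_prop
  have e3 : FP fun w : ((List Bool × (Cx × List ℕ)) × ℕ) × Mn => w.1.1.2.1.1 := by fun_prop
  have e4 : FP fun w : ((List Bool × (Cx × List ℕ)) × ℕ) × Mn => w.1.2 := by fun_prop
  have e5 : FP fun w : ((List Bool × (Cx × List ℕ)) × ℕ) × Mn =>
      pre w.1.1.2.2 (true :: w.1.1.1.tail) w.1.1.2.1.1 :=
    srF_pre e1 (FP.cons (FP.const true) e2) e3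
  have e6 : FP fun w : ((List Bool × (Cx × List ℕ)) × ℕ) × Mn =>
      pre (w.1.1.2.2 ++ [w.1.2]) w.1.1.1.tail w.1.1.2.1.1 :=
    srF_pre (FP.append e1 (FP.cons e4 (FP.const []))) e2 e3
  have e7 : FP fun w : ((List Bool × (Cx × List ℕ)) × ℕ) × Mn =>
      !(g (pre w.1.1.2.2 (true :: w.1.1.1.tail) w.1.1.2.1.1, w.2)) &&
        g (pre (w.1.1.2.2 ++ [w.1.2]) w.1.1.1.tail w.1.1.2.1.1, w.2) :=
    FP.and (FP.not (hg.comp (FP.pair e5 FP.snd))) (hg.comp (FP.pair e6 FP.snd))
  have e8 : FP fun z : (List Bool × (Cx × List ℕ)) × ℕ => z.1.2.1.2 := by fun_prop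
  have e9 : FP fun z : (List Bool × (Cx × List ℕ)) × ℕ => z.1.2.1.2.any fun μ =>
      (fun w : ((List Bool × (Cx × List ℕ)) × ℕ) × Mn =>
        !(g (pre w.1.1.2.2 (true :: w.1.1.1.tail) w.1.1.2.1.1, w.2)) &&
          g (pre (w.1.1.2.2 ++ [w.1.2]) w.1.1.1.tail w.1.1.2.1.1, w.2)) (z, μ) :=
    fp_any e8 e7
  exact FP.not e9

private theorem srF_step {g : List (List ZZ) × Mn → Bool} (hg : FP g) : FP (srF g) := by
  have e1 : FP fun z : (List Bool × (Cx × List ℕ)) × ℕ =>
      if okv g z.1.2.1 z.1.2.2 z.1.1.tail z.2 then [z.2] else [] :=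
    FP.ite (srF_okv hg) (FP.cons FP.snd (FP.const [])) (FP.const [])
  have e2 : FP fun p : List Bool × (Cx × List ℕ) => p.2.1.1.flatMap fun v =>
      (fun z : (List Bool × (Cx × List ℕ)) × ℕ =>
        if okv g z.1.2.1 z.1.2.2 z.1.1.tail z.2 then [z.2] else []) (p, v) :=
    fp_flatMap (by fun_prop) e1
  have e3 : FP fun p : List Bool × (Cx × List ℕ) => pick g p.2.1 p.2.2 p.1.tail :=
    FP.headD e2 0
  exact FP.pair (by fun_prop) (FP.append (by fun_prop) (FP.cons e3 (FP.const [])))

private theorem srF_pick (g : List (List ZZ) × Mn → Bool) (x : Cx) (vs : List ℕ)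
    (rest : List Bool) : sz (pick g x vs rest) ≤ sz x := by
  unfold pick
  rcases h : (x.1.flatMap fun v => if okv g x vs rest v then [v] else []) with _ | ⟨w, l⟩
  · rw [List.headD_nil, sz_nat, Nat.size_zero]
    exact Nat.zero_le _
  · rw [List.headD_cons]
    have h1 : w ∈ (x.1.flatMap fun v => if okv g x vs rest v then [v] else []) := by
      rw [h]; exact List.mem_cons_self
    obtain ⟨v, hv, hw⟩ := List.mem_flatMap.1 h1
    have h2 : w = v := by
      split_ifs at hw
      · simpa using hw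
      · simp at hw
    subst h2
    have h3 := sz_mem_le hv
    obtain ⟨x1, x2⟩ := x
    rw [sz_pair]
    simp only at h3
    omega

private theorem srF_iter (g : List (List ZZ) × Mn → Bool) (x : Cx) (i : ℕ) :
    ∀ (l : List Bool) (u : List ℕ), i ≤ l.length →
      sz ((fun p : List Bool × (Cx × List ℕ) => (p.1.tail, srF g p))^[i] (l, (x, u))).2 ≤
        sz (x, u) + (2 * sz x + 1) * l.length := by
  induction i with
  | zero =>
    intro l u _
    simp only [Function.iterate_zero, id]
    omega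
  | succ i ih =>
    intro l u hi
    cases l with
    | nil => simp at hi
    | cons c l =>
      rw [Function.iterate_succ_apply]
      refine (ih l (u ++ [pick g x u l]) (by simpa using hi)).trans ?_
      have h2 := srF_pick g x u l
      have h3 : sz (x, u ++ [pick g x u l]) = 2 * sz x + 1 + sz (u ++ [pick g x u l]) :=
        sz_pair _ _
      have h4 : sz (x, u) = 2 * sz x + 1 + sz u := sz_pair _ _
      have h5 : sz (u ++ [pick g x u l]) = sz u + (2 * sz (pick g x u l) + 1) := by
        rw [sz_append, sz_cons, sz_nil]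
      rw [h3, h4, h5, List.length_cons, Nat.mul_succ]
      omega

theorem fp_srch {g : List (List ZZ) × Mn → Bool} (hg : FP g) :
    FP fun p : Cx × List Bool => srch g p.1 p.2 := by
  have h := FP.loopList (β := Bool) (f := srF g) (srF_step hg)
    (B := fun n => n + (2 * n + 1) * n) (by fun_prop) (by
      rintro l ⟨x, u⟩ i hi
      refine (srF_iter g x i l u hi).trans ?_
      have h1 := length_le_sz l
      have h2 : sz l ≤ sz (l, (x, u)) := by rw [sz_pair]; omega
      have h3 : sz (x, u) ≤ sz (l, (x, u)) := by rw [sz_pair (a := l)]; omega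
      have h4 : sz x ≤ sz (l, (x, u)) := by
        refine le_trans ?_ h3
        rw [sz_pair (a := x)]; omega
      have h5 : (2 * sz x + 1) * l.length ≤ (2 * sz (l, (x, u)) + 1) * sz (l, (x, u)) :=
        Nat.mul_le_mul (by omega) (h1.trans h2)
      omega)
  exact FP.snd.comp (h.comp (FP.pair FP.snd (FP.pair FP.fst (FP.const ([] : List ℕ)))))

end Pool.Agent.RP
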