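import Pool.Agent.RP.SrM
import Pool.Agent.RP.SrF
import Pool.Agent.RP.DscF

set_option autoImplicit false

/-!
RP-Bp. The base point: assembly.

Plan: `fp_srch`, `fp_cxL`, `fp_nL`; `srch_spec` with `f μ = JJ μ.2.length μ.1 μ.2`, `d = T * (DL Ps).length`, `mem_mns`, `length_As`, `degreeOf_JJ`,
`vars_JJ`, `List.nodup_range`; the minor of `I`, `V` is `JJ m (List.ofFn I) (List.ofFn V)`.
-/

namespace Pool.Agent.RP

open MvPolynomial N487b59b3 N68a2faeb Pool.Agent.Helper22 Pool.Agent.Helper6.WB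
  Pool.Agent.Helper6.SP Pool.Agent.PQ

/-- the oracle -/
noncomputable def orc (T : ℕ) : List (List ZZ) × Mn → Bool := (exists_orc T).choose

/-- the base point -/
noncomputable def bp (k Δ T : ℕ) (Ps : List Rb) : List ℕ := srch (orc T) (cxL k Δ T Ps) (nL Ps)

theorem fp_bp (k Δ T : ℕ) : FP (bp k Δ T) :=
  (fp_srch (exists_orc T).choose_spec.1).comp (f := fun Ps => (cxL k Δ T Ps, nL Ps))
    ((fp_cxL k Δ T).pair fp_nL)

private theorem JJ_ofFn {m : ℕ} (I : Fin m → Rb) (V : Fin m → ℕ) :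
    JJ (List.ofFn V).length (List.ofFn I) (List.ofFn V) =
      (Matrix.of fun i j => pderiv (V j) (val (I i))).det := by
  rw [List.length_ofFn]
  unfold JJ
  congr 1
  ext1 i j
  simp only [Matrix.of_apply]
  rw [List.getD_eq_getElem _ _ (by simp), List.getD_eq_getElem _ _ (by simp),
    List.getElem_ofFn, List.getElem_ofFn]

theorem bp_spec (k Δ T : ℕ) (Ps : List Rb) {m : ℕ} (hm : m ≤ T) (I : Fin m → Rb)
    (V : Fin m → ℕ) (hI : ∀ i, I i ∈ As k Δ Ps) (hV : ∀ i, V i < (nL Ps).length)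
    (h0 : (Matrix.of fun i j => pderiv (V j) (val (I i))).det ≠ 0) :
    eval (fun i => ((bp k Δ T Ps).getD i 0 : ℚ))
      (Matrix.of fun i j => pderiv (V j) (val (I i))).det ≠ 0 := by
  have hμ : ((List.ofFn I, List.ofFn V) : Mn) ∈ mns k Δ Ps T := by
    rw [mem_mns]
    refine ⟨by simp, by simpa using hm, ?_, ?_⟩
    · intro g hg
      rw [List.mem_ofFn] at hg
      obtain ⟨i, rfl⟩ := hg
      exact hI i
    · intro j hj
      rw [List.mem_ofFn] at hj
      obtain ⟨i, rfl⟩ := hj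
      exact hV i
  have h1 := srch_spec (orc T) (cxL k Δ T Ps) (nL Ps) (T * (DL Ps).length)
    (fun μ => JJ μ.2.length μ.1 μ.2) ?_ (fun μ hμ => vars_JJ hμ) (fun μ hμ i => degreeOf_JJ hμ i)
    List.nodup_range ?_ hμ ?_
  · simp only at h1
    rw [JJ_ofFn] at h1
    exact h1
  · intro xs μ hμ hx
    obtain ⟨g1, g2, g3, g4⟩ := mem_mns.mp hμ
    refine (exists_orc T).choose_spec.2 (xs, μ) g1 g2 (fun h hh => ?_) (fun j hj => ?_)
    · rw [length_As (g3 h hh), hx]
    · rw [hx]
      exact g4 j hj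
  · show (mns k Δ Ps T).length * (T * (DL Ps).length) < (vls k Δ T Ps).length
    unfold vls
    rw [List.length_range, List.length_cons, Pool.Agent.Helper22.un_length,
      Pool.Agent.Helper22.un_length, List.length_replicate]
    exact Nat.lt_succ_self _
  · simp only
    rw [JJ_ofFn]
    exact h0

end Pool.Agent.RP
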