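import Pool.Agent.RP.Ev
import Pool.Agent.Helper6.SP.Main

set_option autoImplicit false

/-!
RP-Cmp. The composition: evaluation in polynomial time, membership in the algebra, degree.

Plan: as `env2`, `outV`, `ptE_env2`, `outV_cd`, `cmp_mem`, `deg_cmp` in `Helper6/SP/Test.lean` and `Helper6/SP/Main.lean` (copy and adapt; `lookE_aux`,
`fp_zipIdx`, `fq_topV`, `topV_code`, `fp_valZ`). `toQ ((a, b), 1) = zq (a, b)`. The inner environment `envP` is that of the values of the
programs (`facV_eq`: `topV_code`, `Fm.eval_poly`-like induction with `aeval`), the outer environment `envQ` that of the products (an `El` for each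
product: `(FQ.listProd ..)` and its chosen program, as `prF` in `Helper6/SP/Test.lean`). Degree: `totalDegree_val` with `D = (DL Ps).length` and
`g.length ≤ (nL Ps).length`; `(facPoly c).totalDegree ≤ c.1.code.length * (n * D)` by induction on the formula (`Fm.size`, `size_le_code`), the
products by `toks1`, and the outer formula in the same way.
-/

namespace Pool.Agent.RP

open MvPolynomial N487b59b3 N68a2faeb Pool.Agent.Helper22 Pool.Agent.Helper6.WB
  Pool.Agent.Helper6.SP Pool.Agent.PQ

/-- a factor: a formula and its leaves -/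
abbrev Fac := Fm × List Rb

/-- a coded factor -/
abbrev FacC := Wd × List Rb

/-- the code of a factor -/
def Fac.code (c : Fac) : FacC := (c.1.code, c.2)

/-- the polynomial of a factor -/
noncomputable def facPoly (c : Fac) : MvPolynomial ℕ ℚ :=
  aeval (fun j => (c.2.map val).getD j 0) c.1.poly

/-- all programs of the input -/
def pgs (L : List (List FacC)) : List Rb := L.flatten.flatMap fun c => c.2

/-- all tokens of the inner formulas -/
def toks1 (L : List (List FacC)) : Wd := L.flatten.flatMap fun c => c.1

/-- the code of the factors -/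
def cdF (L : List (List Fac)) : List (List FacC) := L.map fun p => p.map Fac.code

/-- the environment of the values of the programs -/
def envP (x : List ZZ) (c : FacC) : En := c.2.zipIdx.map fun q => (q.2 + 3, (valZ q.1 x, 1))

/-- the value of a factor -/
noncomputable def facV (p : List ZZ × FacC) : ℚ := topV p.2.1 (envP p.1 p.2)

/-- the environment of a list of values -/
private theorem ptE_zip {β : Type} (l : List β) (v : β → El) (i : ℕ) :
    ptE (l.zipIdx.map fun q => (q.2 + 3, v q.1)) i = (l.map fun b => toQ (v b)).getD i 0 := by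
  rw [ptE, lookE]
  by_cases hi : i < l.length
  · rw [List.getD_eq_getElem _ _ (by rw [List.length_map]; exact hi), List.getElem_map,
      lookE_aux (l.zipIdx.map fun q => (q.2 + 3, v q.1)) (i + 3) (v l[i])]
    · intro q hq hqi
      obtain ⟨⟨w, j⟩, hw, rfl⟩ := List.mem_map.mp hq
      rw [List.mem_zipIdx_iff_getElem?] at hw
      simp only at hqi hw ⊢
      have h1 : j = i := by omega
      subst h1
      obtain ⟨h2, h3⟩ := List.getElem?_eq_some_iff.mp hw
      rw [← h3]
    · right
      refine ⟨(i + 3, v l[i]), ?_, rfl⟩
      rw [List.mem_map]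
      refine ⟨(l[i], i), ?_, rfl⟩
      rw [List.mem_zipIdx_iff_getElem?]
      exact List.getElem?_eq_getElem hi
  · rw [List.getD_eq_default _ _ (by rw [List.length_map]; exact not_lt.mp hi),
      lookE_aux (l.zipIdx.map fun q => (q.2 + 3, v q.1)) (i + 3) e0]
    · simp [toQ, e0]
    · intro q hq hqi
      obtain ⟨⟨w, j⟩, hw, rfl⟩ := List.mem_map.mp hq
      rw [List.mem_zipIdx_iff_getElem?] at hw
      simp only at hqi hw
      obtain ⟨h2, h3⟩ := List.getElem?_eq_some_iff.mp hw
      omega
    · exact Or.inl rfl

private theorem ev_aeval (y : ℕ → ℚ) (P : ℕ → MvPolynomial ℕ ℚ) (z : ℕ → ℚ) (Q : Fm)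
    (h : ∀ j, z j = eval y (P j)) : Q.ev z = eval y (aeval P Q.poly) := by
  induction Q with
  | const q =>
    simp only [Fm.ev, Fm.poly]
    rw [← algebraMap_eq, AlgHom.commutes, algebraMap_eq, eval_C]
  | var i =>
    simp only [Fm.ev, Fm.poly, aeval_X]
    exact h i
  | add F G ihF ihG => simp only [Fm.ev, Fm.poly, map_add, ihF, ihG]
  | mul F G ihF ihG => simp only [Fm.ev, Fm.poly, map_mul, ihF, ihG]

private theorem deg_aeval (P : ℕ → MvPolynomial ℕ ℚ) (D : ℕ) (Q : Fm)
    (h : ∀ j, (P j).totalDegree ≤ D) : (aeval P Q.poly).totalDegree ≤ Q.code.length * D := by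
  refine le_trans ?_ (Nat.mul_le_mul_right _ (size_le_code Q))
  induction Q with
  | const q =>
    simp only [Fm.poly]
    rw [← algebraMap_eq, AlgHom.commutes, algebraMap_eq, totalDegree_C]
    exact Nat.zero_le _
  | var i =>
    simp only [Fm.poly, aeval_X, Fm.size, one_mul]
    exact h i
  | add F G ihF ihG =>
    simp only [Fm.poly, map_add, Fm.size, Nat.add_mul]
    exact (totalDegree_add _ _).trans (max_le (ihF.trans (Nat.le_add_right _ _))
      (ihG.trans (Nat.le_add_left _ _)))
  | mul F G ihF ihG =>
    simp only [Fm.poly, map_mul, Fm.size, Nat.add_mul]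
    exact (totalDegree_mul _ _).trans (Nat.add_le_add ihF ihG)

private theorem toQ_zz (a : ZZ) : toQ (a, 1) = zq a := by
  simp [toQ, zq]

private theorem getD_mapQ {β : Type} (f : β → ℚ) (g : β → MvPolynomial ℕ ℚ) (y : ℕ → ℚ)
    (l : List β) (i : ℕ) (h : ∀ b ∈ l, f b = eval y (g b)) :
    (l.map f).getD i 0 = eval y ((l.map g).getD i 0) := by
  by_cases hi : i < l.length
  · rw [List.getD_eq_getElem _ _ (by rw [List.length_map]; exact hi),
      List.getD_eq_getElem _ _ (by rw [List.length_map]; exact hi), List.getElem_map,
      List.getElem_map]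
    exact h _ (List.getElem_mem hi)
  · rw [List.getD_eq_default _ _ (by rw [List.length_map]; exact not_lt.mp hi),
      List.getD_eq_default _ _ (by rw [List.length_map]; exact not_lt.mp hi), map_zero]

theorem facV_eq (x : List ZZ) (c : Fac) (h : ∀ g ∈ c.2, g.length ≤ x.length) :
    facV (x, c.code) = eval (fun i => zq (x.getD i (0, 0))) (facPoly c) := by
  unfold facV facPoly
  show topV c.1.code (envP x (c.1.code, c.2)) = _
  rw [topV_code]
  refine ev_aeval _ _ _ _ fun j => ?_
  unfold envP
  rw [ptE_zip c.2 (fun g => (valZ g x, 1)) j]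
  refine getD_mapQ _ _ _ _ _ fun g hg => ?_
  rw [toQ_zz, zq_valZ g x (h g hg), eval_val]

private theorem fp_envP : FP fun p : List ZZ × FacC => envP p.1 p.2 := by
  have h0 : FP fun p : List ZZ × FacC => p.2.2 := FP.snd.comp FP.snd
  have h1 : FP fun r : (List ZZ × FacC) × (Rb × ℕ) =>
      ((r.2.2 + 3, ((valZ r.2.1 r.1.1, 1) : El)) : ℕ × El) :=
    FP.pair (Pool.Agent.Helper6.WB.FP.natAdd (FP.snd.comp FP.snd) (FP.const 3))
      (FP.pair (fp_valZ (FP.fst.comp FP.snd) (FP.fst.comp FP.fst)) (FP.const 1))
  exact fp_map (fp_zipIdx h0) h1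

theorem fq_facV : FQ facV := by
  have h0 : FP fun p : List ZZ × FacC => p.2.1 := FP.fst.comp FP.snd
  exact fq_topV h0 fp_envP

theorem fq_proV : FQ fun p : List ZZ × List FacC => (p.2.map fun c => facV (p.1, c)).prod :=
  FQ.listProd fq_facV

/-- the value of a product, as an element -/
noncomputable def proE : List ZZ × List FacC → El := fq_proV.choose

private theorem fp_proE : FP proE := fq_proV.choose_spec.1

private theorem toQ_proE (p : List ZZ × List FacC) :
    toQ (proE p) = (p.2.map fun c => facV (p.1, c)).prod := fq_proV.choose_spec.2.2 p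

/-- the environment of the values of the products -/
noncomputable def envQ (x : List ZZ) (L : List (List FacC)) : En :=
  L.zipIdx.map fun q => (q.2 + 3, proE (x, q.1))

/-- the value of the composition -/
noncomputable def outQ (p : List ZZ × (Wd × List (List FacC))) : ℚ :=
  topV p.2.1 (envQ p.1 p.2.2)

/-- the products -/
noncomputable def proP (L : List (List Fac)) : List (MvPolynomial ℕ ℚ) :=
  L.map fun p => (p.map facPoly).prod

/-- the composition -/
noncomputable def cmpR (Q : Fm) (L : List (List Fac)) : MvPolynomial ℕ ℚ :=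
  aeval (fun j => (proP L).getD j 0) Q.poly

theorem outQ_eq (x : List ZZ) (Q : Fm) (L : List (List Fac))
    (h : ∀ g ∈ pgs (cdF L), g.length ≤ x.length) :
    outQ (x, (Q.code, cdF L)) = eval (fun i => zq (x.getD i (0, 0))) (cmpR Q L) := by
  unfold outQ cmpR
  show topV Q.code (envQ x (cdF L)) = _
  rw [topV_code]
  refine ev_aeval _ _ _ _ fun j => ?_
  unfold envQ
  rw [ptE_zip (cdF L) (fun c => proE (x, c)) j]
  unfold cdF proP
  rw [List.map_map]
  refine getD_mapQ _ _ _ _ _ fun p hp => ?_
  simp only [Function.comp_apply]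
  rw [toQ_proE, List.map_map, map_list_prod, List.map_map]
  congr 1
  apply List.map_congr_left
  intro c hc
  simp only [Function.comp_apply]
  refine facV_eq x c fun g hg => h g ?_
  unfold pgs cdF
  rw [List.mem_flatMap]
  refine ⟨c.code, ?_, hg⟩
  rw [List.mem_flatten]
  exact ⟨p.map Fac.code, List.mem_map_of_mem hp, List.mem_map_of_mem hc⟩

theorem fq_outQ : FQ outQ := by
  have h0 : FP fun p : List ZZ × (Wd × List (List FacC)) => p.2.1 := FP.fst.comp FP.snd
  have h1 : FP fun p : List ZZ × (Wd × List (List FacC)) => p.2.2 := FP.snd.comp FP.snd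
  have h2 : FP fun r : (List ZZ × (Wd × List (List FacC))) × (List FacC × ℕ) =>
      ((r.2.2 + 3, proE (r.1.1, r.2.1)) : ℕ × El) :=
    FP.pair (Pool.Agent.Helper6.WB.FP.natAdd (FP.snd.comp FP.snd) (FP.const 3))
      (fp_proE.comp (FP.pair (FP.fst.comp FP.fst) (FP.fst.comp FP.snd)))
  have h3 : FP fun p : List ZZ × (Wd × List (List FacC)) => envQ p.1 p.2.2 :=
    fp_map (fp_zipIdx h1) h2
  exact fq_topV h0 h3

theorem cmpR_mem (Q : Fm) (L : List (List Fac)) : cmpR Q L ∈
    Algebra.adjoin ℚ (Set.range fun i => ((L.get i).map facPoly).prod) := by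
  rw [cmpR]
  induction Q with
  | const q =>
    simp only [Fm.poly]
    rw [← algebraMap_eq, AlgHom.commutes]
    exact Subalgebra.algebraMap_mem _ _
  | var i =>
    simp only [Fm.poly, aeval_X]
    by_cases h : i < L.length
    · have h1 : (proP L).getD i 0 = ((L.get ⟨i, h⟩).map facPoly).prod := by
        unfold proP
        rw [List.getD_eq_getElem _ _ (by rw [List.length_map]; exact h), List.getElem_map,
          List.get_eq_getElem]
      rw [h1]
      exact Algebra.subset_adjoin ⟨⟨i, h⟩, rfl⟩
    · have h1 : (proP L).getD i 0 = 0 := by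
        unfold proP
        rw [List.getD_eq_default _ _ (by rw [List.length_map]; exact not_lt.mp h)]
      rw [h1]
      exact Subalgebra.zero_mem _
  | add F G ihF ihG =>
    simp only [Fm.poly, map_add]
    exact Subalgebra.add_mem _ ihF ihG
  | mul F G ihF ihG =>
    simp only [Fm.poly, map_mul]
    exact Subalgebra.mul_mem _ ihF ihG

theorem totalDegree_cmpR (Q : Fm) (L : List (List Fac)) : (cmpR Q L).totalDegree ≤
    Q.code.length * ((toks1 (cdF L)).length *
      ((nL (pgs (cdF L))).length * (DL (pgs (cdF L))).length)) := by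
  generalize hB : (nL (pgs (cdF L))).length * (DL (pgs (cdF L))).length = B
  have hg : ∀ g ∈ pgs (cdF L), (val g).totalDegree ≤ B := by
    intro g hg
    rw [← hB]
    exact (totalDegree_val _ g (CL_input hg)).trans (Nat.mul_le_mul_right _ (length_input hg))
  unfold cmpR
  refine deg_aeval _ _ _ fun j => ?_
  unfold proP
  by_cases hj : j < L.length
  · rw [List.getD_eq_getElem _ _ (by rw [List.length_map]; exact hj), List.getElem_map]
    have hp : L[j] ∈ L := List.getElem_mem hj
    generalize L[j] = p at hp
    have h1 : ((p.map facPoly).prod).totalDegree ≤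
        ((p.map Fac.code).flatMap fun c => c.1).length * B := by
      have h2 : ∀ c ∈ p, (facPoly c).totalDegree ≤ c.1.code.length * B := by
        intro c hc
        unfold facPoly
        refine deg_aeval _ _ _ fun i => ?_
        by_cases hi : i < c.2.length
        · rw [List.getD_eq_getElem _ _ (by rw [List.length_map]; exact hi), List.getElem_map]
          refine hg _ ?_
          unfold pgs cdF
          rw [List.mem_flatMap]
          refine ⟨c.code, ?_, List.getElem_mem hi⟩
          rw [List.mem_flatten]
          exact ⟨p.map Fac.code, List.mem_map_of_mem hp, List.mem_map_of_mem hc⟩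
        · rw [List.getD_eq_default _ _ (by rw [List.length_map]; exact not_lt.mp hi),
            totalDegree_zero]
          exact Nat.zero_le _
      clear hp
      induction p with
      | nil => simp
      | cons c p ih =>
        rw [List.map_cons, List.prod_cons, List.map_cons, List.flatMap_cons, List.length_append,
          Nat.add_mul]
        refine (totalDegree_mul _ _).trans (Nat.add_le_add ?_ ?_)
        · exact h2 c List.mem_cons_self
        · exact ih fun c' hc' => h2 c' (List.mem_cons_of_mem _ hc')
    refine h1.trans (Nat.mul_le_mul_right _ ?_)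
    have h3 : p.map Fac.code ∈ cdF L := List.mem_map_of_mem hp
    have h4 : (p.map Fac.code).Sublist (cdF L).flatten := List.sublist_flatten_of_mem h3
    unfold toks1
    exact (h4.flatMap _).length_le
  · rw [List.getD_eq_default _ _ (by rw [List.length_map]; exact not_lt.mp hj), totalDegree_zero]
    exact Nat.zero_le _

end Pool.Agent.RP
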