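import Pool.Agent.Helper6.WB.Defs

set_option autoImplicit false

/-!
Read-once oblivious algebraic branching programs with integer coefficients: definitions.
-/

namespace Pool.Agent.RP

open MvPolynomial

/-- A layer: a matrix (list of rows) whose entries are univariate polynomials, given by the lists
of their coefficients, the constant coefficient first. -/
abbrev Lay := List (List (List ℤ))

/-- A program: the list of its layers; the layer number `i` reads the variable number `i`. -/
abbrev Rb := List Lay

/-- the value of an entry at `x` -/
def entry {R : Type*} [CommRing R] (c : List ℤ) (x : R) : R :=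
  ∑ e ∈ Finset.range c.length, (c.getD e 0 : R) * x ^ e

/-- a row times a vector (surplus entries of either are ignored) -/
def rowMul {R : Type*} [CommRing R] (x : R) (row : List (List ℤ)) (s : List R) : R :=
  ((row.zip s).map fun p => entry p.1 x * p.2).sum

/-- The run of a program from the vector `s`: the layer number `i` replaces the vector by the
product of the layer at `x i` with the vector. -/
def run {R : Type*} [CommRing R] (x : ℕ → R) : Rb → ℕ → List R → List R
  | [], _, s => s
  | L :: g, i, s => run x g (i + 1) (L.map fun row => rowMul (x i) row s)

/-- The output: the first entry of the last vector, starting from the vector `(1)`. -/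
def out {R : Type*} [CommRing R] (x : ℕ → R) (g : Rb) : R := (run x g 0 [1]).headD 0

/-- the polynomial computed by a program -/
noncomputable def val (g : Rb) : MvPolynomial ℕ ℚ := out X g

/-- `Rk J t f`: the polynomial `f` has rank at most `t` with respect to the set `J` of variables:
it is a sum of `t` products of a polynomial in the variables in `J` and a polynomial in the other
variables. -/
def Rk (J : Finset ℕ) (t : ℕ) (f : MvPolynomial ℕ ℚ) : Prop :=
  ∃ u v : Fin t → MvPolynomial ℕ ℚ, (∀ i, (u i).vars ⊆ J) ∧ (∀ i, Disjoint (v i).vars J) ∧
    f = ∑ i, u i * v i

/-- `Tame k t g`: the polynomial computed by the program `g` has degree at most `t` in every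
variable, or the program has width at most `t`, or the polynomial has rank at most `t` with respect
to every set of at most `k` variables. -/
def Tame (k t : ℕ) (g : Rb) : Prop :=
  (∀ i, (val g).degreeOf i ≤ t) ∨ (∀ L ∈ g, L.length ≤ t) ∨
    ∀ J : Finset ℕ, J.card ≤ k → Rk J t (val g)

end Pool.Agent.RP
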