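import Pool.Agent.RP.SrD

set_option autoImplicit false

/-!
RP-Dsc. The list of the minors and the values of the search (input: the list `Ps` of all programs).

Plan: `mem_mns` by induction on `T` with `mem_lpow`. `length_As`: the length is kept by `modL` (hence by `cfs`, `ders`), it is `n` for
`padR`, `varR`, `zerR`. `CL_As`: `CL` for the programs of the input with `D = (DL Ps).length` (every coefficient list of a program of
`Ps` is an element of the flattened list, so its length is at most the number of all integers), then `CL` for `padR`, `varR`, `zerR`,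
`modL j (cfL e)`, `modL j derL` (`derC c` is not longer than `c`). Degrees: `degreeOf` of a determinant (`Matrix.det_apply`, degree of sums
and products, `degreeOf i (pderiv j f) ≤ degreeOf i f` by supports), `degreeOf_val`, `vars_val`. `ders_mem`: `ders (V ++ replicate m n) g = ders V g`
for `g.length = n`. `val_ders`: `val_modL_derL`.
-/

namespace Pool.Agent.RP

open MvPolynomial N487b59b3 N68a2faeb Pool.Agent.Helper22 Pool.Agent.Helper6.WB
  Pool.Agent.Helper6.SP Pool.Agent.PQ

/-- all coefficients of the programs -/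
def ints (Ps : List Rb) : List ℤ := Ps.flatten.flatten.flatten.flatten

/-- unary number of layers -/
def nL (Ps : List Rb) : List Bool := true :: Ps.flatten.map fun _ => true

/-- unary bound for the degrees -/
def DL (Ps : List Rb) : List Bool := true :: true :: (ints Ps).map fun _ => true

/-- the program of zero with `n` layers -/
def zerR (n : List Bool) : Rb := (List.range n.length).map fun _ => [[[0]]]

/-- the programs of the input, of the variables and of zero, with the same number of layers -/
def prg (Ps : List Rb) : List Rb :=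
  Ps.map (padR (nL Ps)) ++ ((List.range (nL Ps).length).map (varR (nL Ps)) ++ [zerR (nL Ps)])

/-- pairs (variable, exponent) -/
def prs (Ps : List Rb) : List (ℕ × ℕ) :=
  ((nL Ps).length, 0) :: (List.range (nL Ps).length).flatMap fun j =>
    (List.range (DL Ps).length).map fun e => (j, e)

/-- iterated derivatives -/
def ders (V : List ℕ) (g : Rb) : Rb := V.foldr (fun j g => modL j derL g) g

/-- the derivatives of order at most `Δ` of the programs of the coefficients with respect to at most
`k` variables -/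
def As (k Δ : ℕ) (Ps : List Rb) : List Rb :=
  (prg Ps).flatMap fun g => (lpow (prs Ps) k).flatMap fun r =>
    (lpow (List.range ((nL Ps).length + 1)) Δ).map fun V => ders V (cfs r g)

/-- the minors of size at most `T` -/
def mns (k Δ : ℕ) (Ps : List Rb) : ℕ → List Mn
  | 0 => [([], [])]
  | T + 1 => mns k Δ Ps T ++ (lpow (As k Δ Ps) (T + 1)).flatMap fun I =>
      (lpow (List.range (nL Ps).length) (T + 1)).map fun V => (I, V)

/-- the values of the coordinates -/
def vls (k Δ T : ℕ) (Ps : List Rb) : List ℕ :=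
  List.range (true :: un ((mns k Δ Ps T).length *
    (un ((List.replicate T true).length * (DL Ps).length)).length)).length

/-- the context of the search -/
def cxL (k Δ T : ℕ) (Ps : List Rb) : Cx := (vls k Δ T Ps, mns k Δ Ps T)

theorem mem_mns {k Δ T : ℕ} {Ps : List Rb} {μ : Mn} : μ ∈ mns k Δ Ps T ↔
    μ.1.length = μ.2.length ∧ μ.2.length ≤ T ∧ (∀ g ∈ μ.1, g ∈ As k Δ Ps) ∧
      ∀ j ∈ μ.2, j < (nL Ps).length := by
  obtain ⟨I, V⟩ := μ
  induction T generalizing I V with
  | zero =>
    rw [mns, List.mem_singleton]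
    constructor
    · intro h
      obtain ⟨rfl, rfl⟩ := Prod.mk.inj h
      exact ⟨rfl, le_refl _, by simp, by simp⟩
    · rintro ⟨h1, h2, -, -⟩
      have h3 : V = [] := List.eq_nil_of_length_eq_zero (Nat.le_zero.1 h2)
      subst h3
      have h4 : I = [] := List.eq_nil_of_length_eq_zero h1
      rw [h4]
  | succ T ih =>
    rw [mns, List.mem_append, ih, List.mem_flatMap]
    simp only [List.mem_map, mem_lpow, List.mem_range]
    constructor
    · rintro (⟨h1, h2, h3, h4⟩ | ⟨I', ⟨h1, h2⟩, V', ⟨h3, h4⟩, h5⟩)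
      · exact ⟨h1, by omega, h3, h4⟩
      · obtain ⟨rfl, rfl⟩ := Prod.mk.inj h5
        exact ⟨by omega, by omega, h2, h4⟩
    · rintro ⟨h1, h2, h3, h4⟩
      rcases Nat.lt_or_ge T V.length with h5 | h5
      · exact Or.inr ⟨I, ⟨by omega, h3⟩, V, ⟨by omega, h4⟩, rfl⟩
      · exact Or.inl ⟨h1, h5, h3, h4⟩

theorem mem_As {k Δ : ℕ} {Ps : List Rb} {G : Rb} : G ∈ As k Δ Ps ↔ ∃ g ∈ prg Ps,
    ∃ r : List (ℕ × ℕ), r.length = k ∧ (∀ p ∈ r, p ∈ prs Ps) ∧
    ∃ V : List ℕ, V.length = Δ ∧ (∀ j ∈ V, j ≤ (nL Ps).length) ∧ G = ders V (cfs r g) := by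
  unfold As
  simp only [List.mem_flatMap, List.mem_map, mem_lpow, List.mem_range, Nat.lt_succ_iff]
  constructor
  · rintro ⟨g, hg, r, ⟨h1, h2⟩, V, ⟨h3, h4⟩, rfl⟩
    exact ⟨g, hg, r, h1, h2, V, h3, h4, rfl⟩
  · rintro ⟨g, hg, r, h1, h2, V, h3, h4, rfl⟩
    exact ⟨g, hg, r, ⟨h1, h2⟩, V, ⟨h3, h4⟩, rfl⟩

private theorem length_ders (V : List ℕ) (g : Rb) : (ders V g).length = g.length := by
  induction V with
  | nil => rfl
  | cons j V ih =>
    have h : ders (j :: V) g = modL j derL (ders V g) := rfl
    rw [h, length_modL, ih]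

private theorem length_le_flatten {α : Type*} {l : List α} {L : List (List α)} (h : l ∈ L) :
    l.length ≤ L.flatten.length := (List.sublist_flatten_of_mem h).length_le

theorem length_input {Ps : List Rb} {g : Rb} (h : g ∈ Ps) : g.length ≤ (nL Ps).length := by
  rw [nL, List.length_cons, List.length_map]
  exact (length_le_flatten h).trans (Nat.le_succ _)

private theorem length_DL (Ps : List Rb) : (DL Ps).length = (ints Ps).length + 2 := by
  simp [DL]

theorem CL_input {Ps : List Rb} {g : Rb} (h : g ∈ Ps) : CL (DL Ps).length g := by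
  intro L hL row hrow c hc
  have h1 : L ∈ Ps.flatten := List.mem_flatten.2 ⟨g, h, hL⟩
  have h2 : row ∈ Ps.flatten.flatten := List.mem_flatten.2 ⟨L, h1, hrow⟩
  have h3 : c ∈ Ps.flatten.flatten.flatten := List.mem_flatten.2 ⟨row, h2, hc⟩
  rw [length_DL]
  exact (length_le_flatten h3).trans (Nat.le_add_right _ 2)

private theorem length_prg {Ps : List Rb} {g : Rb} (h : g ∈ prg Ps) :
    g.length = (nL Ps).length := by
  rw [prg, List.mem_append, List.mem_append, List.mem_map, List.mem_map, List.mem_singleton] at h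
  rcases h with ⟨a, ha, rfl⟩ | ⟨j, _, rfl⟩ | rfl
  · exact length_padR _ _ (length_input ha)
  · exact length_varR _ _
  · simp [zerR]

private theorem CL_zerR {D : ℕ} (hD : 0 < D) (n : List Bool) : CL D (zerR n) := by
  intro L hL row hrow c hc
  rw [zerR, List.mem_map] at hL
  obtain ⟨_, _, rfl⟩ := hL
  rw [List.mem_singleton] at hrow
  subst hrow
  rw [List.mem_singleton] at hc
  subst hc
  exact hD

private theorem CL_prg {Ps : List Rb} {g : Rb} (h : g ∈ prg Ps) : CL (DL Ps).length g := by
  have hD := length_DL Ps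
  rw [prg, List.mem_append, List.mem_append, List.mem_map, List.mem_map, List.mem_singleton] at h
  rcases h with ⟨a, ha, rfl⟩ | ⟨j, _, rfl⟩ | rfl
  · exact CL_padR (by omega) _ (CL_input ha)
  · intro L hL row hrow c hc
    have := CL_varR (nL Ps) j L hL row hrow c hc
    omega
  · exact CL_zerR (by omega) _

private theorem CL_cfs {D : ℕ} (hD : 0 < D) (r : List (ℕ × ℕ)) : ∀ {g : Rb}, CL D g →
    CL D (cfs r g) := by
  induction r with
  | nil => intro g h; exact h
  | cons p r ih =>
    intro g h
    have h1 : cfs (p :: r) g = cfs r (modL p.1 (cfL p.2) g) := rfl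
    rw [h1]
    exact ih (CL_modL_cfL hD _ _ h)

private theorem CL_modL_derL {D : ℕ} (j : ℕ) {g : Rb} (h : CL D g) : CL D (modL j derL g) := by
  intro L' hL'
  rw [modL, List.mem_map] at hL'
  obtain ⟨⟨L, i⟩, hL, rfl⟩ := hL'
  have hLg : L ∈ g := (List.mem_zipIdx hL).2.2 ▸ List.getElem_mem _
  dsimp only
  split_ifs with hi
  · intro row hrow c hc
    simp only [derL, List.mem_map] at hrow
    obtain ⟨row0, hr, rfl⟩ := hrow
    rw [List.mem_map] at hc
    obtain ⟨c0, hc0, rfl⟩ := hc
    have := h L hLg row0 hr c0 hc0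
    rw [length_derC]
    omega
  · exact h L hLg

private theorem CL_ders {D : ℕ} (V : List ℕ) {g : Rb} (h : CL D g) : CL D (ders V g) := by
  induction V with
  | nil => exact h
  | cons j V ih => exact CL_modL_derL j ih

theorem length_As {k Δ : ℕ} {Ps : List Rb} {g : Rb} (h : g ∈ As k Δ Ps) :
    g.length = (nL Ps).length := by
  obtain ⟨g0, hg0, r, _, _, V, _, _, rfl⟩ := mem_As.1 h
  rw [length_ders, length_cfs, length_prg hg0]

theorem CL_As {k Δ : ℕ} {Ps : List Rb} {g : Rb} (h : g ∈ As k Δ Ps) : CL (DL Ps).length g := by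
  obtain ⟨g0, hg0, r, _, _, V, _, _, rfl⟩ := mem_As.1 h
  have hD := length_DL Ps
  exact CL_ders V (CL_cfs (by omega) r (CL_prg hg0))

theorem val_ders (V : List ℕ) (g : Rb) (hV : ∀ j ∈ V, j < g.length) :
    val (ders V g) = V.foldr (fun j f => pderiv j f) (val g) := by
  induction V with
  | nil => rfl
  | cons j V ih =>
    have h : ders (j :: V) g = modL j derL (ders V g) := rfl
    have h1 : j < (ders V g).length := by
      rw [length_ders]
      exact hV j (List.mem_cons_self ..)
    rw [h, val_modL_derL j _ h1, ih fun i hi => hV i (List.mem_cons_of_mem _ hi),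
      List.foldr_cons]

private theorem ders_append (V W : List ℕ) (g : Rb) : ders (V ++ W) g = ders V (ders W g) := by
  unfold ders
  rw [List.foldr_append]

private theorem ders_replicate (m : ℕ) {n : ℕ} {g : Rb} (h : g.length ≤ n) :
    ders (List.replicate m n) g = g := by
  induction m with
  | zero => rfl
  | succ m ih =>
    have h1 : ders (List.replicate (m + 1) n) g = modL n derL (ders (List.replicate m n) g) := rfl
    rw [h1, ih, modL_of_le n derL g h]

theorem ders_mem {k Δ : ℕ} {Ps : List Rb} {g : Rb} (h : g ∈ As k 0 Ps) (V : List ℕ)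
    (hV : ∀ j ∈ V, j < (nL Ps).length) (hl : V.length ≤ Δ) : ders V g ∈ As k Δ Ps := by
  have hlen := length_As h
  obtain ⟨g0, hg0, r, hr1, hr2, V0, hV0, _, hg⟩ := mem_As.1 h
  have hV1 : V0 = [] := List.eq_nil_of_length_eq_zero hV0
  subst hV1
  have hg' : g = cfs r g0 := hg
  refine mem_As.2 ⟨g0, hg0, r, hr1, hr2, V ++ List.replicate (Δ - V.length) (nL Ps).length,
    ?_, ?_, ?_⟩
  · rw [List.length_append, List.length_replicate]
    omega
  · intro j hj
    rw [List.mem_append] at hj
    rcases hj with hj | hj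
    · exact (hV j hj).le
    · exact (List.eq_of_mem_replicate hj).le
  · rw [ders_append, ← hg', ders_replicate _ hlen.le]

private theorem cfs_replicate (k : ℕ) {n : ℕ} : ∀ {g : Rb}, g.length ≤ n →
    cfs (List.replicate k (n, 0)) g = g := by
  induction k with
  | zero => intro g _; rfl
  | succ k ih =>
    intro g h
    have h1 : cfs (List.replicate (k + 1) (n, 0)) g =
      cfs (List.replicate k (n, 0)) (modL n (cfL 0) g) := rfl
    rw [h1, modL_of_le n _ g h, ih h]

private theorem rowMul_zero' {R : Type*} [CommRing R] (x : R) (s : List R) :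
    rowMul x [[0]] s = 0 := by
  cases s with
  | nil => exact rowMul_nil_right x _
  | cons a s =>
    rw [rowMul_cons, rowMul_nil_left]
    simp [entry]

private theorem run_zerR (m : ℕ) : ∀ (i : ℕ) (s : List (MvPolynomial ℕ ℚ)),
    run X (List.replicate (m + 1) [[[0]]] : Rb) i s = [0] := by
  induction m with
  | zero =>
    intro i s
    rw [List.replicate_succ, List.replicate_zero, run, run, List.map_cons, List.map_nil,
      rowMul_zero']
  | succ m ih =>
    intro i s
    rw [List.replicate_succ, run]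
    exact ih _ _

private theorem val_zerR (n : List Bool) (hn : 0 < n.length) : val (zerR n) = 0 := by
  obtain ⟨m, hm⟩ : ∃ m, n.length = m + 1 := ⟨n.length - 1, by omega⟩
  have h : zerR n = List.replicate (m + 1) [[[0]]] := by
    unfold zerR
    rw [List.map_const', List.length_range, hm]
  unfold val out
  rw [h, run_zerR]
  rfl

theorem zero_mem (k : ℕ) (Ps : List Rb) : ∃ G ∈ As k 0 Ps, val G = 0 := by
  have hz : zerR (nL Ps) ∈ prg Ps := by
    rw [prg, List.mem_append, List.mem_append]
    exact Or.inr (Or.inr (List.mem_singleton.2 rfl))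
  refine ⟨zerR (nL Ps), mem_As.2 ⟨zerR (nL Ps), hz, List.replicate k ((nL Ps).length, 0),
    List.length_replicate, ?_, [], rfl, by simp, ?_⟩, ?_⟩
  · intro p hp
    rw [List.eq_of_mem_replicate hp, prs]
    exact List.mem_cons_self ..
  · rw [cfs_replicate k (length_prg hz).le]
    rfl
  · exact val_zerR _ (by simp [nL])

private theorem entry_JJ {k Δ T : ℕ} {Ps : List Rb} {μ : Mn} (h : μ ∈ mns k Δ Ps T)
    (a b : Fin μ.2.length) : ∃ g : Rb, CL (DL Ps).length g ∧ g.length = (nL Ps).length ∧
      pderiv (μ.2.getD b 0) (val (μ.1.getD a [])) = val g := by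
  obtain ⟨h1, h2, h3, h4⟩ := mem_mns.1 h
  have ha : (a : ℕ) < μ.1.length := by rw [h1]; exact a.2
  have hb : (b : ℕ) < μ.2.length := b.2
  have hA : μ.1.getD a [] ∈ As k Δ Ps := by
    rw [List.getD_eq_getElem _ _ ha]
    exact h3 _ (List.getElem_mem _)
  have hj : μ.2.getD b 0 < (nL Ps).length := by
    rw [List.getD_eq_getElem _ _ hb]
    exact h4 _ (List.getElem_mem _)
  have hl := length_As hA
  refine ⟨modL (μ.2.getD b 0) derL (μ.1.getD a []), CL_modL_derL _ (CL_As hA), ?_, ?_⟩
  · rw [length_modL, hl]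
  · rw [val_modL_derL _ _ (by rw [hl]; exact hj)]

theorem degreeOf_JJ {k Δ T : ℕ} {Ps : List Rb} {μ : Mn} (h : μ ∈ mns k Δ Ps T) (i : ℕ) :
    (JJ μ.2.length μ.1 μ.2).degreeOf i ≤ T * (DL Ps).length := by
  unfold JJ
  rw [Matrix.det_apply]
  refine (degreeOf_sum_le _ _ _).trans (Finset.sup_le fun σ _ => ?_)
  have h1 : degreeOf i (∏ b : Fin μ.2.length, (Matrix.of fun a b : Fin μ.2.length =>
      pderiv (μ.2.getD b 0) (val (μ.1.getD a []))) (σ b) b) ≤ T * (DL Ps).length := by
    refine (degreeOf_prod_le _ _ _).trans ((Finset.sum_le_card_nsmul _ _ (DL Ps).length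
      fun b _ => ?_).trans ?_)
    · rw [Matrix.of_apply]
      obtain ⟨g, hg, -, he⟩ := entry_JJ h (σ b) b
      rw [he]
      exact degreeOf_val i _ g hg
    · rw [Finset.card_univ, Fintype.card_fin, smul_eq_mul]
      exact Nat.mul_le_mul_right _ (mem_mns.1 h).2.1
  rcases Int.units_eq_one_or (Equiv.Perm.sign σ) with hs | hs
  · rw [hs, one_smul]
    exact h1
  · rw [hs, Units.neg_smul, one_smul, degreeOf_neg]
    exact h1

theorem vars_JJ {k Δ T : ℕ} {Ps : List Rb} {μ : Mn} (h : μ ∈ mns k Δ Ps T) :
    (JJ μ.2.length μ.1 μ.2).vars ⊆ Finset.range (nL Ps).length := by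
  have hm : JJ μ.2.length μ.1 μ.2 ∈ supported ℚ {a : ℕ | a < (nL Ps).length} := by
    unfold JJ
    rw [Matrix.det_apply]
    refine Subalgebra.sum_mem _ fun σ _ => ?_
    have h1 : (∏ b : Fin μ.2.length, (Matrix.of fun a b : Fin μ.2.length =>
        pderiv (μ.2.getD b 0) (val (μ.1.getD a []))) (σ b) b) ∈
          supported ℚ {a : ℕ | a < (nL Ps).length} := by
      refine Subalgebra.prod_mem _ fun b _ => ?_
      rw [Matrix.of_apply]
      obtain ⟨g, -, hg, he⟩ := entry_JJ h (σ b) b
      rw [he, mem_supported]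
      intro x hx
      have := vars_val g (Finset.mem_coe.1 hx)
      rw [Finset.mem_range, hg] at this
      exact this
    rcases Int.units_eq_one_or (Equiv.Perm.sign σ) with hs | hs
    · rw [hs, one_smul]
      exact h1
    · rw [hs, Units.neg_smul, one_smul]
      exact Subalgebra.neg_mem _ h1
  rw [mem_supported] at hm
  intro a ha
  rw [Finset.mem_range]
  exact hm (Finset.mem_coe.2 ha)

end Pool.Agent.RP
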