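import Pool.Agent.RP.VDefs

set_option autoImplicit false

/-!
RP-Hz. Integer arithmetic in polynomial time.

Plan: `toZ`: `FP.toNatPair` of `Helper47/TR/AP.lean`. `hz`: the foldr is a foldl over the reversed list (reverse in
polynomial time: a foldl with `FP.foldl`, or `loopList` building by `cons`), the size of the value grows
additively: `zn (hz c x) ≤ (∑ zn (toZ a)) * (zn x + 1) ^ length`; see `fp_zSum` in `PQ/Zip.lean` and `mulE_bt`/`fp_mulE` in
`Helper6/SP/FQ.lean` for the pattern. `zProd`: the same with `zMul`.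
-/

namespace Pool.Agent.RP

open MvPolynomial N487b59b3 N68a2faeb Pool.Agent.Helper22 Pool.Agent.Helper6.WB
  Pool.Agent.Helper6.SP Pool.Agent.PQ

variable {α : Type} [N487b59b3 α]

theorem zq_toZ (a : ℤ) : zq (toZ a) = a := by
  unfold zq toZ
  have h := Int.toNat_sub_toNat_neg a
  have h2 : (((a.toNat : ℤ) - ((-a).toNat : ℤ) : ℤ) : ℚ) = (a : ℚ) := by rw [h]
  push_cast at h2
  exact h2

theorem zq_hz (c : List ℤ) (x : ZZ) : zq (hz c x) = entry c (zq x) := by
  induction c with
  | nil => simp [hz, entry, zq]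
  | cons a c ih =>
    have h1 : hz (a :: c) x = zAdd (toZ a) (zMul x (hz c x)) := rfl
    rw [h1, zq_add, zq_mul, ih, zq_toZ]
    unfold entry
    rw [List.length_cons, Finset.sum_range_succ', Finset.mul_sum]
    simp only [List.getD_cons_succ, List.getD_cons_zero, pow_zero, mul_one]
    rw [add_comm]
    refine congrArg₂ (· + ·) (Finset.sum_congr rfl fun e _ => ?_) rfl
    ring

private theorem hz_foldq (l : List ZZ) (z : ZZ) :
    zq (l.foldl zMul z) = zq z * (l.map zq).prod := by
  induction l generalizing z with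
  | nil => simp
  | cons a l ih =>
    rw [List.foldl_cons, ih, zq_mul, List.map_cons, List.prod_cons]
    ring

theorem zq_zProd (l : List ZZ) : zq (zProd l) = (l.map zq).prod := by
  unfold zProd
  rw [hz_foldq]
  simp [zq]

theorem fp_toZ {f : α → ℤ} (hf : FP f) : FP fun a => toZ (f a) :=
  FP.recode hf (fun _ => rfl)

/-! ## Sizes -/

private def mz (a : ZZ) : ℕ := Nat.size (zn a + 1)

private theorem hz_size_mul (a b : ℕ) : Nat.size (a * b) ≤ Nat.size a + Nat.size b := by
  rw [Nat.size_le, pow_add]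
  exact Nat.mul_lt_mul'' (Nat.lt_size_self a) (Nat.lt_size_self b)

private theorem mz_mul (a b : ZZ) : mz (zMul a b) ≤ mz a + mz b := by
  unfold mz
  rw [zn_mul]
  refine le_trans (Nat.size_le_size ?_) (hz_size_mul (zn a + 1) (zn b + 1))
  nlinarith [Nat.zero_le (zn a), Nat.zero_le (zn b)]

private theorem mz_add (a b : ZZ) : mz (zAdd a b) ≤ mz a + mz b := by
  unfold mz
  rw [zn_add]
  refine le_trans (Nat.size_le_size ?_) (hz_size_mul (zn a + 1) (zn b + 1))
  nlinarith [Nat.zero_le (zn a * zn b)]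

private theorem hz_sz (a : ZZ) : sz a = 2 * a.1.size + 1 + a.2.size := by
  rw [← sz_nat, ← sz_nat]
  exact sz_pair a.1 a.2

private theorem mz_le (a : ZZ) : mz a ≤ sz a := by
  have h1 : mz a ≤ a.1.size + a.2.size + 1 := by
    unfold mz zn
    rw [Nat.size_le, pow_succ, pow_add]
    have h1 := Nat.lt_size_self a.1
    have h2 := Nat.lt_size_self a.2
    have h3 : (a.1 + 1) * (a.2 + 1) ≤ 2 ^ a.1.size * 2 ^ a.2.size := Nat.mul_le_mul h1 h2
    nlinarith [Nat.zero_le (a.1 * a.2)]
  rw [hz_sz]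
  omega

private theorem le_mz (a : ZZ) : sz a ≤ 3 * mz a + 1 := by
  have h1 : a.1.size ≤ mz a := Nat.size_le_size (by unfold zn; omega)
  have h2 : a.2.size ≤ mz a := Nat.size_le_size (by unfold zn; omega)
  rw [hz_sz]
  omega

private theorem mz_foldMul (l : List ZZ) (z : ZZ) : mz (l.foldl zMul z) ≤ mz z + sz l := by
  induction l generalizing z with
  | nil => simp
  | cons a l ih =>
    rw [List.foldl_cons]
    have h1 := ih (zMul z a)
    have h2 := mz_mul z a
    have h3 := mz_le a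
    rw [sz_cons]
    omega

private def hzs (s : ZZ × ZZ) (a : ℤ) : ZZ × ZZ := (s.1, zAdd (toZ a) (zMul s.1 s.2))

private theorem hzs_foldl (l : List ℤ) (s : ZZ × ZZ) :
    (l.foldl hzs s).1 = s.1 ∧ mz (l.foldl hzs s).2 ≤ mz s.2 + sz l * (mz s.1 + 1) := by
  induction l generalizing s with
  | nil => simp
  | cons a l ih =>
    rw [List.foldl_cons]
    obtain ⟨h1, h2⟩ := ih (hzs s a)
    have e : (hzs s a).1 = s.1 := rfl
    rw [e] at h1 h2
    refine ⟨h1, ?_⟩
    have h3 : mz (hzs s a).2 ≤ mz (toZ a) + mz (zMul s.1 s.2) := mz_add _ _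
    have h4 := mz_mul s.1 s.2
    have h5 : mz (toZ a) ≤ sz a := mz_le (toZ a)
    rw [sz_cons]
    have h6 : (2 * sz a + 1 + sz l) * (mz s.1 + 1) =
        2 * (sz a * mz s.1) + 2 * sz a + mz s.1 + 1 + sz l * (mz s.1 + 1) := by ring
    have h7 := Nat.zero_le (sz a * mz s.1)
    omega

private theorem fp_hzs : FP fun p : List ℤ × (ZZ × ZZ) => p.1.foldl hzs p.2 := by
  refine FP.foldl (g := hzs) ?_ (B := fun n => 2 * n + 1 + (3 * (n + n * (n + 1)) + 1))
    (by fun_prop) ?_
  · unfold hzs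
    exact FP.pair (FP.fst.comp FP.fst) (fp_zAdd (fp_toZ FP.snd)
      (fp_zMul (FP.fst.comp FP.fst) (FP.snd.comp FP.fst)))
  · intro l s
    obtain ⟨h1, h2⟩ := hzs_foldl l s
    have h3 : sz (l.foldl hzs s) = 2 * sz (l.foldl hzs s).1 + 1 + sz (l.foldl hzs s).2 :=
      sz_pair (l.foldl hzs s).1 (l.foldl hzs s).2
    have h4 := le_mz (l.foldl hzs s).2
    have h5 : sz s = 2 * sz s.1 + 1 + sz s.2 := sz_pair s.1 s.2
    have h6 := mz_le s.1
    have h7 := mz_le s.2
    rw [h1] at h3
    have h8 : sz l * (mz s.1 + 1) ≤ (sz l + sz s) * (sz l + sz s + 1) :=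
      Nat.mul_le_mul (by omega) (by omega)
    rw [h3]
    show _ ≤ 2 * (sz l + sz s) + 1 + (3 * ((sz l + sz s) + (sz l + sz s) * (sz l + sz s + 1)) + 1)
    omega

private theorem hzs_eq (l : List ℤ) (x : ZZ) :
    (l.reverse.foldl hzs (x, (0, 0))) = (x, hz l x) := by
  induction l with
  | nil => rfl
  | cons a l ih =>
    rw [List.reverse_cons, List.foldl_append, ih]
    rfl

theorem fp_hz {f : α → List ℤ} {g : α → ZZ} (hf : FP f) (hg : FP g) : FP fun a => hz (f a) (g a) := by
  have h1 : FP fun a => (f a).reverse.foldl hzs (g a, (0, 0)) :=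
    fp_hzs.comp ((FP.reverse hf).pair (hg.pair (FP.const ((0, 0) : ZZ))))
  refine (congrArg FP (funext fun a => ?_)).mp h1.snd'
  rw [hzs_eq]

theorem fp_zProd {f : α → List ZZ} (hf : FP f) : FP fun a => zProd (f a) := by
  have h1 : FP fun p : List ZZ × ZZ => p.1.foldl zMul p.2 := by
    refine FP.foldl (g := zMul) (fp_zMul FP.fst FP.snd) (B := fun n => 3 * n + 1) (by fun_prop) ?_
    intro l z
    have h2 := mz_foldMul l z
    have h3 := le_mz (l.foldl zMul z)
    have h4 := mz_le z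
    show _ ≤ 3 * (sz l + sz z) + 1
    omega
  exact h1.comp (hf.pair (FP.const ((1, 0) : ZZ)))

/-- the value of an integer -/
theorem fq_zq {f : α → ZZ} (hf : FP f) : FQ fun a => zq (f a) := by
  refine ⟨fun a => (f a, 1), FP.pair hf (FP.const 1), fun _ => one_ne_zero, fun a => ?_⟩
  simp [toQ, zq]

theorem fp_zz {f : α → List ZZ} (hf : FP f) : FP fun a => zz (f a) := by
  unfold zz
  exact FP.map (f := fun _ : ZZ => ((0, 0) : ZZ)) (FP.const _) hf

theorem fp_isZero {f : α → ZZ} (hf : FP f) : FP fun a => decide (zq (f a) = 0) :=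
  (fq_zq hf).eqZero

end Pool.Agent.RP
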