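import Pool.Agent.RP.Dsc
import Pool.Agent.RP.Hz

set_option autoImplicit false

/-!
RP-Ev. Evaluation of a program at an integer point.

Plan: `zq_valZ`: induction on the program for the foldl with an arbitrary start vector (and start index of `run`): the
values of the vector are those of the run; `(g.zip x)` has all layers since `g.length ≤ x.length`. `fp_valZ`: `FP.foldl` along
`g.zip x` (`fp_zip`); step by `fp_map`, `fp_zip`, `fp_hz`, `fp_zMul`, `fp_zSum`; size: the sum of `zn` over the state is
multiplied in every step by at most (the sum over the layer of `zn (hz ..)`), whose bit size is bounded by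
(size of the layer) * (size of the coordinate + 1) up to constants; the number of entries of the state is the number of rows of the
layer.
-/

namespace Pool.Agent.RP

open MvPolynomial N487b59b3 N68a2faeb Pool.Agent.Helper22 Pool.Agent.Helper6.WB
  Pool.Agent.Helper6.SP Pool.Agent.PQ

variable {α : Type} [N487b59b3 α]

/-- the value of a program at a point -/
def valZ (g : Rb) (x : List ZZ) : ZZ :=
  ((g.zip x).foldl (fun s q => q.1.map fun row =>
    zSum ((row.zip s).map fun p => zMul (hz p.1 q.2) p.2)) [(1, 0)]).headD (0, 0)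

/-- one layer -/
private def stp (s : List ZZ) (q : Lay × ZZ) : List ZZ :=
  q.1.map fun row => zSum ((row.zip s).map fun p => zMul (hz p.1 q.2) p.2)

private theorem valZ_eq (g : Rb) (x : List ZZ) :
    valZ g x = ((g.zip x).foldl stp [(1, 0)]).headD (0, 0) := rfl

private theorem zq_row (row : List (List ℤ)) (s : List ZZ) (a : ZZ) :
    zq (zSum ((row.zip s).map fun p => zMul (hz p.1 a) p.2)) = rowMul (zq a) row (s.map zq) := by
  unfold rowMul
  rw [zq_sum, List.map_map, List.zip_map_right, List.map_map]
  congr 1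
  apply List.map_congr_left
  intro p _
  simp only [Function.comp_apply, zq_mul, zq_hz, Prod.map_fst, Prod.map_snd, id_eq]

private theorem zq_stp (L : Lay) (s : List ZZ) (a : ZZ) :
    (stp s (L, a)).map zq = L.map fun row => rowMul (zq a) row (s.map zq) := by
  unfold stp
  rw [List.map_map]
  apply List.map_congr_left
  intro row _
  exact zq_row row s a

private theorem zq_fold (g : Rb) : ∀ (x : List ZZ) (y : ℕ → ℚ) (i : ℕ) (s : List ZZ),
    g.length ≤ x.length → (∀ j < g.length, y (i + j) = zq (x.getD j (0, 0))) →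
    ((g.zip x).foldl stp s).map zq = run y g i (s.map zq) := by
  induction g with
  | nil =>
    intro x y i s _ _
    rfl
  | cons L g ih =>
    intro x y i s hlen hy
    cases x with
    | nil => simp at hlen
    | cons a x =>
      have h0 : y i = zq a := by
        have := hy 0 (by simp)
        simpa using this
      rw [List.zip_cons_cons, List.foldl_cons]
      show _ = run y g (i + 1) (L.map fun row => rowMul (y i) row (s.map zq))
      rw [h0, ← zq_stp L s a]
      apply ih x y (i + 1) (stp s (L, a)) (by simpa using hlen)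
      intro j hj
      have := hy (j + 1) (by simpa using hj)
      rw [show i + 1 + j = i + (j + 1) by omega, this]
      simp

private theorem zq_headD (l : List ZZ) : zq (l.headD (0, 0)) = (l.map zq).headD 0 := by
  cases l with
  | nil => simp [zq]
  | cons a l => simp

theorem zq_valZ (g : Rb) (x : List ZZ) (h : g.length ≤ x.length) :
    zq (valZ g x) = out (fun i => zq (x.getD i (0, 0))) g := by
  have h1 := zq_fold g x (fun i => zq (x.getD i (0, 0))) 0 [(1, 0)] h
    (fun j _ => by simp)
  have h2 : ([(1, 0)] : List ZZ).map zq = [1] := by simp [zq]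
  rw [valZ_eq, zq_headD, h1, h2]
  rfl

/-! ## sizes -/

private theorem sz_zz (z : ZZ) : sz z = 2 * z.1.size + 1 + z.2.size := by
  rw [← sz_nat, ← sz_nat]
  exact sz_pair z.1 z.2

private theorem pow_add_le' (a b u v : ℕ) (ha : a + 1 ≤ 2 ^ u) (hb : b + 1 ≤ 2 ^ v) :
    a + b + 1 ≤ 2 ^ (u + v) := by
  rw [pow_add]
  have h1 := Nat.mul_le_mul ha hb
  nlinarith

private theorem zn_lt (z : ZZ) : zn z + 1 ≤ 2 ^ sz z := by
  have h1 : z.1 + 1 ≤ 2 ^ z.1.size := Nat.lt_size_self z.1
  have h2 : z.2 + 1 ≤ 2 ^ z.2.size := Nat.lt_size_self z.2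
  have h3 := pow_add_le' _ _ _ _ h1 h2
  refine le_trans h3 (Nat.pow_le_pow_right (by norm_num) ?_)
  rw [sz_zz]
  omega

private theorem zn_toZ (a : ℤ) : zn (toZ a) + 1 ≤ 2 ^ sz a := zn_lt (toZ a)

private theorem zn_hz (c : List ℤ) (x : ZZ) : zn (hz c x) + 1 ≤ 2 ^ (c.length * sz x + sz c) := by
  induction c with
  | nil => simp [hz, zn]
  | cons a c ih =>
    have e : hz (a :: c) x = zAdd (toZ a) (zMul x (hz c x)) := rfl
    rw [e, zn_add, zn_mul, sz_cons, List.length_cons]
    have h1 := zn_toZ a
    have h2 := zn_lt x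
    have h3 : zn x * zn (hz c x) + 1 ≤ 2 ^ (sz x + (c.length * sz x + sz c)) := by
      rw [pow_add]
      have h4 := Nat.mul_le_mul h2 ih
      nlinarith
    have h5 := pow_add_le' _ _ _ _ h1 h3
    refine le_trans h5 (Nat.pow_le_pow_right (by norm_num) ?_)
    have h6 : (c.length + 1) * sz x = c.length * sz x + sz x := by ring
    omega

private theorem zn_hz' (c : List ℤ) (x : ZZ) : zn (hz c x) + 1 ≤ 2 ^ (sz c * (sz x + 1)) := by
  refine le_trans (zn_hz c x) (Nat.pow_le_pow_right (by norm_num) ?_)
  have h1 : c.length * sz x ≤ sz c * sz x := Nat.mul_le_mul_right _ (length_le_sz c)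
  have h2 : sz c * (sz x + 1) = sz c * sz x + sz c := by ring
  omega

private def hsum (r : List (List ℤ)) (x : ZZ) : ℕ := (r.map fun c => zn (hz c x)).sum

private theorem hsum_le (r : List (List ℤ)) (x : ZZ) : hsum r x + 1 ≤ 2 ^ (sz r * (sz x + 1)) := by
  induction r with
  | nil => simp [hsum]
  | cons c r ih =>
    have e : hsum (c :: r) x = zn (hz c x) + hsum r x := by simp [hsum]
    rw [e, sz_cons]
    have h5 := pow_add_le' _ _ _ _ (zn_hz' c x) ih
    refine le_trans h5 (Nat.pow_le_pow_right (by norm_num) ?_)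
    nlinarith

private def lsum (L : Lay) (x : ZZ) : ℕ := (L.map fun r => hsum r x).sum

private theorem lsum_le (L : Lay) (x : ZZ) : lsum L x + 1 ≤ 2 ^ (sz L * (sz x + 1)) := by
  induction L with
  | nil => simp [lsum]
  | cons r L ih =>
    have e : lsum (r :: L) x = hsum r x + lsum L x := by simp [lsum]
    rw [e, sz_cons]
    have h5 := pow_add_le' _ _ _ _ (hsum_le r x) ih
    refine le_trans h5 (Nat.pow_le_pow_right (by norm_num) ?_)
    nlinarith

/-- total size of a vector -/
private def tn (s : List ZZ) : ℕ := (s.map zn).sum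

private theorem row_le (r : List (List ℤ)) (s : List ZZ) (x : ZZ) :
    zn (zSum ((r.zip s).map fun p => zMul (hz p.1 x) p.2)) ≤ hsum r x * tn s := by
  rw [zn_sum, List.map_map]
  induction r generalizing s with
  | nil => simp
  | cons c r ih =>
    cases s with
    | nil => simp
    | cons z s =>
      have e1 : hsum (c :: r) x = zn (hz c x) + hsum r x := by simp [hsum]
      have e2 : tn (z :: s) = zn z + tn s := by simp [tn]
      rw [List.zip_cons_cons, List.map_cons, List.sum_cons, e1, e2]
      have h1 := ih s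
      have h2 : (zn (hz c x) + hsum r x) * (zn z + tn s) =
        zn (hz c x) * zn z + zn (hz c x) * tn s + hsum r x * zn z + hsum r x * tn s := by ring
      rw [h2]
      simp only [Function.comp_apply, zn_mul] at h1 ⊢
      omega

private theorem tn_stp (s : List ZZ) (L : Lay) (x : ZZ) : tn (stp s (L, x)) ≤ lsum L x * tn s := by
  induction L with
  | nil => simp [stp, tn]
  | cons r L ih =>
    have e1 : tn (stp s (r :: L, x)) =
        zn (zSum ((r.zip s).map fun p => zMul (hz p.1 x) p.2)) + tn (stp s (L, x)) := by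
      simp [stp, tn]
    have e2 : lsum (r :: L) x = hsum r x + lsum L x := by simp [lsum]
    rw [e1, e2, add_mul]
    exact Nat.add_le_add (row_le r s x) ih

private theorem tn_fold (l : List (Lay × ZZ)) (s : List ZZ) :
    tn (l.foldl stp s) ≤ 2 ^ (sz l ^ 2) * tn s := by
  induction l generalizing s with
  | nil => simp
  | cons q l ih =>
    obtain ⟨L, x⟩ := q
    rw [List.foldl_cons]
    refine (ih (stp s (L, x))).trans ?_
    have h1 := tn_stp s L x
    have h2 : lsum L x ≤ 2 ^ (sz L * (sz x + 1)) := by have := lsum_le L x; omega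
    calc 2 ^ (sz l ^ 2) * tn (stp s (L, x)) ≤ 2 ^ (sz l ^ 2) * (2 ^ (sz L * (sz x + 1)) * tn s) :=
          Nat.mul_le_mul_left _ (h1.trans (Nat.mul_le_mul_right _ h2))
      _ = 2 ^ (sz l ^ 2 + sz L * (sz x + 1)) * tn s := by rw [pow_add]; ring
      _ ≤ 2 ^ (sz ((L, x) :: l) ^ 2) * tn s := by
          apply Nat.mul_le_mul_right
          apply Nat.pow_le_pow_right (by norm_num)
          have e1 : sz ((L, x) :: l) = 2 * sz (L, x) + 1 + sz l := sz_cons _ _
          have e2 : sz (L, x) = 2 * sz L + 1 + sz x := sz_pair L x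
          rw [e1, e2]
          nlinarith

private theorem length_fold (l : List (Lay × ZZ)) (s : List ZZ) :
    (l.foldl stp s).length ≤ sz l + sz s := by
  induction l generalizing s with
  | nil =>
    have := length_le_sz s
    simp only [List.foldl_nil]
    omega
  | cons q l ih =>
    obtain ⟨L, x⟩ := q
    rw [List.foldl_cons]
    rcases l with _ | ⟨q, l⟩
    · have h1 : (stp s (L, x)).length = L.length := by simp [stp]
      have h2 := length_le_sz L
      have e1 : sz ([(L, x)] : List (Lay × ZZ)) = 2 * sz (L, x) + 1 + sz ([] : List (Lay × ZZ)) :=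
        sz_cons _ _
      have e2 : sz (L, x) = 2 * sz L + 1 + sz x := sz_pair L x
      rw [List.foldl_nil, h1, e1, e2]
      omega
    · -- the length does not depend on the start vector
      have key : ∀ (l : List (Lay × ZZ)) (q : Lay × ZZ) (s s' : List ZZ),
          ((q :: l).foldl stp s).length = ((q :: l).foldl stp s').length := by
        intro l
        induction l with
        | nil =>
          intro q s s'
          simp [stp]
        | cons q' l ih2 =>
          intro q s s'
          rw [List.foldl_cons, List.foldl_cons (l := q' :: l)]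
          exact ih2 q' _ _
      rw [key l q (stp s (L, x)) s]
      have h3 := ih s
      rw [sz_cons]
      omega

private theorem tn_lt (s : List ZZ) : tn s + 1 ≤ 2 ^ sz s := by
  induction s with
  | nil => simp [tn]
  | cons z s ih =>
    have e : tn (z :: s) = zn z + tn s := by simp [tn]
    rw [e, sz_cons]
    have h5 := pow_add_le' _ _ _ _ (zn_lt z) ih
    exact le_trans h5 (Nat.pow_le_pow_right (by norm_num) (by omega))

private theorem zn_mem {z : ZZ} {s : List ZZ} (h : z ∈ s) : zn z ≤ tn s :=
  List.single_le_sum (by simp) _ (List.mem_map_of_mem h)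

private theorem sz_fold (l : List (Lay × ZZ)) (s : List ZZ) :
    sz (l.foldl stp s) ≤
      (sz l + sz s) * (2 * (3 * ((sz l + sz s) * (sz l + sz s) + (sz l + sz s)) + 1) + 1) := by
  have h1 : ∀ z ∈ l.foldl stp s,
      sz z ≤ 3 * ((sz l + sz s) * (sz l + sz s) + (sz l + sz s)) + 1 := by
    intro z hz
    have h2 : zn z < 2 ^ (sz l ^ 2 + sz s) := by
      calc zn z ≤ tn (l.foldl stp s) := zn_mem hz
        _ ≤ 2 ^ (sz l ^ 2) * tn s := tn_fold l s
        _ < 2 ^ (sz l ^ 2) * 2 ^ sz s := by
            apply Nat.mul_lt_mul_of_pos_left _ (by positivity)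
            exact tn_lt s
        _ = 2 ^ (sz l ^ 2 + sz s) := by rw [pow_add]
    have h3 : z.1.size ≤ sz l ^ 2 + sz s := by
      rw [Nat.size_le]
      exact lt_of_le_of_lt (by unfold zn; omega) h2
    have h4 : z.2.size ≤ sz l ^ 2 + sz s := by
      rw [Nat.size_le]
      exact lt_of_le_of_lt (by unfold zn; omega) h2
    rw [sz_zz]
    have h5 : sz l ^ 2 ≤ (sz l + sz s) * (sz l + sz s) := by
      rw [sq]
      exact Nat.mul_le_mul (by omega) (by omega)
    omega
  have h2 := sz_map_le (fun z : ZZ => z) (l.foldl stp s) _ h1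
  rw [List.map_id'] at h2
  refine h2.trans ?_
  exact Nat.mul_le_mul_right _ (length_fold l s)

private def ent1 (r : ((List ZZ × (Lay × ZZ)) × List (List ℤ)) × (List ℤ × ZZ)) : ZZ :=
  zMul (hz r.2.1 r.1.1.2.2) r.2.2

private theorem fp_ent1 : FP ent1 := by
  have a1 : FP fun r : ((List ZZ × (Lay × ZZ)) × List (List ℤ)) × (List ℤ × ZZ) => r.2.1 :=
    FP.fst.comp FP.snd
  have a2 : FP fun r : ((List ZZ × (Lay × ZZ)) × List (List ℤ)) × (List ℤ × ZZ) => r.2.2 :=
    FP.snd.comp FP.snd
  have a3 : FP fun r : ((List ZZ × (Lay × ZZ)) × List (List ℤ)) × (List ℤ × ZZ) => r.1.1.2.2 :=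
    FP.snd.comp (FP.snd.comp (FP.fst.comp FP.fst))
  exact fp_zMul (fp_hz a1 a3) a2

private def row1 (q : (List ZZ × (Lay × ZZ)) × List (List ℤ)) : ZZ :=
  zSum ((q.2.zip q.1.1).map fun p => ent1 (q, p))

private theorem fp_row1 : FP row1 := by
  have a1 : FP fun q : (List ZZ × (Lay × ZZ)) × List (List ℤ) => q.2 := FP.snd
  have a2 : FP fun q : (List ZZ × (Lay × ZZ)) × List (List ℤ) => q.1.1 := FP.fst.comp FP.fst
  have a3 : FP fun q : (List ZZ × (Lay × ZZ)) × List (List ℤ) => q.2.zip q.1.1 := fp_zip a1 a2
  have a4 : FP fun q : (List ZZ × (Lay × ZZ)) × List (List ℤ) =>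
      (q.2.zip q.1.1).map fun p => ent1 (q, p) := fp_map a3 fp_ent1
  exact fp_zSum a4

private theorem stp_eq (p : List ZZ × (Lay × ZZ)) :
    stp p.1 p.2 = p.2.1.map fun row => row1 (p, row) := rfl

private theorem fp_stp : FP fun p : List ZZ × (Lay × ZZ) => stp p.1 p.2 := by
  have a1 : FP fun p : List ZZ × (Lay × ZZ) => p.2.1 := FP.fst.comp FP.snd
  have a2 : FP fun p : List ZZ × (Lay × ZZ) => p.2.1.map fun row => row1 (p, row) :=
    fp_map a1 fp_row1
  exact a2

theorem fp_valZ {g : α → Rb} {x : α → List ZZ} (hg : FP g) (hx : FP x) :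
    FP fun a => valZ (g a) (x a) := by
  have h1 : FP fun p : List (Lay × ZZ) × List ZZ => p.1.foldl stp p.2 :=
    FP.foldl (g := stp) fp_stp (B := fun n => n * (2 * (3 * (n * n + n) + 1) + 1)) (by fun_prop)
      sz_fold
  have h2 := h1.comp ((fp_zip hg hx).pair (FP.const ([(1, 0)] : List ZZ)))
  exact FP.headD h2 _

end Pool.Agent.RP
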