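import Pool.Agent.RP.RunB
import Pool.Agent.Helper6.SP.FQ

set_option autoImplicit false

/-!
RP-Exp. Expansion of a program in the powers of several variables.

Plan: induction on the list `js` with `out_expand` for the first variable (for the program `cfs r g` the hypotheses persist:
`length_cfs`, `CL_modL_cfL`); `lpow P (j + 1) = (lpow P j).flatMap fun m => P.map fun p => p :: m`; `cfs ((j, e) :: r) g = cfs r (modL j (cfL e) g)`.
Independence: `modL j (cfL e)` commutes with `modL j' (cfL e')` for `j ≠ j'`; or: `out_modL_cfL` after moving the factor for the variable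
to the last position; or directly: a layer all of whose entries are constants does not see its variable.
-/

namespace Pool.Agent.RP

open MvPolynomial Pool.Agent.Helper6.SP

variable {R : Type*} [CommRing R]

private theorem sum_range_list {M : Type*} [AddCommMonoid M] (D : ℕ) (f : ℕ → M) :
    ((List.range D).map f).sum = ∑ i ∈ Finset.range D, f i := by
  induction D with
  | zero => simp
  | succ D ih =>
    rw [List.range_succ, List.map_append, List.sum_append, ih, Finset.sum_range_succ]
    simp

private theorem sum_swap {β M : Type*} [AddCommMonoid M] (s : Finset ℕ) (l : List β)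
    (f : ℕ → β → M) :
    ∑ e ∈ s, (l.map (f e)).sum = (l.map fun m => ∑ e ∈ s, f e m).sum := by
  induction l with
  | nil => simp
  | cons b l ih => simp [Finset.sum_add_distrib, ih]

private theorem sum_flatMap {β γ M : Type*} [AddCommMonoid M] (l : List β) (g : β → List γ)
    (f : γ → M) :
    ((l.flatMap g).map f).sum = (l.map fun m => ((g m).map f).sum).sum := by
  induction l with
  | nil => simp
  | cons b l ih => simp [List.flatMap_cons, ih]

theorem out_expand_list (x : ℕ → R) (js : List ℕ) (D : ℕ) (hD : 0 < D) (g : Rb)
    (hj : ∀ j ∈ js, j < g.length) (hnd : js.Nodup) (hg : CL D g) :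
    out x g = ((lpow (List.range D) js.length).map fun e =>
      ((js.zip e).map fun p => x p.1 ^ p.2).prod * out x (cfs (js.zip e) g)).sum := by
  induction js generalizing g with
  | nil => simp [lpow, cfs]
  | cons j js ih =>
    have h1 : ∀ e, out x (modL j (cfL e) g) = _ := fun e =>
      ih (modL j (cfL e) g) (fun i hi => by
        rw [length_modL]; exact hj i (List.mem_cons_of_mem _ hi)) (List.nodup_cons.mp hnd).2
        (CL_modL_cfL hD j e hg)
    rw [out_expand x j D g (hj j List.mem_cons_self) hg, List.length_cons]
    simp only [h1]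
    rw [lpow, sum_flatMap]
    simp only [List.map_map, ← List.sum_map_mul_left]
    rw [sum_swap]
    congr 1
    refine List.map_congr_left fun m _ => ?_
    rw [sum_range_list]
    refine Finset.sum_congr rfl fun e _ => ?_
    simp [cfs, mul_assoc]

private def cst (L : Lay) : Prop := ∀ row ∈ L, ∀ c ∈ row, c.length ≤ 1

private def Cst (g : Rb) (k : ℕ) : Prop := ∀ L, g[k]? = some L → cst L

private theorem cst_cfL (e : ℕ) (L : Lay) : cst (cfL e L) := by
  intro row hrow c hc
  rw [cfL, List.mem_map] at hrow
  obtain ⟨row', _, rfl⟩ := hrow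
  rw [List.mem_map] at hc
  obtain ⟨c', _, rfl⟩ := hc
  simp

private theorem getElem?_modL (j : ℕ) (h : Lay → Lay) (g : Rb) (k : ℕ) :
    (modL j h g)[k]? = (g[k]?).map fun L => if k = j then h L else L := by
  rw [modL, List.getElem?_map, List.getElem?_zipIdx]
  cases g[k]? <;> simp

private theorem Cst_modL_self (e : ℕ) (g : Rb) (k : ℕ) : Cst (modL k (cfL e) g) k := by
  intro L hL
  rw [getElem?_modL, Option.map_eq_some_iff] at hL
  obtain ⟨L', _, rfl⟩ := hL
  rw [if_pos rfl]
  exact cst_cfL e L'

private theorem Cst_modL {g : Rb} {k : ℕ} (h : Cst g k) (j e : ℕ) : Cst (modL j (cfL e) g) k := by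
  intro L hL
  rw [getElem?_modL, Option.map_eq_some_iff] at hL
  obtain ⟨L', hL', rfl⟩ := hL
  split
  · exact cst_cfL e L'
  · exact h L' hL'

private theorem Cst_cfs {g : Rb} {k : ℕ} (h : Cst g k) (r : List (ℕ × ℕ)) : Cst (cfs r g) k := by
  induction r generalizing g with
  | nil => exact h
  | cons p r ih => exact ih (Cst_modL h p.1 p.2)

private theorem Cst_cfs_mem {k a : ℕ} (r : List (ℕ × ℕ)) (hr : (k, a) ∈ r) (g : Rb) :
    Cst (cfs r g) k := by
  induction r generalizing g with
  | nil => exact absurd hr List.not_mem_nil
  | cons p r ih =>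
    rcases List.mem_cons.mp hr with h | h
    · subst h
      exact Cst_cfs (Cst_modL_self a g k) r
    · exact ih h (modL p.1 (cfL p.2) g)

private theorem Cst_zip (js e : List ℕ) (he : e.length = js.length) (g : Rb) :
    ∀ j ∈ js, Cst (cfs (js.zip e) g) j := by
  intro j hj
  have h1 : (js.zip e).map Prod.fst = js := List.map_fst_zip he.ge
  rw [← h1, List.mem_map] at hj
  obtain ⟨⟨j', a⟩, hp, rfl⟩ := hj
  exact Cst_cfs_mem _ hp g

private theorem run_cst {x y : ℕ → R} (g : Rb) (i : ℕ) (s : List R)
    (h : ∀ k L, g[k]? = some L → x (i + k) = y (i + k) ∨ cst L) :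
    run x g i s = run y g i s := by
  induction g generalizing i s with
  | nil => rfl
  | cons L g ih =>
    rw [run, run]
    have h1 : (L.map fun row => rowMul (x i) row s) = L.map fun row => rowMul (y i) row s := by
      rcases h 0 L rfl with h0 | h0
      · rw [Nat.add_zero] at h0
        rw [h0]
      · refine List.map_congr_left fun row hrow => ?_
        rw [rowMul, rowMul]
        congr 1
        refine List.map_congr_left fun p hp => ?_
        have h2 : p.1.length ≤ 1 := h0 row hrow p.1 (List.of_mem_zip hp).1
        congr 1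
        rw [entry, entry]
        refine Finset.sum_congr rfl fun e he => ?_
        have h3 : e = 0 := by
          have := Finset.mem_range.mp he
          omega
        rw [h3, pow_zero, pow_zero]
    rw [h1]
    refine ih (i + 1) _ fun k L' hL' => ?_
    have h2 := h (k + 1) L' (by rw [List.getElem?_cons_succ]; exact hL')
    rwa [show i + 1 + k = i + (k + 1) by ring]

private theorem out_cst {x y : ℕ → R} (g : Rb) (h : ∀ k, x k = y k ∨ Cst g k) :
    out x g = out y g := by
  rw [out, out, run_cst g 0 [1] fun k L hL => ?_]
  rw [Nat.zero_add]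
  exact (h k).imp id fun h1 => h1 L hL

/-- the coefficients do not depend on the variables -/
theorem out_cfs_congr {x y : ℕ → R} (js e : List ℕ) (he : e.length = js.length) (g : Rb)
    (h : ∀ i, i ∉ js → x i = y i) : out x (cfs (js.zip e) g) = out y (cfs (js.zip e) g) := by
  refine out_cst _ fun k => ?_
  by_cases hk : k ∈ js
  · exact Or.inr (Cst_zip js e he g k hk)
  · exact Or.inl (h k hk)

private theorem cfs_replicate (n m : ℕ) (g : Rb) (h : g.length ≤ n) :
    cfs (List.replicate m (n, 0)) g = g := by
  induction m with
  | zero => rfl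
  | succ m ih =>
    rw [List.replicate_succ]
    change cfs (List.replicate m (n, 0)) (modL n (cfL 0) g) = g
    rw [modL_of_le n _ g h, ih]

/-- a pair with a variable out of range changes nothing -/
theorem cfs_append_out (r : List (ℕ × ℕ)) (n m : ℕ) (g : Rb) (h : g.length ≤ n) :
    cfs (r ++ List.replicate m (n, 0)) g = cfs r g := by
  rw [cfs, List.foldl_append]
  exact cfs_replicate n m (cfs r g) (by rw [length_cfs]; exact h)

theorem vars_cfs (js e : List ℕ) (he : e.length = js.length) (g : Rb) :
    ∀ j ∈ js, j ∉ (val (cfs (js.zip e) g)).vars := by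
  intro j hj hmem
  set h := cfs (js.zip e) g with hh
  have h1 : val h = bind₁ (Function.update (X : ℕ → MvPolynomial ℕ ℚ) j 0) (val h) := by
    have h2 := out_hom (bind₁ (Function.update (X : ℕ → MvPolynomial ℕ ℚ) j 0)).toRingHom
      (X : ℕ → MvPolynomial ℕ ℚ) h
    have h3 : out (X : ℕ → MvPolynomial ℕ ℚ) h =
        out (fun i => (bind₁ (Function.update (X : ℕ → MvPolynomial ℕ ℚ) j 0)).toRingHom (X i))
          h := by
      refine out_cst h fun k => ?_
      by_cases hk : k = j
      · right
        rw [hk]
        exact Cst_zip js e he g j hj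
      · left
        simp [Function.update_of_ne hk]
    rw [← h2] at h3
    exact h3
  rw [h1] at hmem
  have h4 := vars_bind₁ (Function.update (X : ℕ → MvPolynomial ℕ ℚ) j 0) (val h) hmem
  rw [Finset.mem_biUnion] at h4
  obtain ⟨i, _, hi⟩ := h4
  by_cases hij : i = j
  · rw [hij, Function.update_self] at hi
    simp at hi
  · rw [Function.update_of_ne hij, vars_X, Finset.mem_singleton] at hi
    exact hij hi.symm

end Pool.Agent.RP
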