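import Pool.Agent.RP.Hz

set_option autoImplicit false

/-!
RP-VAdd. Sum of tabulated programs, multiples and constants.

Plan: `mv (qr (dsm z z' A B)) (s ++ s') = mv (qr A) s ++ mv (qr B) s'` if the rows of `A` have length `s.length = z.length` and those of
`B` length `s'.length = z'.length` (`qdot (r ++ r') (s ++ s') = qdot r s + qdot r' s'` for `r.length = s.length`; zeros give
`0`). Induction on the list of the layers with `List.Forall₂` for both programs. `vscl`: `mv` and `qdot` are linear in the vector.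
-/

namespace Pool.Agent.RP

open MvPolynomial N487b59b3 N68a2faeb Pool.Agent.Helper22 Pool.Agent.Helper6.WB
  Pool.Agent.Helper6.SP Pool.Agent.PQ

variable {α : Type} [N487b59b3 α]

private theorem va_qdot_append {r s r' s' : List ℚ} (h : r.length = s.length) :
    qdot (r ++ r') (s ++ s') = qdot r s + qdot r' s' := by
  unfold qdot
  rw [List.zip_append h, List.map_append, List.sum_append]

private theorem va_qdot_zero (l : List ZZ) (s : List ℚ) : qdot (qv (zz l)) s = 0 := by
  unfold qdot qv zz
  induction l generalizing s with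
  | nil => simp
  | cons a l ih =>
    cases s with
    | nil => simp
    | cons b s =>
      have h := ih s
      simp only [List.map_map] at h
      simp only [List.map_cons, List.zip_cons_cons, List.sum_cons, List.map_map, h]
      simp [zq]

private theorem va_qv_append (u v : List ZZ) : qv (u ++ v) = qv u ++ qv v := by
  unfold qv
  rw [List.map_append]

private theorem va_qv_len (u : List ZZ) : (qv u).length = u.length := by
  unfold qv
  rw [List.length_map]

private theorem va_zz_len (u : List ZZ) : (zz u).length = u.length := by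
  unfold zz
  rw [List.length_map]

private theorem va_mv (A B : Mt) {z z' : List ZZ} {s s' : List ℚ} {w w' : ℕ} (hs : s.length = w)
    (hz : z.length = w) (hA : ∀ r ∈ A, r.length = w) (hz' : z'.length = w')
    (hB : ∀ r ∈ B, r.length = w') (hs' : s'.length = w') :
    mv (qr (dsm (zz z) (zz z') A B)) (s ++ s') = mv (qr A) s ++ mv (qr B) s' := by
  unfold mv qr dsm
  rw [List.map_append, List.map_append, List.map_map, List.map_map, List.map_map, List.map_map,
    List.map_map, List.map_map]
  congr 1
  · apply List.map_congr_left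
    intro r hr
    have h1 : qdot (qv (r ++ zz z')) (s ++ s') = qdot (qv r) s := by
      rw [va_qv_append, va_qdot_append, va_qdot_zero, add_zero]
      rw [va_qv_len, hA r hr, hs]
    exact h1
  · apply List.map_congr_left
    intro r hr
    have h1 : qdot (qv (zz z ++ r)) (s ++ s') = qdot (qv r) s' := by
      rw [va_qv_append, va_qdot_append, va_qdot_zero, zero_add]
      rw [va_qv_len, va_zz_len, hz, hs]
    exact h1

private theorem va_mv_len (A : Mt) (s : List ℚ) : (mv (qr A) s).length = A.length := by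
  unfold mv qr
  rw [List.length_map, List.length_map]

private theorem va_getD {δ ε : Type} (L : List δ) (M : List ε) {j : ℕ} (h1 : j < L.length)
    (h2 : j < M.length) (F : δ × ε → Mt) (d : δ) (e : ε) :
    ((L.zip M).map F).getD j [] = F (L.getD j d, M.getD j e) := by
  have h3 : j < ((L.zip M).map F).length := by
    rw [List.length_map, List.length_zip]
    exact lt_min h1 h2
  rw [List.getD_eq_getElem _ _ h3, List.getElem_map, List.getElem_zip,
    List.getD_eq_getElem _ _ h1, List.getD_eq_getElem _ _ h2]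

private theorem va_layer {w : ℕ} {L : List Mt} (h : ∀ M ∈ L, SqM w M) {j : ℕ}
    (hj : j < L.length) : SqM w (L.getD j []) := by
  rw [List.getD_eq_getElem _ _ hj]
  exact h _ (List.getElem_mem hj)

private theorem va_vrun_len {w : ℕ} : ∀ (Ls : List (List Mt)) (xs : List (List ZZ)) (κ : List ℕ)
    (s : List ℚ), List.Forall₂ (fun L x => L.length = x.length ∧ ∀ M ∈ L, SqM w M) Ls xs →
    Idx xs κ → s.length = w → (vrun Ls κ s).length = w := by
  intro Ls
  induction Ls with
  | nil =>
    intro xs κ s _ _ hs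
    exact hs
  | cons L Ls ih =>
    intro xs κ s h hκ hs
    cases h with
    | cons h1 h2 =>
      cases hκ with
      | cons h3 h4 =>
        rename_i x xs' j κ'
        show (vrun Ls κ' (mv (qr (L.getD j [])) s)).length = w
        apply ih xs' κ' _ h2 h4
        rw [va_mv_len]
        exact (va_layer h1.2 (by rw [h1.1]; exact h3)).1

private theorem va_vrun {w w' : ℕ} {z z' : List ZZ} (hz : z.length = w) (hz' : z'.length = w') :
    ∀ (Ls Ms : List (List Mt)) (xs : List (List ZZ)) (κ : List ℕ)
    (s s' : List ℚ), List.Forall₂ (fun L x => L.length = x.length ∧ ∀ M ∈ L, SqM w M) Ls xs →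
    List.Forall₂ (fun L x => L.length = x.length ∧ ∀ M ∈ L, SqM w' M) Ms xs →
    Idx xs κ → s.length = w → s'.length = w' →
    vrun ((Ls.zip Ms).map fun x => (x.1.zip x.2).map fun y =>
      dsm (zz z) (zz z') y.1 y.2) κ (s ++ s') = vrun Ls κ s ++ vrun Ms κ s' := by
  intro Ls
  induction Ls with
  | nil =>
    intro Ms xs κ s s' h h' _ _ _
    cases h
    cases h'
    rfl
  | cons L Ls ih =>
    intro Ms xs κ s s' h h' hκ hs hs'
    cases h with
    | cons h1 h2 =>
      rename_i x xs'
      cases h' with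
      | cons h5 h6 =>
        rename_i M Ms'
        cases hκ with
        | cons h3 h4 =>
          rename_i j κ'
          have l1 : j < L.length := by rw [h1.1]; exact h3
          have l2 : j < M.length := by rw [h5.1]; exact h3
          have e1 := va_getD L M l1 l2 (fun y => dsm (zz z) (zz z') y.1 y.2) [] []
          have s1 := va_layer h1.2 l1
          have s2 := va_layer h5.2 l2
          show vrun ((Ls.zip Ms').map fun x => (x.1.zip x.2).map fun y =>
            dsm (zz z) (zz z') y.1 y.2) κ' (mv (qr (((L.zip M).map fun y =>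
            dsm (zz z) (zz z') y.1 y.2).getD j [])) (s ++ s')) =
            vrun Ls κ' (mv (qr (L.getD j [])) s) ++ vrun Ms' κ' (mv (qr (M.getD j [])) s')
          rw [e1]
          show vrun ((Ls.zip Ms').map fun x => (x.1.zip x.2).map fun y =>
            dsm (zz z) (zz z') y.1 y.2) κ' (mv (qr (dsm (zz z) (zz z') (L.getD j [])
              (M.getD j []))) (s ++ s')) = _
          rw [va_mv _ _ hs hz s1.2 hz' s2.2 hs']
          apply ih Ms' xs' κ' _ _ h2 h6 h4
          · rw [va_mv_len]
            exact s1.1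
          · rw [va_mv_len]
            exact s2.1

private theorem va_sqM {w w' : ℕ} {z z' : List ZZ} (hz : z.length = w) (hz' : z'.length = w')
    {A B : Mt} (hA : SqM w A) (hB : SqM w' B) : SqM (w + w') (dsm (zz z) (zz z') A B) := by
  constructor
  · unfold dsm
    rw [List.length_append, List.length_map, List.length_map, hA.1, hB.1]
  · intro r hr
    unfold dsm at hr
    rcases List.mem_append.1 hr with h | h
    · obtain ⟨r', hr', rfl⟩ := List.mem_map.1 h
      rw [List.length_append, hA.2 r' hr', va_zz_len, hz']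
    · obtain ⟨r', hr', rfl⟩ := List.mem_map.1 h
      rw [List.length_append, hB.2 r' hr', va_zz_len, hz]

private theorem va_forall {w w' : ℕ} {z z' : List ZZ} (hz : z.length = w) (hz' : z'.length = w') :
    ∀ (Ls Ms : List (List Mt)) (xs : List (List ZZ)),
    List.Forall₂ (fun L x => L.length = x.length ∧ ∀ M ∈ L, SqM w M) Ls xs →
    List.Forall₂ (fun L x => L.length = x.length ∧ ∀ M ∈ L, SqM w' M) Ms xs →
    List.Forall₂ (fun (L : List Mt) (x : List ZZ) => L.length = x.length ∧
      ∀ M ∈ L, SqM (w + w') M)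
      ((Ls.zip Ms).map fun x => (x.1.zip x.2).map fun y => dsm (zz z) (zz z') y.1 y.2) xs := by
  intro Ls
  induction Ls with
  | nil =>
    intro Ms xs h h'
    cases h
    exact List.Forall₂.nil
  | cons L Ls ih =>
    intro Ms xs h h'
    cases h with
    | cons h1 h2 =>
      cases h' with
      | cons h5 h6 =>
        rename_i x xs' M Ms'
        refine List.Forall₂.cons ⟨?_, ?_⟩ (ih Ms' xs' h2 h6)
        · show ((L.zip M).map fun y => dsm (zz z) (zz z') y.1 y.2).length = _
          rw [List.length_map, List.length_zip, h1.1, h5.1, min_self]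
        · intro N hN
          obtain ⟨y, hy, rfl⟩ := List.mem_map.1 hN
          have hy' := List.of_mem_zip (a := y.1) (b := y.2) hy
          exact va_sqM hz hz' (h1.2 _ hy'.1) (h5.2 _ hy'.2)

theorem sqV_vadd {w w' : ℕ} {xs : List (List ZZ)} {p q : Vb} (hp : SqV w xs p)
    (hq : SqV w' xs q) : SqV (w + w') xs (vadd p q) := by
  refine ⟨?_, ?_, ?_⟩
  · show (p.1 ++ q.1).length = w + w'
    rw [List.length_append, hp.1, hq.1]
  · show (p.2.2 ++ q.2.2).length = w + w'
    rw [List.length_append, hp.2.1, hq.2.1]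
  · exact va_forall hp.1 hq.1 _ _ _ hp.2.2 hq.2.2

theorem vval_vadd {w w' : ℕ} {xs : List (List ZZ)} {p q : Vb} (hp : SqV w xs p)
    (hq : SqV w' xs q) {κ : List ℕ} (hκ : Idx xs κ) :
    vval (vadd p q) κ = vval p κ + vval q κ := by
  have h1 : (qv p.1).length = w := by rw [va_qv_len, hp.1]
  have h2 : (qv q.1).length = w' := by rw [va_qv_len, hq.1]
  have h3 := va_vrun hp.1 hq.1 _ _ _ κ (qv p.1) (qv q.1) hp.2.2 hq.2.2 hκ h1 h2
  have h4 := va_vrun_len _ _ _ _ hp.2.2 hκ h1
  show qdot (qv (p.2.2 ++ q.2.2)) (vrun ((p.2.1.zip q.2.1).map fun x =>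
    (x.1.zip x.2).map fun y => dsm (zz p.1) (zz q.1) y.1 y.2) κ (qv (p.1 ++ q.1))) = _
  rw [va_qv_append, va_qv_append, h3, va_qdot_append]
  · rfl
  · rw [va_qv_len, hp.2.1, h4]

theorem sqV_vscl {w : ℕ} {xs : List (List ZZ)} {p : Vb} (a : ZZ) (hp : SqV w xs p) :
    SqV w xs (vscl a p) := by
  refine ⟨?_, hp.2.1, hp.2.2⟩
  show (p.1.map (zMul a)).length = w
  rw [List.length_map, hp.1]

private theorem va_qdot_smul (c : ℚ) (r s : List ℚ) :
    qdot r (s.map fun x => c * x) = c * qdot r s := by
  unfold qdot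
  induction r generalizing s with
  | nil => simp
  | cons a r ih =>
    cases s with
    | nil => simp
    | cons b s =>
      rw [List.map_cons, List.zip_cons_cons, List.map_cons, List.sum_cons, ih,
        List.zip_cons_cons, List.map_cons, List.sum_cons]
      ring

private theorem va_mv_smul (c : ℚ) (A : List (List ℚ)) (s : List ℚ) :
    mv A (s.map fun x => c * x) = (mv A s).map fun x => c * x := by
  unfold mv
  rw [List.map_map]
  apply List.map_congr_left
  intro r _
  exact va_qdot_smul c r s

private theorem va_vrun_smul (c : ℚ) : ∀ (Ls : List (List Mt)) (κ : List ℕ) (s : List ℚ),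
    vrun Ls κ (s.map fun x => c * x) = (vrun Ls κ s).map fun x => c * x := by
  intro Ls
  induction Ls with
  | nil =>
    intro κ s
    rfl
  | cons L Ls ih =>
    intro κ s
    show vrun Ls κ.tail (mv (qr (L.getD (κ.headD 0) [])) (s.map fun x => c * x)) = _
    rw [va_mv_smul, ih]
    rfl

theorem vval_vscl {w : ℕ} {xs : List (List ZZ)} {p : Vb} (a : ZZ) (hp : SqV w xs p)
    (κ : List ℕ) : vval (vscl a p) κ = zq a * vval p κ := by
  have h1 : qv (p.1.map (zMul a)) = (qv p.1).map fun x => zq a * x := by
    unfold qv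
    rw [List.map_map, List.map_map]
    apply List.map_congr_left
    intro b _
    exact zq_mul a b
  show qdot (qv p.2.2) (vrun p.2.1 κ (qv (p.1.map (zMul a)))) = _
  rw [h1, va_vrun_smul, va_qdot_smul]
  rfl

private theorem va_one {w : List ZZ} (h : w = [(1, 0)]) : SqM 1 [w] := by
  subst h
  refine ⟨rfl, ?_⟩
  intro r hr
  rw [List.mem_singleton.1 hr]
  rfl

theorem sqV_vcst (a : ZZ) (xs : List (List ZZ)) : SqV 1 xs (vcst a xs) := by
  refine ⟨rfl, rfl, ?_⟩
  show List.Forall₂ _ (xs.map fun x => x.map fun _ => [[(1, 0)]]) xs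
  induction xs with
  | nil => exact List.Forall₂.nil
  | cons x xs ih =>
    refine List.Forall₂.cons ⟨?_, ?_⟩ ih
    · rw [List.length_map]
    · intro M hM
      obtain ⟨y, _, rfl⟩ := List.mem_map.1 hM
      exact va_one rfl

private theorem va_cst : ∀ (xs : List (List ZZ)) (κ : List ℕ) (b : ℚ), Idx xs κ →
    vrun (xs.map fun x => x.map fun _ => [[(1, 0)]]) κ [b] = [b] := by
  intro xs
  induction xs with
  | nil =>
    intro κ b _
    rfl
  | cons x xs ih =>
    intro κ b hκ
    cases hκ with
    | cons h3 h4 =>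
      rename_i j κ'
      have h5 : j < (x.map fun _ => ([[(1, 0)]] : Mt)).length := by
        rw [List.length_map]
        exact h3
      have h1 : (x.map fun _ => ([[(1, 0)]] : Mt)).getD j [] = [[(1, 0)]] := by
        rw [List.getD_eq_getElem _ _ h5, List.getElem_map]
      show vrun (xs.map fun x => x.map fun _ => [[(1, 0)]]) κ'
        (mv (qr ((x.map fun _ => ([[(1, 0)]] : Mt)).getD j [])) [b]) = [b]
      rw [h1]
      have h2 : mv (qr [[(1, 0)]]) [b] = [b] := by
        simp [mv, qr, qdot, zq]
      rw [h2]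
      exact ih κ' b h4

theorem vval_vcst (a : ZZ) {xs : List (List ZZ)} {κ : List ℕ} (hκ : Idx xs κ) :
    vval (vcst a xs) κ = zq a := by
  show qdot (qv [(1, 0)]) (vrun (xs.map fun x => x.map fun _ => [[(1, 0)]]) κ [zq a]) = zq a
  rw [va_cst xs κ (zq a) hκ]
  simp [qdot, qv, zq]

theorem fp_vadd {f g : α → Vb} (hf : FP f) (hg : FP g) : FP fun a => vadd (f a) (g a) := by
  have hz1 : FP fun a => zz (f a).1 := fp_zz hf.fst'
  have hz2 : FP fun a => zz (g a).1 := fp_zz hg.fst'
  -- one matrix
  have h0 : FP fun q : ((List ZZ × List ZZ) × (List Mt × List Mt)) × (Mt × Mt) =>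
      dsm q.1.1.1 q.1.1.2 q.2.1 q.2.2 := by
    have a1 : FP fun q : ((List ZZ × List ZZ) × (List Mt × List Mt)) × (Mt × Mt) =>
        q.2.1.map fun r => r ++ q.1.1.2 :=
      fp_map (f := fun q : ((List ZZ × List ZZ) × (List Mt × List Mt)) × (Mt × Mt) => q.2.1)
        (h := fun p : (((List ZZ × List ZZ) × (List Mt × List Mt)) × (Mt × Mt)) × List ZZ =>
          p.2 ++ p.1.1.1.2) FP.snd.fst'
        (FP.append FP.snd ((FP.fst.comp (FP.fst.comp FP.fst)).snd'))
    have a2 : FP fun q : ((List ZZ × List ZZ) × (List Mt × List Mt)) × (Mt × Mt) =>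
        q.2.2.map fun r => q.1.1.1 ++ r :=
      fp_map (f := fun q : ((List ZZ × List ZZ) × (List Mt × List Mt)) × (Mt × Mt) => q.2.2)
        (h := fun p : (((List ZZ × List ZZ) × (List Mt × List Mt)) × (Mt × Mt)) × List ZZ =>
          p.1.1.1.1 ++ p.2) FP.snd.snd'
        (FP.append ((FP.fst.comp (FP.fst.comp FP.fst)).fst') FP.snd)
    exact FP.append a1 a2
  -- one layer
  have h1 : FP fun q : (List ZZ × List ZZ) × (List Mt × List Mt) =>
      (q.2.1.zip q.2.2).map fun y => dsm q.1.1 q.1.2 y.1 y.2 :=
    fp_map (f := fun q : (List ZZ × List ZZ) × (List Mt × List Mt) => q.2.1.zip q.2.2)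
      (h := fun q : ((List ZZ × List ZZ) × (List Mt × List Mt)) × (Mt × Mt) =>
        dsm q.1.1.1 q.1.1.2 q.2.1 q.2.2) (fp_zip FP.snd.fst' FP.snd.snd') h0
  have h2 : FP fun p : α × (List Mt × List Mt) =>
      (p.2.1.zip p.2.2).map fun y => dsm (zz (f p.1).1) (zz (g p.1).1) y.1 y.2 :=
    h1.comp (((hz1.comp FP.fst).pair (hz2.comp FP.fst)).pair FP.snd)
  have h3 : FP fun a => ((f a).2.1.zip (g a).2.1).map fun x => (x.1.zip x.2).map fun y =>
      dsm (zz (f a).1) (zz (g a).1) y.1 y.2 :=
    fp_map (f := fun a => (f a).2.1.zip (g a).2.1) (h := fun p : α × (List Mt × List Mt) =>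
      (p.2.1.zip p.2.2).map fun y => dsm (zz (f p.1).1) (zz (g p.1).1) y.1 y.2)
      (fp_zip hf.snd'.fst' hg.snd'.fst') h2
  exact (FP.append hf.fst' hg.fst').pair (h3.pair (FP.append hf.snd'.snd' hg.snd'.snd'))

theorem fp_vscl {f : α → ZZ} {g : α → Vb} (hf : FP f) (hg : FP g) :
    FP fun a => vscl (f a) (g a) := by
  have h1 : FP fun a => (g a).1.map (zMul (f a)) :=
    fp_map (f := fun a => (g a).1) (h := fun p : α × ZZ => zMul (f p.1) p.2) hg.fst'
      (fp_zMul (hf.comp FP.fst) FP.snd)
  exact h1.pair hg.snd'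

theorem fp_vcst {f : α → ZZ} {g : α → List (List ZZ)} (hf : FP f) (hg : FP g) :
    FP fun a => vcst (f a) (g a) := by
  have h0 : FP fun x : List ZZ => x.map fun _ => ([[(1, 0)]] : Mt) :=
    FP.map (f := fun _ : ZZ => ([[(1, 0)]] : Mt)) (FP.const _) FP.id
  have h1 : FP fun a => (g a).map fun x => x.map fun _ => ([[(1, 0)]] : Mt) :=
    FP.map (f := fun x : List ZZ => x.map fun _ => ([[(1, 0)]] : Mt)) h0 hg
  exact (FP.cons hf (FP.const [])).pair (h1.pair (FP.const _))

end Pool.Agent.RP
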