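import Pool.Agent.RP.Hz

set_option autoImplicit false

/-!
RP-VMul. Product of tabulated programs.

Plan: `qv (krV u v)` is the tensor product of the lists `qv u`, `qv v`; for `r.length = s.length`,
`r'.length = s'.length`: `qdot (r ⊗ r') (s ⊗ s') = qdot r s * qdot r' s'` (induction on `r`, `s`; the block of one entry `a` of `r` is
`r'.map (a * ·)`, and `qdot` of appended lists of matching lengths). So `mv (qr (krM A B)) (s ⊗ s') = mv (qr A) s ⊗ mv (qr B) s'`;
induction on the layers with `List.Forall₂`.
-/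

namespace Pool.Agent.RP

open MvPolynomial N487b59b3 N68a2faeb Pool.Agent.Helper22 Pool.Agent.Helper6.WB
  Pool.Agent.Helper6.SP Pool.Agent.PQ

variable {α : Type} [N487b59b3 α]

/-- tensor product of rational vectors -/
private def kq (u v : List ℚ) : List ℚ := u.flatMap fun a => v.map fun b => a * b

private theorem qv_krV (u v : List ZZ) : qv (krV u v) = kq (qv u) (qv v) := by
  unfold qv krV kq
  rw [List.map_flatMap, List.flatMap_map]
  congr 1
  funext a
  rw [List.map_map, List.map_map]
  congr 1
  funext b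
  exact zq_mul a b

private theorem qdot_cons (a b : ℚ) (u v : List ℚ) :
    qdot (a :: u) (b :: v) = a * b + qdot u v := by
  simp [qdot]

private theorem qdot_append (x x' y y' : List ℚ) (h : x.length = x'.length) :
    qdot (x ++ y) (x' ++ y') = qdot x x' + qdot y y' := by
  unfold qdot
  rw [List.zip_append h, List.map_append, List.sum_append]

private theorem qdot_scale (a b : ℚ) : ∀ u v : List ℚ,
    qdot (u.map fun t => a * t) (v.map fun t => b * t) = a * b * qdot u v := by
  intro u
  induction u with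
  | nil => intro v; simp [qdot]
  | cons c u ih =>
    intro v
    cases v with
    | nil => simp [qdot]
    | cons d v =>
      rw [List.map_cons, List.map_cons, qdot_cons, qdot_cons, ih]
      ring

private theorem kq_cons (a : ℚ) (u v : List ℚ) :
    kq (a :: u) v = (v.map fun b => a * b) ++ kq u v := by
  simp [kq]

private theorem qdot_kq : ∀ (r s r' s' : List ℚ), r.length = s.length → r'.length = s'.length →
    qdot (kq r r') (kq s s') = qdot r s * qdot r' s' := by
  intro r
  induction r with
  | nil =>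
    intro s r' s' _ _
    simp [kq, qdot]
  | cons a r ih =>
    intro s r' s' h h'
    cases s with
    | nil => simp at h
    | cons b s =>
      rw [kq_cons, kq_cons, qdot_append _ _ _ _ (by simpa using h'), qdot_scale, qdot_cons,
        ih s r' s' (by simpa using h) h']
      ring

private theorem length_krV (u v : List ZZ) : (krV u v).length = u.length * v.length := by
  unfold krV
  rw [List.length_flatMap]
  simp

private theorem length_krM (A B : Mt) : (krM A B).length = A.length * B.length := by
  unfold krM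
  rw [List.length_flatMap]
  simp

private theorem sqM_krM {w w' : ℕ} {A B : Mt} (hA : SqM w A) (hB : SqM w' B) :
    SqM (w * w') (krM A B) := by
  refine ⟨by rw [length_krM, hA.1, hB.1], ?_⟩
  intro r hr
  unfold krM at hr
  obtain ⟨a, ha, hr⟩ := List.mem_flatMap.1 hr
  obtain ⟨b, hb, rfl⟩ := List.mem_map.1 hr
  rw [length_krV, hA.2 a ha, hB.2 b hb]

private theorem mv_krM {w w' : ℕ} {A B : Mt} (hA : SqM w A) (hB : SqM w' B) (s s' : List ℚ)
    (hs : s.length = w) (hs' : s'.length = w') :
    mv (qr (krM A B)) (kq s s') = kq (mv (qr A) s) (mv (qr B) s') := by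
  have h1 : mv (qr (krM A B)) (kq s s') =
      A.flatMap fun r => B.map fun t => qdot (qv (krV r t)) (kq s s') := by
    unfold mv qr krM qv
    rw [List.map_map, List.map_flatMap]
    congr 1
    funext r
    rw [List.map_map]
    rfl
  have h2 : kq (mv (qr A) s) (mv (qr B) s') =
      A.flatMap fun r => B.map fun t => qdot (qv r) s * qdot (qv t) s' := by
    unfold mv qr kq qv
    rw [List.map_map, List.map_map, List.flatMap_map]
    congr 1
    funext r
    rw [List.map_map]
    rfl
  rw [h1, h2]
  apply List.flatMap_congr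
  intro r hr
  apply List.map_congr_left
  intro t ht
  rw [qv_krV, qdot_kq]
  · unfold qv
    rw [List.length_map, hA.2 r hr, hs]
  · unfold qv
    rw [List.length_map, hB.2 t ht, hs']

private theorem length_mv {w : ℕ} {A : Mt} (hA : SqM w A) (s : List ℚ) :
    (mv (qr A) s).length = w := by
  unfold mv qr
  rw [List.length_map, List.length_map, hA.1]

/-- the product of the layers -/
private def lmul (P Q : List (List Mt)) : List (List Mt) :=
  (P.zip Q).map fun x => (x.1.zip x.2).map fun y => krM y.1 y.2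

private theorem lmul_cons (L L' : List Mt) (P Q : List (List Mt)) :
    lmul (L :: P) (L' :: Q) = ((L.zip L').map fun y => krM y.1 y.2) :: lmul P Q := rfl

private theorem lmul_sq {w w' : ℕ} : ∀ (xs : List (List ZZ)) (P Q : List (List Mt)),
    List.Forall₂ (fun L x => L.length = x.length ∧ ∀ M ∈ L, SqM w M) P xs →
    List.Forall₂ (fun L x => L.length = x.length ∧ ∀ M ∈ L, SqM w' M) Q xs →
    List.Forall₂ (fun L x => L.length = x.length ∧ ∀ M ∈ L, SqM (w * w') M) (lmul P Q) xs := by
  intro xs
  induction xs with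
  | nil =>
    intro P Q hP hQ
    rw [List.forall₂_nil_right_iff] at hP
    subst hP
    exact List.Forall₂.nil
  | cons x xs ih =>
    intro P Q hP hQ
    rw [List.forall₂_cons_right_iff] at hP hQ
    obtain ⟨L, P', hL, hP', rfl⟩ := hP
    obtain ⟨L', Q', hL', hQ', rfl⟩ := hQ
    rw [lmul_cons]
    refine List.Forall₂.cons ⟨?_, ?_⟩ (ih P' Q' hP' hQ')
    · rw [List.length_map, List.length_zip, hL.1, hL'.1, min_self]
    · intro M hM
      obtain ⟨⟨A, B⟩, hAB, rfl⟩ := List.mem_map.1 hM
      exact sqM_krM (hL.2 A (List.of_mem_zip hAB).1) (hL'.2 B (List.of_mem_zip hAB).2)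

private theorem lmul_getD {L L' : List Mt} {j : ℕ} (h : j < L.length) (h' : j < L'.length) :
    ((L.zip L').map fun y => krM y.1 y.2).getD j [] = krM (L.getD j []) (L'.getD j []) := by
  have h1 : j < ((L.zip L').map fun y : Mt × Mt => krM y.1 y.2).length := by
    rw [List.length_map, List.length_zip]
    exact lt_min h h'
  rw [List.getD_eq_getElem _ _ h1, List.getElem_map, List.getElem_zip,
    List.getD_eq_getElem _ _ h, List.getD_eq_getElem _ _ h']

private theorem vrun_lmul {w w' : ℕ} : ∀ (xs : List (List ZZ)) (P Q : List (List Mt)) (κ : List ℕ)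
    (s s' : List ℚ),
    List.Forall₂ (fun L x => L.length = x.length ∧ ∀ M ∈ L, SqM w M) P xs →
    List.Forall₂ (fun L x => L.length = x.length ∧ ∀ M ∈ L, SqM w' M) Q xs →
    Idx xs κ → s.length = w → s'.length = w' →
    vrun (lmul P Q) κ (kq s s') = kq (vrun P κ s) (vrun Q κ s') ∧
      (vrun P κ s).length = w ∧ (vrun Q κ s').length = w' := by
  intro xs
  induction xs with
  | nil =>
    intro P Q κ s s' hP hQ _ hs hs'
    rw [List.forall₂_nil_right_iff] at hP hQ
    subst hP
    subst hQ
    exact ⟨rfl, hs, hs'⟩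
  | cons x xs ih =>
    intro P Q κ s s' hP hQ hκ hs hs'
    rw [List.forall₂_cons_right_iff] at hP hQ
    obtain ⟨L, P', hL, hP', rfl⟩ := hP
    obtain ⟨L', Q', hL', hQ', rfl⟩ := hQ
    unfold Idx at hκ
    rw [List.forall₂_cons_left_iff] at hκ
    obtain ⟨j, κ', hj, hκ', rfl⟩ := hκ
    have hjL : j < L.length := by rw [hL.1]; exact hj
    have hjL' : j < L'.length := by rw [hL'.1]; exact hj
    have hA : SqM w (L.getD j []) := by
      rw [List.getD_eq_getElem _ _ hjL]
      exact hL.2 _ (List.getElem_mem hjL)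
    have hB : SqM w' (L'.getD j []) := by
      rw [List.getD_eq_getElem _ _ hjL']
      exact hL'.2 _ (List.getElem_mem hjL')
    have e1 : vrun (lmul (L :: P') (L' :: Q')) (j :: κ') (kq s s') =
        vrun (lmul P' Q') κ' (mv (qr (((L.zip L').map fun y => krM y.1 y.2).getD j []))
          (kq s s')) := rfl
    have e2 : vrun (L :: P') (j :: κ') s = vrun P' κ' (mv (qr (L.getD j [])) s) := rfl
    have e3 : vrun (L' :: Q') (j :: κ') s' = vrun Q' κ' (mv (qr (L'.getD j [])) s') := rfl
    rw [e1, e2, e3, lmul_getD hjL hjL', mv_krM hA hB s s' hs hs']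
    exact ih P' Q' κ' _ _ hP' hQ' hκ' (length_mv hA s) (length_mv hB s')

theorem sqV_vmul {w w' : ℕ} {xs : List (List ZZ)} {p q : Vb} (hp : SqV w xs p)
    (hq : SqV w' xs q) : SqV (w * w') xs (vmul p q) := by
  refine ⟨?_, ?_, ?_⟩
  · unfold vmul
    rw [length_krV, hp.1, hq.1]
  · unfold vmul
    rw [length_krV, hp.2.1, hq.2.1]
  · exact lmul_sq xs p.2.1 q.2.1 hp.2.2 hq.2.2

theorem vval_vmul {w w' : ℕ} {xs : List (List ZZ)} {p q : Vb} (hp : SqV w xs p)
    (hq : SqV w' xs q) {κ : List ℕ} (hκ : Idx xs κ) :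
    vval (vmul p q) κ = vval p κ * vval q κ := by
  have h1 : (qv p.1).length = w := by
    unfold qv
    rw [List.length_map, hp.1]
  have h2 : (qv q.1).length = w' := by
    unfold qv
    rw [List.length_map, hq.1]
  obtain ⟨h3, h4, h5⟩ := vrun_lmul xs p.2.1 q.2.1 κ (qv p.1) (qv q.1) hp.2.2 hq.2.2 hκ h1 h2
  have e1 : vval (vmul p q) κ =
      qdot (qv (krV p.2.2 q.2.2)) (vrun (lmul p.2.1 q.2.1) κ (qv (krV p.1 q.1))) := rfl
  rw [e1, qv_krV, qv_krV, h3, qdot_kq]
  · rfl
  · rw [h4]
    unfold qv
    rw [List.length_map, hp.2.1]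
  · rw [h5]
    unfold qv
    rw [List.length_map, hq.2.1]

private theorem fp_krV {f g : α → List ZZ} (hf : FP f) (hg : FP g) :
    FP fun a => krV (f a) (g a) := by
  have h1 : FP fun p : (α × ZZ) × ZZ => zMul p.1.2 p.2 := fp_zMul (FP.snd.comp FP.fst) FP.snd
  have h2 : FP fun q : α × ZZ => (g q.1).map fun b => zMul q.2 b :=
    fp_map (f := fun q : α × ZZ => g q.1) (h := fun p : (α × ZZ) × ZZ => zMul p.1.2 p.2)
      (hg.comp FP.fst) h1
  exact fp_flatMap (f := f) (h := fun q : α × ZZ => (g q.1).map fun b => zMul q.2 b) hf h2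

private theorem fp_krM {f g : α → Mt} (hf : FP f) (hg : FP g) :
    FP fun a => krM (f a) (g a) := by
  have h1 : FP fun p : (α × List ZZ) × List ZZ => krV p.1.2 p.2 :=
    fp_krV (FP.snd.comp FP.fst) FP.snd
  have h2 : FP fun q : α × List ZZ => (g q.1).map fun b => krV q.2 b :=
    fp_map (f := fun q : α × List ZZ => g q.1) (h := fun p : (α × List ZZ) × List ZZ =>
      krV p.1.2 p.2) (hg.comp FP.fst) h1
  exact fp_flatMap (f := f) (h := fun q : α × List ZZ => (g q.1).map fun b => krV q.2 b) hf h2

theorem fp_vmul {f g : α → Vb} (hf : FP f) (hg : FP g) : FP fun a => vmul (f a) (g a) := by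
  have h1 : FP fun y : Mt × Mt => krM y.1 y.2 := fp_krM FP.fst FP.snd
  have h2 : FP fun x : List Mt × List Mt => (x.1.zip x.2).map fun y => krM y.1 y.2 :=
    FP.map h1 (fp_zip FP.fst FP.snd)
  have h3 : FP fun a => (((f a).2.1).zip ((g a).2.1)).map fun x : List Mt × List Mt =>
      (x.1.zip x.2).map fun y : Mt × Mt => krM y.1 y.2 :=
    FP.map h2 (fp_zip hf.snd'.fst' hg.snd'.fst')
  exact FP.pair (fp_krV hf.fst' hg.fst') (FP.pair h3 (fp_krV hf.snd'.snd' hg.snd'.snd'))

end Pool.Agent.RP
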