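import Pool.Agent.RP.Tab
import Pool.Agent.RP.VAdd
import Pool.Agent.RP.VMul

set_option autoImplicit false

/-!
RP-FV. Polynomials whose values on the grid are tabulated in polynomial time: the class `FV` and its closure properties.

Plan: `add`, `mul`, `smul`, `const` from `VAdd`, `VMul`; finite sums and products by induction on the finset
(`Finset.induction_on`, with `0`, `1` as constants); the determinant by the Leibniz formula (`Matrix.det_apply'`), the sign is an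
integer constant; compare `FT.det` in `PQ/FTc.lean` and `FQ.det` in `Helper6/SP/FQ.lean`.
-/

namespace Pool.Agent.RP

open MvPolynomial N487b59b3 N68a2faeb Pool.Agent.Helper22 Pool.Agent.Helper6.WB
  Pool.Agent.Helper6.SP Pool.Agent.PQ

variable {α β : Type} [N487b59b3 α] [N487b59b3 β]

/-- polynomials tabulated in polynomial time on the grid `xs a` -/
def FV (xs : α → List (List ZZ)) (P : α → Prop) (f : α → MvPolynomial ℕ ℚ) : Prop :=
  ∃ F : α → Vb, FP F ∧ ∀ a, P a → (∃ w, SqV w (xs a) (F a)) ∧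
    ∀ κ, Idx (xs a) κ → vval (F a) κ = eval (ptK (xs a) κ) (f a)

variable {xs : α → List (List ZZ)} {P : α → Prop} {f g : α → MvPolynomial ℕ ℚ}

theorem FV.congr (hf : FV xs P f) (h : ∀ a, P a → g a = f a) : FV xs P g := by
  obtain ⟨F, h1, h2⟩ := hf
  refine ⟨F, h1, fun a ha => ⟨(h2 a ha).1, fun κ hκ => ?_⟩⟩
  rw [h a ha]
  exact (h2 a ha).2 κ hκ

theorem FV.imp {Q : α → Prop} (hf : FV xs P f) (h : ∀ a, Q a → P a) : FV xs Q f := by
  obtain ⟨F, h1, h2⟩ := hf
  exact ⟨F, h1, fun a ha => h2 a (h a ha)⟩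

theorem FV.comp {h : β → α} (hf : FV xs P f) (hh : FP h) :
    FV (fun b => xs (h b)) (fun b => P (h b)) (fun b => f (h b)) := by
  obtain ⟨F, h1, h2⟩ := hf
  exact ⟨fun b => F (h b), h1.comp hh, fun b hb => h2 (h b) hb⟩

theorem FV.const (hx : FP xs) (c : ℤ) : FV xs P fun _ => C (c : ℚ) := by
  refine ⟨fun a => vcst (toZ c) (xs a), fp_vcst (FP.const _) hx, fun a _ =>
    ⟨⟨1, sqV_vcst _ _⟩, fun κ hκ => ?_⟩⟩
  rw [vval_vcst _ hκ, zq_toZ]
  simp

theorem FV.add (hf : FV xs P f) (hg : FV xs P g) : FV xs P fun a => f a + g a := by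
  obtain ⟨F, h1, h2⟩ := hf
  obtain ⟨G, k1, k2⟩ := hg
  refine ⟨fun a => vadd (F a) (G a), fp_vadd h1 k1, fun a ha => ?_⟩
  obtain ⟨⟨w, hw⟩, h3⟩ := h2 a ha
  obtain ⟨⟨v, hv⟩, k3⟩ := k2 a ha
  refine ⟨⟨w + v, sqV_vadd hw hv⟩, fun κ hκ => ?_⟩
  rw [vval_vadd hw hv hκ, h3 κ hκ, k3 κ hκ, map_add]

theorem FV.mul (hf : FV xs P f) (hg : FV xs P g) : FV xs P fun a => f a * g a := by
  obtain ⟨F, h1, h2⟩ := hf
  obtain ⟨G, k1, k2⟩ := hg
  refine ⟨fun a => vmul (F a) (G a), fp_vmul h1 k1, fun a ha => ?_⟩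
  obtain ⟨⟨w, hw⟩, h3⟩ := h2 a ha
  obtain ⟨⟨v, hv⟩, k3⟩ := k2 a ha
  refine ⟨⟨w * v, sqV_vmul hw hv⟩, fun κ hκ => ?_⟩
  rw [vval_vmul hw hv hκ, h3 κ hκ, k3 κ hκ, map_mul]

theorem FV.sum (hx : FP xs) {ι : Type} (s : Finset ι) {h : ι → α → MvPolynomial ℕ ℚ}
    (hh : ∀ i, FV xs P (h i)) : FV xs P fun a => ∑ i ∈ s, h i a := by
  classical
  induction s using Finset.induction_on with
  | empty => exact (FV.const hx 0).congr fun a _ => by simp
  | insert i s hi ih =>
    exact ((hh i).add ih).congr fun a _ => by rw [Finset.sum_insert hi]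

theorem FV.prod (hx : FP xs) {ι : Type} (s : Finset ι) {h : ι → α → MvPolynomial ℕ ℚ}
    (hh : ∀ i, FV xs P (h i)) : FV xs P fun a => ∏ i ∈ s, h i a := by
  classical
  induction s using Finset.induction_on with
  | empty => exact (FV.const hx 1).congr fun a _ => by simp
  | insert i s hi ih =>
    exact ((hh i).mul ih).congr fun a _ => by rw [Finset.prod_insert hi]

theorem FV.det (hx : FP xs) {m : ℕ} {h : Fin m → Fin m → α → MvPolynomial ℕ ℚ}
    (hh : ∀ i j, FV xs P (h i j)) :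
    FV xs P fun a => (Matrix.of fun i j => h i j a).det := by
  have key : ∀ s : Equiv.Perm (Fin m), FV xs P fun a =>
      C (((Equiv.Perm.sign s : ℤ) : ℚ)) * ∏ i, h (s i) i a := fun s =>
    (FV.const hx _).mul (FV.prod hx (Finset.univ : Finset (Fin m))
      (h := fun i a => h (s i) i a) (fun i => hh (s i) i))
  refine (FV.sum hx (Finset.univ : Finset (Equiv.Perm (Fin m))) key).congr fun a _ => ?_
  rw [Matrix.det_apply']
  refine Finset.sum_congr rfl fun s _ => ?_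
  have : ((Equiv.Perm.sign s : ℤ) : MvPolynomial ℕ ℚ) = C (((Equiv.Perm.sign s : ℤ) : ℚ)) := by
    simp
  rw [this]
  rfl

end Pool.Agent.RP
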