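import Pool.Agent.RP.VDefs

set_option autoImplicit false

/-!
RP-Gram. The sum of the squares of the values (mathematics).

Plan: `sts Ls s` = list of all final vectors (all choices of the matrices). Invariant of the fold: the matrix `G` of size
`w` has the entries `zq G_ab = ∑_{t ∈ sts Ls₀ s} t_a t_b` for the layers `Ls₀` read so far; step: `(mulT M G)_ad = ∑_c M_ac G_dc`,
`(mulT (mulT M G) M)_ab = ∑_d (mulT M G)_ad M_bd` (`ent_mulT` of `PQ/Zip.lean` for square matrices of size `w`, lists of length
`w`), and `msum` adds. At the end `tz = ∑_t (qdot u t)^2`. Every `t ∈ sts` is `vrun Ls κ s` for a choice `κ` and conversely.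
-/

namespace Pool.Agent.RP

open MvPolynomial N487b59b3 N68a2faeb Pool.Agent.Helper22 Pool.Agent.Helper6.WB
  Pool.Agent.Helper6.SP Pool.Agent.PQ

/-- all final vectors -/
def sts : List (List Mt) → List ℚ → List (List ℚ)
  | [], s => [s]
  | L :: Ls, s => L.flatMap fun M => sts Ls (mv (qr M) s)

private theorem gm_qdot : ∀ (u v : List ℚ) (n : ℕ), u.length = n → v.length = n →
    qdot u v = ∑ i ∈ Finset.range n, u.getD i 0 * v.getD i 0
  | [], v, n, hu, _ => by
    have h : n = 0 := hu.symm
    subst h
    simp [qdot]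
  | a :: u, [], n, hu, hv => by
    have h : n = 0 := hv.symm
    subst h
    simp at hu
  | a :: u, b :: v, 0, hu, _ => by simp at hu
  | a :: u, b :: v, n + 1, hu, hv => by
    have h1 : u.length = n := by simpa using hu
    have h2 : v.length = n := by simpa using hv
    have h3 : qdot (a :: u) (b :: v) = a * b + qdot u v := by simp [qdot]
    rw [h3, Finset.sum_range_succ', gm_qdot u v n h1 h2]
    simp only [List.getD_cons_succ, List.getD_cons_zero]
    ring

private theorem gm_zq0 : zq (0, 0) = 0 := by simp [zq]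

private theorem gm_getD (l : List ZZ) (i : ℕ) : (l.map zq).getD i 0 = zq (l.getD i (0, 0)) := by
  rw [← gm_zq0, List.getD_map]

private theorem gm_mv_len (M : Mt) (s : List ℚ) : (mv (qr M) s).length = M.length := by
  simp [mv, qr]

private theorem gm_mv {w : ℕ} {M : Mt} (hM : SqM w M) {s : List ℚ} (hs : s.length = w) {a : ℕ}
    (ha : a < w) : (mv (qr M) s).getD a 0 = ∑ c ∈ Finset.range w, ent M a c * s.getD c 0 := by
  have haM : a < M.length := by rw [hM.1]; exact ha
  have h1 : (mv (qr M) s).getD a 0 = qdot (M[a].map zq) s := by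
    rw [List.getD_eq_getElem _ _ (by rw [gm_mv_len]; exact haM)]
    simp [mv, qr]
  rw [h1, gm_qdot _ _ w (by rw [List.length_map]; exact hM.2 _ (List.getElem_mem haM)) hs]
  refine Finset.sum_congr rfl fun c _ => ?_
  rw [gm_getD]
  unfold ent
  rw [List.getD_eq_getElem _ _ haM]

private theorem gm_sq_mulT {w : ℕ} {A B : Mt} (hA : SqM w A) (hB : SqM w B) :
    SqM w (mulT A B) := by
  refine ⟨by simp [mulT, hA.1], ?_⟩
  intro r hr
  unfold mulT at hr
  obtain ⟨x, _, rfl⟩ := List.mem_map.1 hr
  rw [List.length_map, hB.1]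

private theorem gm_add_sq {w : ℕ} {A B : Mt} (hA : SqM w A) (hB : SqM w B) :
    SqM w ((A.zip B).map fun x => (x.1.zip x.2).map fun y => zAdd y.1 y.2) := by
  refine ⟨by simp [hA.1, hB.1], ?_⟩
  intro r hr
  obtain ⟨x, hx, rfl⟩ := List.mem_map.1 hr
  have h1 : x.1 ∈ A ∧ x.2 ∈ B := List.of_mem_zip (a := x.1) (b := x.2) hx
  rw [List.length_map, List.length_zip, hA.2 _ h1.1, hB.2 _ h1.2, min_self]

private theorem gm_add_ent {w : ℕ} {A B : Mt} (hA : SqM w A) (hB : SqM w B) {a b : ℕ} (ha : a < w)
    (hb : b < w) :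
    ent ((A.zip B).map fun x => (x.1.zip x.2).map fun y => zAdd y.1 y.2) a b =
      ent A a b + ent B a b := by
  have haA : a < A.length := by rw [hA.1]; exact ha
  have haB : a < B.length := by rw [hB.1]; exact ha
  have hbA : b < A[a].length := by rw [hA.2 _ (List.getElem_mem haA)]; exact hb
  have hbB : b < B[a].length := by rw [hB.2 _ (List.getElem_mem haB)]; exact hb
  have h0 : a < ((A.zip B).map fun x => (x.1.zip x.2).map fun y => zAdd y.1 y.2).length := by
    rw [List.length_map, List.length_zip]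
    exact lt_min haA haB
  unfold ent
  rw [List.getD_eq_getElem _ _ h0, List.getD_eq_getElem _ _ haA, List.getD_eq_getElem _ _ haB,
    List.getElem_map, List.getElem_zip]
  have h1 : b < ((A[a].zip B[a]).map fun y => zAdd y.1 y.2).length := by
    rw [List.length_map, List.length_zip]
    exact lt_min hbA hbB
  rw [List.getD_eq_getElem _ _ h1, List.getD_eq_getElem _ _ hbA, List.getD_eq_getElem _ _ hbB,
    List.getElem_map, List.getElem_zip, zq_add]

private theorem gm_fold {w : ℕ} : ∀ (l : List Mt) (S : Mt), SqM w S → (∀ A ∈ l, SqM w A) →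
    SqM w (l.foldl (fun S A => (S.zip A).map fun x => (x.1.zip x.2).map fun y => zAdd y.1 y.2) S) ∧
    ∀ a < w, ∀ b < w, ent (l.foldl (fun S A => (S.zip A).map fun x =>
      (x.1.zip x.2).map fun y => zAdd y.1 y.2) S) a b = ent S a b + (l.map fun A => ent A a b).sum
  | [], S, hS, _ => by
    refine ⟨hS, fun a _ b _ => ?_⟩
    simp
  | A :: l, S, hS, hl => by
    have hA := hl A (List.mem_cons_self ..)
    obtain ⟨h1, h2⟩ := gm_fold l _ (gm_add_sq hS hA) fun B hB => hl B (List.mem_cons_of_mem _ hB)
    refine ⟨h1, fun a ha b hb => ?_⟩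
    rw [List.foldl_cons, h2 a ha b hb, gm_add_ent hS hA ha hb, List.map_cons, List.sum_cons]
    ring

private theorem gm_zz {w : ℕ} {z : List ZZ} (hz : z.length = w) :
    SqM w (z.map fun _ => zz z) ∧ ∀ a < w, ∀ b < w, ent (z.map fun _ => zz z) a b = 0 := by
  constructor
  · refine ⟨by simp [hz], ?_⟩
    intro r hr
    obtain ⟨x, _, rfl⟩ := List.mem_map.1 hr
    simp [zz, hz]
  · intro a ha b hb
    have ha' : a < z.length := by rw [hz]; exact ha
    have hb' : b < z.length := by rw [hz]; exact hb
    unfold ent zz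
    rw [List.getD_eq_getElem (z.map fun _ => z.map fun _ => ((0, 0) : ZZ)) _
      (by rw [List.length_map]; exact ha'), List.getElem_map,
      List.getD_eq_getElem (z.map fun _ => ((0, 0) : ZZ)) _
      (by rw [List.length_map]; exact hb'), List.getElem_map]
    exact gm_zq0

private theorem gm_swap {α β : Type} (f : α → β → ℚ) (T : List α) (L : List β) :
    (T.map fun s => (L.map fun M => f s M).sum).sum =
      (L.map fun M => (T.map fun s => f s M).sum).sum := by
  induction T with
  | nil => simp
  | cons a T ih =>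
    simp only [List.map_cons, List.sum_cons]
    rw [ih, ← List.sum_map_add]

/-- the invariant -/
private def GInv (w : ℕ) (G : Mt) (T : List (List ℚ)) : Prop :=
  SqM w G ∧ (∀ t ∈ T, t.length = w) ∧
    ∀ a < w, ∀ b < w, ent G a b = (T.map fun t => t.getD a 0 * t.getD b 0).sum

private theorem gm_step {w : ℕ} {z : List ZZ} (hz : z.length = w) {G : Mt} {T : List (List ℚ)}
    (h : GInv w G T) {L : List Mt} (hL : ∀ M ∈ L, SqM w M) :
    GInv w (gstep z G L) (T.flatMap fun s => L.map fun M => mv (qr M) s) := by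
  obtain ⟨hG, hT, hent⟩ := h
  have hl : ∀ A ∈ L.map (fun M => mulT (mulT M G) M), SqM w A := by
    intro A hA
    obtain ⟨M, hM, rfl⟩ := List.mem_map.1 hA
    exact gm_sq_mulT (gm_sq_mulT (hL M hM) hG) (hL M hM)
  obtain ⟨h1, h2⟩ := gm_fold (L.map fun M => mulT (mulT M G) M) _ (gm_zz hz).1 hl
  refine ⟨h1, ?_, ?_⟩
  · intro t ht
    obtain ⟨s, _, hs⟩ := List.mem_flatMap.1 ht
    obtain ⟨M, hM, rfl⟩ := List.mem_map.1 hs
    rw [gm_mv_len]
    exact (hL M hM).1
  · intro a ha b hb
    show ent (List.foldl _ _ _) a b = _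
    rw [h2 a ha b hb, (gm_zz hz).2 a ha b hb, zero_add, List.map_map]
    have h3 : ((T.flatMap fun s => L.map fun M => mv (qr M) s).map
        fun t => t.getD a 0 * t.getD b 0).sum = (T.map fun s => (L.map fun M =>
          (mv (qr M) s).getD a 0 * (mv (qr M) s).getD b 0).sum).sum := by
      clear h1 h2 hl hent hT hG
      induction T with
      | nil => simp
      | cons s T ih =>
        rw [List.flatMap_cons, List.map_append, List.sum_append, ih, List.map_cons,
          List.sum_cons, List.map_map]
        rfl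
    rw [h3, gm_swap (fun s M => (mv (qr M) s).getD a 0 * (mv (qr M) s).getD b 0)]
    apply congrArg List.sum
    apply List.map_congr_left
    intro M hM
    have hMs := hL M hM
    show ent (mulT (mulT M G) M) a b = _
    rw [ent_mulT w _ _ (gm_sq_mulT hMs hG) hMs a b ha hb]
    have h4 : ∀ p ∈ Finset.range w, ent (mulT M G) a p * ent M b p =
        ∑ c ∈ Finset.range w, (T.map fun t => ent M a c * t.getD c 0 *
          (ent M b p * t.getD p 0)).sum := by
      intro p hp
      rw [ent_mulT w _ _ hMs hG a p ha (Finset.mem_range.1 hp), Finset.sum_mul]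
      refine Finset.sum_congr rfl fun c hc => ?_
      rw [hent p (Finset.mem_range.1 hp) c (Finset.mem_range.1 hc)]
      have h5 : ent M a c * (T.map fun t => t.getD p 0 * t.getD c 0).sum * ent M b p =
          (ent M a c * ent M b p) * (T.map fun t => t.getD p 0 * t.getD c 0).sum := by ring
      rw [h5, ← List.sum_map_mul_left]
      apply congrArg List.sum
      apply List.map_congr_left
      intro t _
      ring
    rw [Finset.sum_congr rfl h4]
    have h6 : ∀ (T' : List (List ℚ)) , ∑ p ∈ Finset.range w, ∑ c ∈ Finset.range w,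
        (T'.map fun t => ent M a c * t.getD c 0 * (ent M b p * t.getD p 0)).sum =
        (T'.map fun t => (∑ c ∈ Finset.range w, ent M a c * t.getD c 0) *
          (∑ p ∈ Finset.range w, ent M b p * t.getD p 0)).sum := by
      intro T'
      induction T' with
      | nil => simp
      | cons t T' ih =>
        simp only [List.map_cons, List.sum_cons, Finset.sum_add_distrib]
        rw [ih]
        congr 1
        rw [Finset.sum_mul_sum, Finset.sum_comm]
    rw [h6]
    apply congrArg List.sum
    apply List.map_congr_left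
    intro t ht
    rw [gm_mv hMs (hT t ht) ha, gm_mv hMs (hT t ht) hb]

private theorem gm_base {w : ℕ} {z : List ZZ} (hz : z.length = w) :
    GInv w (z.map fun a => z.map fun b => zMul a b) [qv z] := by
  refine ⟨⟨by simp [hz], ?_⟩, ?_, ?_⟩
  · intro r hr
    obtain ⟨x, _, rfl⟩ := List.mem_map.1 hr
    simp [hz]
  · intro t ht
    rw [List.mem_singleton.1 ht]
    simp [qv, hz]
  · intro a ha b hb
    have ha' : a < z.length := by rw [hz]; exact ha
    have hb' : b < z.length := by rw [hz]; exact hb
    rw [List.map_singleton, List.sum_singleton]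
    unfold ent qv
    rw [gm_getD, gm_getD, List.getD_eq_getElem (z.map fun a => z.map fun b => zMul a b) _
      (by rw [List.length_map]; exact ha'), List.getElem_map,
      List.getD_eq_getElem (z.map fun b => zMul z[a] b) _ (by rw [List.length_map]; exact hb'),
      List.getElem_map, zq_mul, List.getD_eq_getElem z _ ha', List.getD_eq_getElem z _ hb']

private theorem gm_run {w : ℕ} {z : List ZZ} (hz : z.length = w) :
    ∀ (Ls : List (List Mt)) (G : Mt) (T : List (List ℚ)), GInv w G T →
      (∀ L ∈ Ls, ∀ M ∈ L, SqM w M) → GInv w (Ls.foldl (gstep z) G) (T.flatMap (sts Ls))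
  | [], G, T, h, _ => by
    have h1 : T.flatMap (sts []) = T := by
      have : (sts []) = fun s => [s] := by
        funext s
        rfl
      rw [this]
      simp
    rw [h1]
    exact h
  | L :: Ls, G, T, h, hL => by
    have h1 := gm_step hz h (hL L (List.mem_cons_self ..))
    have h2 := gm_run hz Ls _ _ h1 fun L' hL' => hL L' (List.mem_cons_of_mem _ hL')
    have h3 : (T.flatMap fun s => L.map fun M => mv (qr M) s).flatMap (sts Ls) =
        T.flatMap (sts (L :: Ls)) := by
      rw [List.flatMap_assoc]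
      apply congrArg (fun f => List.flatMap f T)
      funext s
      rw [List.flatMap_map]
      rfl
    rw [← h3]
    exact h2

private theorem gm_sq {w : ℕ} {Ls : List (List Mt)} {xs : List (List ZZ)}
    (h : List.Forall₂ (fun L x => L.length = x.length ∧ ∀ M ∈ L, SqM w M) Ls xs) :
    ∀ L ∈ Ls, ∀ M ∈ L, SqM w M := by
  induction h with
  | nil =>
    intro L hL
    simp at hL
  | cons h1 _ ih =>
    intro L hL
    rcases List.mem_cons.1 hL with rfl | hL
    · exact h1.2
    · exact ih L hL

theorem zq_tz {w : ℕ} {xs : List (List ZZ)} {p : Vb} (hp : SqV w xs p) :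
    zq (tz p) = ((sts p.2.1 (qv p.1)).map fun t => qdot (qv p.2.2) t ^ 2).sum := by
  obtain ⟨h1, h2, h3⟩ := hp
  have h4 := gm_run h1 p.2.1 _ _ (gm_base h1) (gm_sq h3)
  rw [List.flatMap_singleton] at h4
  obtain ⟨hG, hT, hent⟩ := h4
  unfold tz
  generalize p.2.1.foldl (gstep p.1) (p.1.map fun a => p.1.map fun b => zMul a b) = G at *
  generalize sts p.2.1 (qv p.1) = T at *
  generalize p.2.2 = u at *
  rw [zq_dot w u _ h2 (by rw [List.length_map]; exact hG.1)]
  have h5 : ∀ i ∈ Finset.range w, zq (u.getD i (0, 0)) *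
      zq ((G.map fun r => dot r u).getD i (0, 0)) = ∑ j ∈ Finset.range w,
        (T.map fun t => (zq (u.getD i (0, 0)) * t.getD i 0) *
          (zq (u.getD j (0, 0)) * t.getD j 0)).sum := by
    intro i hi
    have hiw := Finset.mem_range.1 hi
    have hiG : i < G.length := by rw [hG.1]; exact hiw
    rw [List.getD_eq_getElem (G.map fun r => dot r u) _ (by rw [List.length_map]; exact hiG),
      List.getElem_map, zq_dot w _ u (hG.2 _ (List.getElem_mem hiG)) h2, Finset.mul_sum]
    refine Finset.sum_congr rfl fun j hj => ?_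
    have h6 := hent i hiw j (Finset.mem_range.1 hj)
    unfold ent at h6
    rw [List.getD_eq_getElem G _ hiG] at h6
    rw [h6]
    have h7 : zq (u.getD i (0, 0)) * ((T.map fun t => t.getD i 0 * t.getD j 0).sum *
        zq (u.getD j (0, 0))) = (zq (u.getD i (0, 0)) * zq (u.getD j (0, 0))) *
          (T.map fun t => t.getD i 0 * t.getD j 0).sum := by ring
    rw [h7, ← List.sum_map_mul_left]
    apply congrArg List.sum
    apply List.map_congr_left
    intro t _
    ring
  rw [Finset.sum_congr rfl h5]
  have h6 : ∀ (T' : List (List ℚ)), ∑ i ∈ Finset.range w, ∑ j ∈ Finset.range w,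
      (T'.map fun t => (zq (u.getD i (0, 0)) * t.getD i 0) *
          (zq (u.getD j (0, 0)) * t.getD j 0)).sum =
      (T'.map fun t => (∑ i ∈ Finset.range w, zq (u.getD i (0, 0)) * t.getD i 0) ^ 2).sum := by
    intro T'
    induction T' with
    | nil => simp
    | cons t T' ih =>
      simp only [List.map_cons, List.sum_cons, Finset.sum_add_distrib]
      rw [ih]
      congr 1
      rw [sq, Finset.sum_mul_sum]
  rw [h6]
  apply congrArg List.sum
  apply List.map_congr_left
  intro t ht
  rw [gm_qdot (qv u) t w (by simp [qv, h2]) (hT t ht)]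
  congr 1
  refine Finset.sum_congr rfl fun i _ => ?_
  unfold qv
  rw [gm_getD]

theorem mem_sts {w : ℕ} {xs : List (List ZZ)} {Ls : List (List Mt)}
    (h : List.Forall₂ (fun L x => L.length = x.length ∧ ∀ M ∈ L, SqM w M) Ls xs) (s t : List ℚ) :
    t ∈ sts Ls s ↔ ∃ κ, Idx xs κ ∧ vrun Ls κ s = t := by
  induction h generalizing s with
  | nil =>
    constructor
    · intro ht
      exact ⟨[], List.Forall₂.nil, (List.mem_singleton.1 ht).symm⟩
    · rintro ⟨κ, _, hκ⟩
      rw [← hκ]
      exact List.mem_singleton.2 rfl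
  | @cons L x Ls xs h1 _ ih =>
    constructor
    · intro ht
      obtain ⟨M, hM, htM⟩ := List.mem_flatMap.1 ht
      obtain ⟨j, hj, rfl⟩ := List.mem_iff_getElem.1 hM
      obtain ⟨κ, hκ, hrun⟩ := (ih _).1 htM
      refine ⟨j :: κ, List.Forall₂.cons (by rw [← h1.1]; exact hj) hκ, ?_⟩
      show vrun Ls κ (mv (qr (L.getD j [])) s) = t
      rw [List.getD_eq_getElem _ _ hj]
      exact hrun
    · rintro ⟨κ, hκ, hrun⟩
      cases hκ with
      | @cons _ j _ κ' hj hκ' =>
        have hjL : j < L.length := by rw [h1.1]; exact hj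
        have h2 : vrun Ls κ' (mv (qr (L.getD j [])) s) = t := hrun
        rw [List.getD_eq_getElem _ _ hjL] at h2
        exact List.mem_flatMap.2 ⟨L[j], List.getElem_mem hjL, (ih _).2 ⟨κ', hκ', h2⟩⟩

private theorem gm_sum_sq (l : List ℚ) (h : ∀ x ∈ l, 0 ≤ x) : l.sum = 0 ↔ ∀ x ∈ l, x = 0 := by
  induction l with
  | nil => simp
  | cons a l ih =>
    have ha := h a (List.mem_cons_self ..)
    have hl : ∀ x ∈ l, 0 ≤ x := fun x hx => h x (List.mem_cons_of_mem _ hx)
    have hs : 0 ≤ l.sum := List.sum_nonneg hl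
    rw [List.sum_cons]
    constructor
    · intro h0
      have h1 : a = 0 := by linarith
      have h2 : l.sum = 0 := by linarith
      intro x hx
      rcases List.mem_cons.1 hx with rfl | hx
      · exact h1
      · exact (ih hl).1 h2 x hx
    · intro h0
      rw [h0 a (List.mem_cons_self ..), (ih hl).2 fun x hx => h0 x (List.mem_cons_of_mem _ hx),
        add_zero]

/-- **the test** -/
theorem tz_iff {w : ℕ} {xs : List (List ZZ)} {p : Vb} (hp : SqV w xs p) :
    zq (tz p) = 0 ↔ ∀ κ, Idx xs κ → vval p κ = 0 := by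
  rw [zq_tz hp, gm_sum_sq _ (by
    intro x hx
    obtain ⟨t, _, rfl⟩ := List.mem_map.1 hx
    positivity)]
  constructor
  · intro h κ hκ
    have h1 := h (qdot (qv p.2.2) (vrun p.2.1 κ (qv p.1)) ^ 2)
      (List.mem_map.2 ⟨_, (mem_sts hp.2.2 _ _).2 ⟨κ, hκ, rfl⟩, rfl⟩)
    exact pow_eq_zero_iff (two_ne_zero) |>.1 h1
  · intro h x hx
    obtain ⟨t, ht, rfl⟩ := List.mem_map.1 hx
    obtain ⟨κ, hκ, rfl⟩ := (mem_sts hp.2.2 _ _).1 ht
    have h1 : qdot (qv p.2.2) (vrun p.2.1 κ (qv p.1)) = 0 := h κ hκ
    rw [h1]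
    norm_num

end Pool.Agent.RP
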