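import Pool.Agent.RP.Hz

set_option autoImplicit false

/-!
RP-GramF. The test in polynomial time.

Plan: `FP.foldl` twice (outer fold over the layers, inner fold `msum` over the matrices of a layer), with the norm `mn` of
`PQ/Zip.lean` (sum of `zn` of the entries): `mn (msum z l) ≤ ∑ mn A`, `mn (gstep z G L) ≤ mn G * ∑_{M ∈ L} (mn M)^2`
(`mn_mulT`), the number of rows and columns of the state is at most that of `z` (`zip` truncates). The size of a list of
integers of norm at most `2 ^ E` with at most `w` entries is at most `w * (constant * E + constant)`: see the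
lemmas `aux_sz_of_zn`, `aux_mn_lt` in `PQ/MomF.lean` (private: copy them).
-/

namespace Pool.Agent.RP

open MvPolynomial N487b59b3 N68a2faeb Pool.Agent.Helper22 Pool.Agent.Helper6.WB
  Pool.Agent.Helper6.SP Pool.Agent.PQ

variable {α : Type} [N487b59b3 α]

/-! ## Sizes -/

private theorem aux_sum_lt {β : Type} [N487b59b3 β] (f : β → ℕ) (hf : ∀ b, f b + 1 ≤ 2 ^ sz b)
    (l : List β) : (l.map f).sum + 1 ≤ 2 ^ sz l := by
  induction l with
  | nil => simp
  | cons a l ih =>
    rw [List.map_cons, List.sum_cons, sz_cons]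
    have h3 : (f a + 1) * ((l.map f).sum + 1) ≤ 2 ^ sz a * 2 ^ sz l := Nat.mul_le_mul (hf a) ih
    have h4 : 2 ^ sz a * 2 ^ sz l ≤ 2 ^ (2 * sz a + 1 + sz l) := by
      rw [← pow_add]
      exact Nat.pow_le_pow_right (by norm_num) (by omega)
    have h5 : f a + (l.map f).sum + 1 ≤ (f a + 1) * ((l.map f).sum + 1) := by
      nlinarith [Nat.zero_le (f a * (l.map f).sum)]
    exact h5.trans (h3.trans h4)

private theorem aux_zn_lt (a : ZZ) : zn a + 1 ≤ 2 ^ sz a := by
  obtain ⟨p, n⟩ := a
  simp only [zn, sz_pair, sz_nat]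
  have h1 := Nat.lt_size_self p
  have h2 := Nat.lt_size_self n
  have h3 : (p + 1) * (n + 1) ≤ 2 ^ p.size * 2 ^ n.size := Nat.mul_le_mul h1 h2
  have h4 : 2 ^ p.size * 2 ^ n.size ≤ 2 ^ (2 * p.size + 1 + n.size) := by
    rw [← pow_add]
    exact Nat.pow_le_pow_right (by norm_num) (by omega)
  nlinarith

private theorem aux_sz_of_zn {a : ZZ} {E : ℕ} (h : zn a < 2 ^ E) : sz a ≤ 3 * E + 1 := by
  obtain ⟨p, n⟩ := a
  simp only [zn] at h
  simp only [sz_pair, sz_nat]
  have h1 : p.size ≤ E := Nat.size_le.2 (by omega)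
  have h2 : n.size ≤ E := Nat.size_le.2 (by omega)
  omega

private theorem aux_mn_lt (A : Mt) : mn A + 1 ≤ 2 ^ sz A :=
  aux_sum_lt (fun r : List ZZ => (r.map zn).sum) (fun r => aux_sum_lt zn aux_zn_lt r) A

/-- at most `n` rows with at most `n` entries -/
private def shp (n : ℕ) (A : Mt) : Prop := A.length ≤ n ∧ ∀ r ∈ A, r.length ≤ n

private theorem shp_sz (A : Mt) : shp (sz A) A :=
  ⟨length_le_sz A, fun r hr => (length_le_sz r).trans (sz_mem_le hr)⟩

private theorem shp.mono {n m : ℕ} {A : Mt} (h : shp n A) (hn : n ≤ m) : shp m A :=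
  ⟨h.1.trans hn, fun r hr => (h.2 r hr).trans hn⟩

private theorem sz_shp {A : Mt} {n E : ℕ} (h : shp n A) (hE : mn A < 2 ^ E) :
    sz A ≤ n * (2 * (n * (6 * E + 3)) + 1) := by
  have h1 : ∀ r ∈ A, ∀ x ∈ r, sz x ≤ 3 * E + 1 := by
    intro r hr x hx
    refine aux_sz_of_zn (lt_of_le_of_lt ?_ hE)
    have h2 : zn x ≤ (r.map zn).sum :=
      List.single_le_sum (fun _ _ => Nat.zero_le _) _ (List.mem_map.2 ⟨x, hx, rfl⟩)
    have h3 : (r.map zn).sum ≤ mn A :=
      List.single_le_sum (fun _ _ => Nat.zero_le _) _ (List.mem_map.2 ⟨r, hr, rfl⟩)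
    exact h2.trans h3
  have h2 : ∀ r ∈ A, sz r ≤ n * (6 * E + 3) := by
    intro r hr
    have h3 := sz_map_le (fun x : ZZ => x) r (3 * E + 1) (h1 r hr)
    rw [List.map_id'] at h3
    have h4 : 2 * (3 * E + 1) + 1 = 6 * E + 3 := by ring
    rw [h4] at h3
    exact h3.trans (Nat.mul_le_mul_right _ (h.2 r hr))
  have h5 := sz_map_le (fun r : List ZZ => r) A _ h2
  rw [List.map_id'] at h5
  exact h5.trans (Nat.mul_le_mul_right _ h.1)

/-- sum of two matrices -/
private def addM (S A : Mt) : Mt := (S.zip A).map fun x => (x.1.zip x.2).map fun y => zAdd y.1 y.2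

private theorem aux_zip_add {β γ : Type} (f : β → ℕ) (g : γ → ℕ) (u : List β) (v : List γ) :
    ((u.zip v).map fun q => f q.1 + g q.2).sum ≤ (u.map f).sum + (v.map g).sum := by
  induction u generalizing v with
  | nil => simp
  | cons x u ih =>
    cases v with
    | nil => simp
    | cons y v =>
      have h := ih v
      simp only [List.zip_cons_cons, List.map_cons, List.sum_cons]
      omega

private theorem mn_addM (S A : Mt) : mn (addM S A) ≤ mn S + mn A := by
  have h1 : mn (addM S A) = ((S.zip A).map fun p =>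
      ((p.1.zip p.2).map fun q => zn q.1 + zn q.2).sum).sum := by
    rw [mn, addM, List.map_map]
    apply congrArg List.sum
    apply List.map_congr_left
    intro p _
    simp only [Function.comp_apply, List.map_map]
    apply congrArg List.sum
    apply List.map_congr_left
    intro q _
    simp only [Function.comp_apply, zn_add]
  rw [h1]
  have h2 : ((S.zip A).map fun p => ((p.1.zip p.2).map fun q => zn q.1 + zn q.2).sum).sum ≤
      ((S.zip A).map fun p => (p.1.map zn).sum + (p.2.map zn).sum).sum := by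
    apply List.sum_le_sum
    intro p _
    exact aux_zip_add zn zn p.1 p.2
  exact h2.trans (aux_zip_add (fun r : List ZZ => (r.map zn).sum)
    (fun r : List ZZ => (r.map zn).sum) _ _)

private theorem shp_addM {n : ℕ} {S : Mt} (A : Mt) (h : shp n S) : shp n (addM S A) := by
  constructor
  · rw [addM, List.length_map, List.length_zip]
    exact (min_le_left _ _).trans h.1
  · intro r hr
    obtain ⟨x, hx, rfl⟩ := List.mem_map.1 hr
    rw [List.length_map, List.length_zip]
    exact (min_le_left _ _).trans (h.2 _ (List.of_mem_zip hx).1)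

private theorem mn_fold (l : List Mt) (S : Mt) : mn (l.foldl addM S) ≤ mn S + (l.map mn).sum := by
  induction l generalizing S with
  | nil => simp
  | cons A l ih =>
    rw [List.foldl_cons, List.map_cons, List.sum_cons]
    have h1 := ih (addM S A)
    have h2 := mn_addM S A
    omega

private theorem shp_fold {n : ℕ} (l : List Mt) {S : Mt} (h : shp n S) : shp n (l.foldl addM S) := by
  induction l generalizing S with
  | nil => exact h
  | cons A l ih => exact ih (shp_addM A h)

private theorem sz_fold (l : List Mt) (S : Mt) : sz (l.foldl addM S) ≤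
    (sz l + sz S) * (2 * ((sz l + sz S) * (6 * (sz l + sz S) + 3)) + 1) := by
  refine sz_shp (shp_fold l ((shp_sz S).mono (by omega))) ?_
  have h1 := mn_fold l S
  have h2 := aux_mn_lt S
  have h3 := aux_sum_lt mn aux_mn_lt l
  have h4 := Nat.mul_le_mul h3 h2
  rw [← pow_add] at h4
  nlinarith [Nat.zero_le ((l.map mn).sum * mn S)]

private theorem fp_addM : FP fun p : Mt × Mt => addM p.1 p.2 := by
  have h1 : FP fun q : ((Mt × Mt) × (List ZZ × List ZZ)) × (ZZ × ZZ) => zAdd q.2.1 q.2.2 :=
    fp_zAdd (by fun_prop) (by fun_prop)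
  have h2 : FP fun p : (Mt × Mt) × (List ZZ × List ZZ) => (p.2.1.zip p.2.2).map fun q =>
      (fun q : ((Mt × Mt) × (List ZZ × List ZZ)) × (ZZ × ZZ) => zAdd q.2.1 q.2.2) (p, q) :=
    fp_map (fp_zip (by fun_prop) (by fun_prop)) h1
  have h3 : FP fun s : Mt × Mt => s.1.zip s.2 := fp_zip (by fun_prop) (by fun_prop)
  exact fp_map h3 h2

private theorem fp_msum {f : α → List ZZ} {g : α → List Mt} (hf : FP f) (hg : FP g) :
    FP fun a => msum (f a) (g a) := by
  have h1 : FP fun p : List Mt × Mt => p.1.foldl addM p.2 := by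
    refine FP.foldl (g := addM) fp_addM
      (B := fun n => n * (2 * (n * (6 * n + 3)) + 1)) (by fun_prop) ?_
    intro l s
    exact sz_fold l s
  have h2 : FP fun a => ((f a).map fun _ => zz (f a)) := by
    have a1 : FP fun p : α × ZZ => zz (f p.1) := fp_zz (hf.comp FP.fst)
    exact fp_map hf a1
  exact h1.comp (hg.pair h2)

/-! ## The fold over the layers -/

private theorem mn_zero (z : List ZZ) : mn (z.map fun _ => zz z) = 0 := by
  have h1 : ∀ l : List ZZ, ((zz l).map zn).sum = 0 := by
    intro l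
    induction l with
    | nil => rfl
    | cons a l ih =>
      change zn (0, 0) + ((zz l).map zn).sum = 0
      rw [ih]
      rfl
  have h2 : ∀ l : List ZZ, mn (l.map fun _ => zz z) = 0 := by
    intro l
    induction l with
    | nil => rfl
    | cons a l ih =>
      change ((zz z).map zn).sum + mn (l.map fun _ => zz z) = 0
      rw [h1, ih]
  exact h2 z

private theorem shp_zero (z : List ZZ) : shp z.length (z.map fun _ => zz z) := by
  constructor
  · rw [List.length_map]
  · intro r hr
    obtain ⟨x, hx, rfl⟩ := List.mem_map.1 hr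
    rw [zz, List.length_map]

private theorem mn_msum (z : List ZZ) (l : List Mt) : mn (msum z l) ≤ (l.map mn).sum := by
  have h1 := mn_fold l (z.map fun _ => zz z)
  rw [mn_zero, zero_add] at h1
  exact h1

private theorem mn_gstep (z : List ZZ) (G : Mt) (L : List Mt) :
    mn (gstep z G L) ≤ mn G * 2 ^ (2 * sz L) := by
  have h1 : mn (gstep z G L) ≤ ((L.map fun M => mulT (mulT M G) M).map mn).sum := mn_msum _ _
  have h2 : ∀ l : List Mt, ((l.map fun M => mulT (mulT M G) M).map mn).sum ≤
      mn G * ((l.map mn).sum * (l.map mn).sum) := by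
    intro l
    induction l with
    | nil => simp
    | cons A l ih =>
      simp only [List.map_cons, List.sum_cons]
      have h3 : mn (mulT (mulT A G) A) ≤ mn A * mn G * mn A :=
        (mn_mulT _ _).trans (Nat.mul_le_mul_right _ (mn_mulT _ _))
      have h4 : mn G * ((mn A + (l.map mn).sum) * (mn A + (l.map mn).sum)) =
          mn A * mn G * mn A + mn G * ((l.map mn).sum * (l.map mn).sum) +
            2 * (mn G * (mn A * (l.map mn).sum)) := by ring
      rw [h4]
      omega
  have h3 := aux_sum_lt mn aux_mn_lt L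
  have h4 : (L.map mn).sum * (L.map mn).sum ≤ 2 ^ (2 * sz L) := by
    rw [two_mul, pow_add]
    exact Nat.mul_le_mul (by omega) (by omega)
  exact h1.trans ((h2 L).trans (Nat.mul_le_mul_left _ h4))

private theorem shp_gstep {n : ℕ} {z : List ZZ} (hz : z.length ≤ n) (G : Mt) (L : List Mt) :
    shp n (gstep z G L) := shp_fold _ ((shp_zero z).mono hz)

private theorem mn_gfold (z : List ZZ) (Ls : List (List Mt)) (G : Mt) :
    mn (Ls.foldl (gstep z) G) ≤ mn G * 2 ^ (2 * sz Ls) := by
  induction Ls generalizing G with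
  | nil => simp
  | cons L Ls ih =>
    rw [List.foldl_cons]
    refine (ih _).trans ((Nat.mul_le_mul_right _ (mn_gstep z G L)).trans ?_)
    rw [mul_assoc, ← pow_add, sz_cons]
    exact Nat.mul_le_mul_left _ (Nat.pow_le_pow_right (by norm_num) (by omega))

private theorem shp_gfold {n : ℕ} {z : List ZZ} (hz : z.length ≤ n) (Ls : List (List Mt)) {G : Mt}
    (hG : shp n G) : shp n (Ls.foldl (gstep z) G) := by
  induction Ls generalizing G with
  | nil => exact hG
  | cons L Ls ih => exact ih (shp_gstep hz G L)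

/-- the step with the context -/
private def gs (s : List ZZ × Mt) (L : List Mt) : List ZZ × Mt := (s.1, gstep s.1 s.2 L)

private theorem gs_fold (Ls : List (List Mt)) (s : List ZZ × Mt) :
    Ls.foldl gs s = (s.1, Ls.foldl (gstep s.1) s.2) := by
  induction Ls generalizing s with
  | nil => rfl
  | cons L Ls ih =>
    rw [List.foldl_cons, ih]
    rfl

private theorem sz_gfold (Ls : List (List Mt)) (s : List ZZ × Mt) : sz (Ls.foldl gs s) ≤
    2 * (sz Ls + sz s) + 1 + (sz Ls + sz s) *
      (2 * ((sz Ls + sz s) * (6 * (2 * (sz Ls + sz s)) + 3)) + 1) := by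
  rw [gs_fold]
  obtain ⟨z, G⟩ := s
  simp only [sz_pair]
  have h1 := length_le_sz z
  have h2 : shp (sz Ls + (2 * sz z + 1 + sz G)) (Ls.foldl (gstep z) G) :=
    shp_gfold (by omega) Ls ((shp_sz G).mono (by omega))
  have h3 : mn (Ls.foldl (gstep z) G) < 2 ^ (2 * (sz Ls + (2 * sz z + 1 + sz G))) := by
    have h4 := mn_gfold z Ls G
    have h5 := aux_mn_lt G
    have h6 : mn G * 2 ^ (2 * sz Ls) < 2 ^ sz G * 2 ^ (2 * sz Ls) :=
      Nat.mul_lt_mul_of_pos_right (by omega) (by positivity)
    rw [← pow_add] at h6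
    refine lt_of_le_of_lt h4 (lt_of_lt_of_le h6 ?_)
    exact Nat.pow_le_pow_right (by norm_num) (by omega)
  have h4 := sz_shp h2 h3
  omega

private theorem fp_gstep : FP fun p : (List ZZ × Mt) × List Mt => gstep p.1.1 p.1.2 p.2 := by
  have h1 : FP fun q : ((List ZZ × Mt) × List Mt) × Mt => mulT (mulT q.2 q.1.1.2) q.2 :=
    fp_mulT (fp_mulT (by fun_prop) (by fun_prop)) (by fun_prop)
  have h2 : FP fun p : (List ZZ × Mt) × List Mt => p.2.map fun M =>
      (fun q : ((List ZZ × Mt) × List Mt) × Mt => mulT (mulT q.2 q.1.1.2) q.2) (p, M) :=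
    fp_map (by fun_prop) h1
  exact fp_msum (FP.fst.comp FP.fst) h2

theorem fp_tz {f : α → Vb} (hf : FP f) : FP fun a => tz (f a) := by
  have h1 : FP fun p : List (List Mt) × (List ZZ × Mt) => p.1.foldl gs p.2 := by
    refine FP.foldl (g := gs) ?_ (B := fun n => 2 * n + 1 + n * (2 * (n * (6 * (2 * n) + 3)) + 1))
      (by fun_prop) ?_
    · exact FP.pair (by fun_prop) fp_gstep
    · intro l s
      exact sz_gfold l s
  have h2 : FP fun a => ((f a).1.map fun x => (f a).1.map fun y => zMul x y) := by
    have a1 : FP fun q : (α × ZZ) × ZZ => zMul q.1.2 q.2 := fp_zMul (by fun_prop) (by fun_prop)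
    have a2 : FP fun p : α × ZZ => (f p.1).1.map fun y =>
        (fun q : (α × ZZ) × ZZ => zMul q.1.2 q.2) (p, y) :=
      fp_map ((hf.comp FP.fst).fst') a1
    exact fp_map hf.fst' a2
  have h3 : FP fun a => (f a).2.1.foldl (gstep (f a).1)
      ((f a).1.map fun x => (f a).1.map fun y => zMul x y) := by
    have a1 := (h1.comp (hf.snd'.fst'.pair (hf.fst'.pair h2))).snd'
    simpa only [gs_fold] using a1
  have h4 : FP fun a => ((f a).2.1.foldl (gstep (f a).1)
      ((f a).1.map fun x => (f a).1.map fun y => zMul x y)).map fun r =>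
        (fun q : α × List ZZ => dot q.2 (f q.1).2.2) (a, r) := by
    have a1 : FP fun q : α × List ZZ => dot q.2 (f q.1).2.2 :=
      fp_dot FP.snd ((hf.comp FP.fst).snd'.snd')
    exact fp_map h3 a1
  exact fp_dot hf.snd'.snd' h4

end Pool.Agent.RP
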