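import Pool.Agent.RP.RunB

set_option autoImplicit false

/-!
RP-RkD. Rank and degree (pure algebra).

Plan: `rk_of_degree`: `f = ∑ over the monomials of f`; group the monomials `m` by their restriction `m.filter (· ∈ J)`; these
restrictions are functions `J → {0..t}`, at most `(t + 1) ^ J.card` of them; `u` = the monomial of the restriction, `v` = the sum of
the remaining parts (all exponents in `J` are zero). Pad with zeros to `Fin ((t + 1) ^ J.card)` (`Rk.mono` or an
injection). `span_of_rk`: the coefficient of `f = ∑ u_i v_i` at the monomial `m + m'` with `m` supported in `J` and `m'` outside is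
`∑_i coeff m u_i * coeff m' v_i`; for `f = ∑_{i ∈ S} monomial (m i) 1 * c i` it is `coeff m' (c i)` if `m = m i` (injectivity), so
`c i = ∑_a coeff (m i) (u_a) • v_a` is in the span of the `τ` polynomials `v_a`; the span of all `c i` has dimension at most `τ`, so it
is spanned by at most `τ` of them (`exists_linearIndependent`, `Submodule.finrank_mono`, ..).
-/

namespace Pool.Agent.RP

open MvPolynomial

private lemma rk_of_finset {J : Finset ℕ} {t : ℕ} {f : MvPolynomial ℕ ℚ} {ι : Type}
    (S : Finset ι) (u v : ι → MvPolynomial ℕ ℚ) (hu : ∀ i ∈ S, (u i).vars ⊆ J)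
    (hv : ∀ i ∈ S, Disjoint (v i).vars J) (hf : f = ∑ i ∈ S, u i * v i) (hc : S.card ≤ t) :
    Rk J t f := by
  classical
  refine ⟨fun a => if h : a.val < S.card then u (S.equivFin.symm ⟨a.val, h⟩).val else 0,
    fun a => if h : a.val < S.card then v (S.equivFin.symm ⟨a.val, h⟩).val else 0, ?_, ?_, ?_⟩
  · intro a
    dsimp only
    split_ifs with h
    · exact hu _ (S.equivFin.symm ⟨a.val, h⟩).2
    · simp
  · intro a
    dsimp only
    split_ifs with h
    · exact hv _ (S.equivFin.symm ⟨a.val, h⟩).2
    · simp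
  · rw [hf, ← Finset.sum_coe_sort, ← Equiv.sum_comp S.equivFin.symm, Finset.sum_fin_eq_sum_range]
    rw [Fin.sum_univ_eq_sum_range (fun a => (if h : a < S.card then
      u (S.equivFin.symm ⟨a, h⟩).val else 0) * (if h : a < S.card then
      v (S.equivFin.symm ⟨a, h⟩).val else 0)) t]
    have hsub : Finset.range S.card ⊆ Finset.range t := Finset.range_subset_range.2 hc
    rw [← Finset.sum_subset hsub]
    · refine Finset.sum_congr rfl fun a ha => ?_
      have h := Finset.mem_range.1 ha
      simp [h]
    · intro a _ ha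
      have h : ¬ a < S.card := fun h => ha (Finset.mem_range.2 h)
      simp [h]

theorem Rk.mono {J : Finset ℕ} {t t' : ℕ} {f : MvPolynomial ℕ ℚ} (h : Rk J t f) (ht : t ≤ t') :
    Rk J t' f := by
  obtain ⟨u, v, hu, hv, hf⟩ := h
  exact rk_of_finset Finset.univ u v (fun i _ => hu i) (fun i _ => hv i) hf (by simpa using ht)

theorem rk_empty (f : MvPolynomial ℕ ℚ) : Rk ∅ 1 f := by
  refine ⟨fun _ => 1, fun _ => f, fun i => by simp, fun i => by simp, by simp⟩

theorem rk_of_degree (J : Finset ℕ) (t : ℕ) (f : MvPolynomial ℕ ℚ)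
    (h : ∀ i ∈ J, f.degreeOf i ≤ t) : Rk J ((t + 1) ^ J.card) f := by
  classical
  let ρ : (ℕ →₀ ℕ) → (ℕ →₀ ℕ) := fun m => m.filter (fun i => i ∈ J)
  let R : Finset (ℕ →₀ ℕ) := f.support.image ρ
  refine rk_of_finset R (fun r => monomial r 1)
    (fun r => ∑ m ∈ f.support with ρ m = r, monomial (m.filter (fun i => i ∉ J)) (coeff m f))
    ?_ ?_ ?_ ?_
  · intro r hr
    obtain ⟨m, _, rfl⟩ := Finset.mem_image.1 hr
    rw [vars_monomial one_ne_zero]
    intro i hi
    have := Finsupp.support_filter (fun i => i ∈ J) m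
    rw [this] at hi
    exact (Finset.mem_filter.1 hi).2
  · intro r hr
    rw [Finset.disjoint_left]
    intro i hi hiJ
    have h1 := vars_sum_subset _ _ hi
    rw [Finset.mem_biUnion] at h1
    obtain ⟨m, _, hm⟩ := h1
    by_cases h0 : coeff m f = 0
    · rw [h0] at hm
      simp at hm
    · rw [vars_monomial h0, Finsupp.support_filter] at hm
      exact (Finset.mem_filter.1 hm).2 hiJ
  · conv_lhs => rw [f.as_sum]
    rw [← Finset.sum_fiberwise_of_maps_to (s := f.support) (t := R) (g := ρ)
      (fun m hm => Finset.mem_image_of_mem ρ hm)]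
    refine Finset.sum_congr rfl fun r _ => ?_
    rw [Finset.mul_sum]
    refine Finset.sum_congr rfl fun m hm => ?_
    obtain ⟨_, rfl⟩ := Finset.mem_filter.1 hm
    rw [monomial_mul, one_mul]
    have hsplit : ρ m + m.filter (fun i => i ∉ J) = m :=
      Finsupp.filter_add_filter_not m (fun i => i ∈ J)
    rw [hsplit]
  · have hsub : R ⊆ J.finsupp (fun _ => Finset.range (t + 1)) := by
      intro r hr
      obtain ⟨m, hm, rfl⟩ := Finset.mem_image.1 hr
      rw [Finset.mem_finsupp_iff]
      constructor
      · rw [Finsupp.support_filter]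
        intro i hi
        exact (Finset.mem_filter.1 hi).2
      · intro i hi
        rw [Finset.mem_range, Finsupp.filter_apply_pos _ _ hi]
        exact Nat.lt_succ_of_le ((monomial_le_degreeOf i hm).trans (h i hi))
    refine (Finset.card_le_card hsub).trans ?_
    rw [Finset.card_finsupp]
    simp

private lemma coeff_eq_zero_of_vars {u : MvPolynomial ℕ ℚ} {m : ℕ →₀ ℕ}
    (h : coeff m u ≠ 0) : m.support ⊆ u.vars := by
  intro i hi
  rw [mem_vars_iff_mem_support]
  exact ⟨m, mem_support_iff.2 h, hi⟩

private lemma coeff_split {J : Finset ℕ} {u v : MvPolynomial ℕ ℚ} (hu : u.vars ⊆ J)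
    (hv : Disjoint v.vars J) {m m' : ℕ →₀ ℕ} (hm : m.support ⊆ J)
    (hm' : Disjoint m'.support J) : coeff (m + m') (u * v) = coeff m u * coeff m' v := by
  classical
  rw [coeff_mul]
  refine (Finset.sum_eq_single (m, m') ?_ ?_)
  · rintro ⟨x, y⟩ hxy hne
    rw [Finset.HasAntidiagonal.mem_antidiagonal] at hxy
    by_contra hcon
    have hx : coeff x u ≠ 0 := left_ne_zero_of_mul hcon
    have hy : coeff y v ≠ 0 := right_ne_zero_of_mul hcon
    have hx' : x.support ⊆ J := (coeff_eq_zero_of_vars hx).trans hu
    have hy' : Disjoint y.support J :=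
      Finset.disjoint_of_subset_left (coeff_eq_zero_of_vars hy) hv
    have e1 : x = m := by
      ext i
      have hi := congrArg (fun z : ℕ →₀ ℕ => z i) hxy
      simp only [Finsupp.add_apply] at hi
      by_cases hiJ : i ∈ J
      · have h1 : m' i = 0 := by
          by_contra h0
          exact Finset.disjoint_left.1 hm' (Finsupp.mem_support_iff.2 h0) hiJ
        have h2 : y i = 0 := by
          by_contra h0
          exact Finset.disjoint_left.1 hy' (Finsupp.mem_support_iff.2 h0) hiJ
        omega
      · have h1 : m i = 0 := by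
          by_contra h0
          exact hiJ (hm (Finsupp.mem_support_iff.2 h0))
        have h2 : x i = 0 := by
          by_contra h0
          exact hiJ (hx' (Finsupp.mem_support_iff.2 h0))
        omega
    have e2 : y = m' := by
      rw [e1] at hxy
      exact add_left_cancel hxy
    exact hne (by rw [e1, e2])
  · intro h
    exact absurd (by rw [Finset.HasAntidiagonal.mem_antidiagonal]) h

theorem span_of_rk {J : Finset ℕ} {τ : ℕ} {f : MvPolynomial ℕ ℚ} (h : Rk J τ f) {ι : Type}
    (S : Finset ι) (m : ι → ℕ →₀ ℕ) (hm : ∀ i ∈ S, (m i).support ⊆ J) (hinj : Set.InjOn m S)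
    (c : ι → MvPolynomial ℕ ℚ) (hc : ∀ i ∈ S, Disjoint (c i).vars J)
    (hf : f = ∑ i ∈ S, monomial (m i) 1 * c i) :
    ∃ A ⊆ S, A.card ≤ τ ∧ ∀ i ∈ S, c i ∈ Submodule.span ℚ (c '' (A : Set ι)) := by
  classical
  obtain ⟨u, v, hu, hv, hf'⟩ := h
  -- every `c i` is a combination of the `v a`
  have key : ∀ i ∈ S, c i = ∑ a, coeff (m i) (u a) • v a := by
    intro i hi
    ext m'
    rw [coeff_sum]
    simp only [coeff_smul, smul_eq_mul]
    by_cases hd : Disjoint m'.support J
    · have h1 : coeff (m i + m') f = coeff m' (c i) := by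
        rw [hf, coeff_sum]
        rw [Finset.sum_eq_single i]
        · rw [coeff_split (J := J) _ (hc i hi) (hm i hi) hd]
          · simp
          · rw [vars_monomial one_ne_zero]
            exact hm i hi
        · intro j hj hji
          rw [coeff_split (J := J) _ (hc j hj) (hm i hi) hd]
          · rw [coeff_monomial, if_neg, zero_mul]
            intro hmm
            exact hji (hinj hj hi hmm)
          · rw [vars_monomial one_ne_zero]
            exact hm j hj
        · intro hn
          exact absurd hi hn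
      have h2 : coeff (m i + m') f = ∑ a, coeff (m i) (u a) * coeff m' (v a) := by
        rw [hf', coeff_sum]
        refine Finset.sum_congr rfl fun a _ => ?_
        exact coeff_split (J := J) (hu a) (hv a) (hm i hi) hd
      rw [← h1, h2]
    · have h1 : ∀ w : MvPolynomial ℕ ℚ, Disjoint w.vars J → coeff m' w = 0 := by
        intro w hw
        by_contra h0
        exact hd (Finset.disjoint_of_subset_left (coeff_eq_zero_of_vars h0) hw)
      rw [h1 _ (hc i hi)]
      symm
      refine Finset.sum_eq_zero fun a _ => ?_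
      rw [h1 _ (hv a), mul_zero]
  have hspan : Submodule.span ℚ (c '' (S : Set ι)) ≤ Submodule.span ℚ (Set.range v) := by
    rw [Submodule.span_le]
    rintro _ ⟨i, hi, rfl⟩
    rw [key i hi]
    exact Submodule.sum_mem _ fun a _ =>
      Submodule.smul_mem _ _ (Submodule.subset_span ⟨a, rfl⟩)
  obtain ⟨b, hb, hbs, hbi⟩ := exists_linearIndependent ℚ (c '' (S : Set ι))
  have hbfin : b.Finite := (S.finite_toSet.image c).subset hb
  have : Fintype b := hbfin.fintype
  have hex : ∀ y : b, ∃ i, i ∈ S ∧ c i = y.val := by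
    intro y
    obtain ⟨i, hi, hy⟩ := hb y.2
    exact ⟨i, hi, hy⟩
  choose g hg using hex
  refine ⟨Finset.univ.image g, ?_, ?_, ?_⟩
  · intro i hi
    obtain ⟨y, _, rfl⟩ := Finset.mem_image.1 hi
    exact (hg y).1
  · refine Finset.card_image_le.trans ?_
    rw [Finset.card_univ]
    have h1 : Module.finrank ℚ (Submodule.span ℚ b) = Fintype.card b := by
      have := finrank_span_eq_card hbi
      rwa [Subtype.range_coe_subtype, Set.ofPred_mem_eq] at this
    have : Module.Finite ℚ (Submodule.span ℚ (Set.range v)) :=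
      FiniteDimensional.span_of_finite ℚ (Set.finite_range v)
    have h2 : Module.finrank ℚ (Submodule.span ℚ b) ≤
        Module.finrank ℚ (Submodule.span ℚ (Set.range v)) :=
      Submodule.finrank_mono (by rw [hbs]; exact hspan)
    have h3 : Module.finrank ℚ (Submodule.span ℚ (Set.range v)) ≤ Fintype.card (Fin τ) :=
      finrank_range_le_card v
    rw [Fintype.card_fin] at h3
    omega
  · intro i hi
    have h1 : c i ∈ Submodule.span ℚ (c '' (S : Set ι)) :=
      Submodule.subset_span ⟨i, hi, rfl⟩
    rw [← hbs] at h1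
    refine Submodule.span_mono ?_ h1
    intro y hy
    refine ⟨g ⟨y, hy⟩, ?_, (hg ⟨y, hy⟩).2⟩
    simp only [Finset.coe_image, Finset.coe_univ, Set.image_univ, Set.mem_range]
    exact ⟨⟨y, hy⟩, rfl⟩

end Pool.Agent.RP
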