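import Pool.Agent.RP.RunB
import Pool.Agent.RP.RkD

set_option autoImplicit false

/-!
RP-RkW. Rank and width.

Plan: for the run of a program from a vector `s` of length at most `W`: there are `R`, `u : Fin R → _` (variables in `J`), and for
every position `a` polynomials `v a : Fin R → _` (no variables in `J`) with `s_a = ∑_p u_p v_{a,p}` (the same `u` for all positions).
A layer of a variable not in `J` keeps `R` and `u`; a layer of a variable in `J` gives `R' = R * W * W`: index `(p, b, a')`,
`u' = entry(row a', column b) * u_p`, `v'_{a} = if a = a' then v_{b,p} else 0`. Layers of variables in `J` are at most `J.card` many, so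
`R ≤ W ^ (2 * J.card)` (`Rk.mono`-type padding). `tame_rk`: for `k = 0` the set `J` is empty (`rk_empty`), otherwise
`t ≤ (t + 1) ^ (2 * k)`, `(t + 1) ^ J.card ≤ (t + 1) ^ (2 * k)`.
-/

namespace Pool.Agent.RP

open MvPolynomial

/-- a decomposition of all entries of a vector with the same left factors -/
private def Qd (J : Finset ℕ) (R : ℕ) (s : List (MvPolynomial ℕ ℚ)) : Prop :=
  ∃ (ι : Type) (_ : Fintype ι) (u : ι → MvPolynomial ℕ ℚ) (v : ℕ → ι → MvPolynomial ℕ ℚ),
    Fintype.card ι = R ∧ (∀ p, (u p).vars ⊆ J) ∧ (∀ a p, Disjoint (v a p).vars J) ∧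
      ∀ a, s.getD a 0 = ∑ p, u p * v a p

private theorem entry_nil' {R : Type*} [CommRing R] (x : R) : entry [] x = 0 := by
  simp [entry]

private theorem rowMul_range {R : Type*} [CommRing R] (x : R) (row : List (List ℤ)) :
    ∀ (s : List R) (W : ℕ), s.length ≤ W →
      rowMul x row s = ∑ b ∈ Finset.range W, entry (row.getD b []) x * s.getD b 0 := by
  induction row with
  | nil =>
    intro s W _
    rw [rowMul_nil_left]
    symm
    apply Finset.sum_eq_zero
    intro b _
    rw [List.getD_nil, entry_nil', zero_mul]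
  | cons c row ih =>
    intro s W h
    cases s with
    | nil =>
      rw [rowMul_nil_right]
      symm
      apply Finset.sum_eq_zero
      intro b _
      rw [List.getD_nil, mul_zero]
    | cons a s =>
      cases W with
      | zero => simp at h
      | succ W =>
        rw [rowMul_cons, ih s W (by simpa using h), Finset.sum_range_succ']
        simp only [List.getD_cons_succ, List.getD_cons_zero]
        rw [add_comm]

private theorem vars_entry' (c : List ℤ) (i : ℕ) :
    (entry c (X i : MvPolynomial ℕ ℚ)).vars ⊆ {i} := by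
  classical
  unfold entry
  refine (vars_sum_subset _ _).trans ?_
  intro j hj
  rw [Finset.mem_biUnion] at hj
  obtain ⟨e, _, hj⟩ := hj
  have h1 := vars_mul _ _ hj
  rw [Finset.mem_union] at h1
  rcases h1 with h1 | h1
  · exfalso
    have h2 : ((c.getD e 0 : ℤ) : MvPolynomial ℕ ℚ) = C ((c.getD e 0 : ℤ) : ℚ) := by
      rw [map_intCast]
    rw [h2, vars_C] at h1
    exact Finset.notMem_empty _ h1
  · have h2 := vars_pow _ _ h1
    rwa [vars_X] at h2

private theorem getD_lay (i : ℕ) (L : Lay) (s : List (MvPolynomial ℕ ℚ)) (W : ℕ)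
    (hs : s.length ≤ W) (a : ℕ) :
    (L.map fun row => rowMul (X i) row s).getD a 0 =
      ∑ b ∈ Finset.range W, entry ((L.getD a []).getD b []) (X i) * s.getD b 0 := by
  by_cases ha : a < L.length
  · rw [List.getD_eq_getElem _ _ (by simpa using ha), List.getElem_map,
      List.getD_eq_getElem _ _ ha]
    exact rowMul_range _ _ s W hs
  · rw [List.getD_eq_default _ _ (by simpa using ha), List.getD_eq_default _ _ (by simpa using ha)]
    symm
    apply Finset.sum_eq_zero
    intro b _
    rw [List.getD_nil, entry_nil', zero_mul]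

private theorem Qd.out {J : Finset ℕ} {R W i : ℕ} {s : List (MvPolynomial ℕ ℚ)} (h : Qd J R s)
    (hs : s.length ≤ W) (L : Lay) (hi : i ∉ J) :
    Qd J R (L.map fun row => rowMul (X i) row s) := by
  classical
  obtain ⟨ι, hι, u, v, hR, hu, hv, hsv⟩ := h
  refine ⟨ι, hι, u, fun a p => ∑ b ∈ Finset.range W, entry ((L.getD a []).getD b []) (X i) *
    v b p, hR, hu, ?_, ?_⟩
  · intro a p
    rw [Finset.disjoint_left]
    intro j hj hjJ
    have h1 := vars_sum_subset _ _ hj
    rw [Finset.mem_biUnion] at h1
    obtain ⟨b, _, h1⟩ := h1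
    have h2 := vars_mul _ _ h1
    rw [Finset.mem_union] at h2
    rcases h2 with h2 | h2
    · have h3 := vars_entry' _ _ h2
      rw [Finset.mem_singleton] at h3
      exact hi (h3 ▸ hjJ)
    · exact Finset.disjoint_left.1 (hv b p) h2 hjJ
  · intro a
    rw [getD_lay i L s W hs a]
    simp only [hsv, Finset.mul_sum]
    rw [Finset.sum_comm]
    refine Finset.sum_congr rfl fun p _ => Finset.sum_congr rfl fun b _ => ?_
    ring

private theorem Qd.inn {J : Finset ℕ} {R W i : ℕ} {s : List (MvPolynomial ℕ ℚ)} (h : Qd J R s)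
    (hs : s.length ≤ W) (L : Lay) (hL : L.length ≤ W) (hi : i ∈ J) :
    Qd J (R * (W * W)) (L.map fun row => rowMul (X i) row s) := by
  classical
  obtain ⟨ι, hι, u, v, hR, hu, hv, hsv⟩ := h
  refine ⟨ι × (Fin W × Fin W), inferInstance,
    fun q => entry ((L.getD q.2.2 []).getD q.2.1 []) (X i) * u q.1,
    fun a q => if a = q.2.2 then v q.2.1 q.1 else 0, ?_, ?_, ?_, ?_⟩
  · rw [Fintype.card_prod, Fintype.card_prod, Fintype.card_fin, hR]
  · intro q j hj
    have h2 := vars_mul _ _ hj
    rw [Finset.mem_union] at h2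
    rcases h2 with h2 | h2
    · have h3 := vars_entry' _ _ h2
      rw [Finset.mem_singleton] at h3
      exact h3 ▸ hi
    · exact hu _ h2
  · intro a q
    dsimp only
    split_ifs with h1
    · exact hv _ _
    · simp
  · intro a
    rw [getD_lay i L s W hs a]
    by_cases ha : a < W
    · have h1 : ∀ q : ι × (Fin W × Fin W),
          (entry ((L.getD q.2.2 []).getD q.2.1 []) (X i) * u q.1) *
            (if a = q.2.2 then v q.2.1 q.1 else 0) =
          if q.2.2 = ⟨a, ha⟩ then entry ((L.getD a []).getD q.2.1 []) (X i) *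
            (u q.1 * v q.2.1 q.1) else 0 := by
        intro q
        by_cases h2 : a = q.2.2
        · have h3 : q.2.2 = ⟨a, ha⟩ := Fin.ext h2.symm
          rw [if_pos h2, if_pos h3, ← h2]
          ring
        · have h3 : ¬ q.2.2 = ⟨a, ha⟩ := fun h => h2 (by rw [h])
          rw [if_neg h2, if_neg h3, mul_zero]
      rw [Finset.sum_congr rfl (fun q _ => h1 q), Fintype.sum_prod_type]
      simp only [Fintype.sum_prod_type, Finset.sum_ite_eq', Finset.mem_univ, if_true]
      rw [Finset.sum_comm, Finset.sum_range]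
      refine Finset.sum_congr rfl fun b _ => ?_
      rw [hsv, Finset.mul_sum]
    · have h1 : ∀ q : ι × (Fin W × Fin W), ¬ a = q.2.2 := fun q h => ha (h ▸ q.2.2.2)
      rw [List.getD_eq_default L [] (by omega)]
      rw [Finset.sum_eq_zero (fun b _ => by rw [List.getD_nil, entry_nil', zero_mul])]
      symm
      apply Finset.sum_eq_zero
      intro q _
      beta_reduce
      rw [if_neg (h1 q), mul_zero]

private theorem Qd.run {J : Finset ℕ} {W : ℕ} (hW : 1 ≤ W) (g : Rb) :
    ∀ (i R : ℕ) (s : List (MvPolynomial ℕ ℚ)), Qd J R s → s.length ≤ W →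
      (∀ L ∈ g, L.length ≤ W) →
      ∃ R', R' ≤ R * W ^ (2 * (J.filter (fun j => i ≤ j)).card) ∧ Qd J R' (run X g i s) := by
  classical
  induction g with
  | nil =>
    intro i R s h _ _
    refine ⟨R, ?_, h⟩
    exact Nat.le_mul_of_pos_right R (Nat.pow_pos (by omega))
  | cons L g ih =>
    intro i R s h hs hL
    have hL0 : L.length ≤ W := hL L (List.mem_cons_self ..)
    have hL1 : ∀ L' ∈ g, L'.length ≤ W := fun L' h' => hL L' (List.mem_cons_of_mem _ h')
    have hs' : (L.map fun row => rowMul (X i : MvPolynomial ℕ ℚ) row s).length ≤ W := by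
      rw [List.length_map]; exact hL0
    rw [Pool.Agent.RP.run]
    by_cases hi : i ∈ J
    · obtain ⟨R', hR', hQ⟩ := ih (i + 1) _ _ (h.inn hs L hL0 hi) hs' hL1
      refine ⟨R', hR'.trans (le_of_eq ?_), hQ⟩
      have h1 : J.filter (fun j => i ≤ j) = insert i (J.filter (fun j => i + 1 ≤ j)) := by
        ext j
        rw [Finset.mem_insert, Finset.mem_filter, Finset.mem_filter]
        constructor
        · rintro ⟨hj, hij⟩
          rcases Nat.eq_or_lt_of_le hij with h2 | h2
          · exact Or.inl h2.symm
          · exact Or.inr ⟨hj, h2⟩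
        · rintro (rfl | ⟨hj, hij⟩)
          · exact ⟨hi, le_rfl⟩
          · exact ⟨hj, by omega⟩
      have h2 : i ∉ J.filter (fun j => i + 1 ≤ j) := by
        intro h3
        have := (Finset.mem_filter.1 h3).2
        omega
      rw [h1, Finset.card_insert_of_notMem h2]
      ring
    · obtain ⟨R', hR', hQ⟩ := ih (i + 1) _ _ (h.out hs L hi) hs' hL1
      refine ⟨R', hR'.trans (le_of_eq ?_), hQ⟩
      have h1 : J.filter (fun j => i ≤ j) = J.filter (fun j => i + 1 ≤ j) := by
        apply Finset.filter_congr
        intro j hj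
        constructor
        · intro hij
          rcases Nat.eq_or_lt_of_le hij with h2 | h2
          · exact absurd (h2 ▸ hj) hi
          · exact h2
        · intro hij
          omega
      rw [h1]

theorem rk_of_width (J : Finset ℕ) (W : ℕ) (hW : 1 ≤ W) (g : Rb) (h : ∀ L ∈ g, L.length ≤ W) :
    Rk J (W ^ (2 * J.card)) (val g) := by
  classical
  have h0 : Qd J 1 [1] := by
    refine ⟨Unit, inferInstance, fun _ => 1, fun a _ => if a = 0 then 1 else 0, ?_, ?_, ?_, ?_⟩
    · simp
    · intro p; simp
    · intro a p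
      dsimp only
      split_ifs <;> simp
    · intro a
      cases a with
      | zero => simp
      | succ a => simp
  obtain ⟨R', hR', ι, hι, u, v, hc, hu, hv, hsv⟩ := Qd.run hW g 0 1 [1] h0 (by simpa using hW) h
  have h1 : Rk J R' (val g) := by
    subst hc
    refine ⟨fun a => u ((Fintype.equivFin ι).symm a), fun a => v 0 ((Fintype.equivFin ι).symm a),
      fun a => hu _, fun a => hv _ _, ?_⟩
    rw [Equiv.sum_comp (Fintype.equivFin ι).symm (fun p => u p * v 0 p), ← hsv 0]
    unfold val out
    cases run (X : ℕ → MvPolynomial ℕ ℚ) g 0 [1] <;> simp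
  apply h1.mono
  rw [one_mul] at hR'
  refine hR'.trans (Nat.pow_le_pow_right (by omega) ?_)
  exact Nat.mul_le_mul_left _ (Finset.card_filter_le _ _)

/-- the bound for the ranks -/
def tau (k t : ℕ) : ℕ := (t + 1) ^ (2 * k)

theorem tame_rk {k t : ℕ} {g : Rb} (h : Tame k t g) {J : Finset ℕ} (hJ : J.card ≤ k) :
    Rk J (tau k t) (val g) := by
  unfold tau
  rcases h with h | h | h
  · refine (rk_of_degree J t (val g) fun i _ => h i).mono ?_
    exact Nat.pow_le_pow_right (by omega) (by omega)
  · refine (rk_of_width J (t + 1) (by omega) g fun L hL => (h L hL).trans (by omega)).mono ?_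
    exact Nat.pow_le_pow_right (by omega) (by omega)
  · rcases Nat.eq_zero_or_pos k with hk | hk
    · subst hk
      have hJ0 : J = ∅ := Finset.card_eq_zero.1 (by omega)
      rw [hJ0]
      exact (rk_empty _).mono (by simp)
    · refine (h J hJ).mono ?_
      calc t ≤ (t + 1) ^ 1 := by rw [pow_one]; omega
        _ ≤ (t + 1) ^ (2 * k) := Nat.pow_le_pow_right (by omega) (by omega)

end Pool.Agent.RP
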