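import Pool.Agent.RP.Exp
import Pool.Agent.RP.RkW
import Pool.Agent.RP.Dsc
import Pool.Agent.Helper7.T3.Coef

set_option autoImplicit false

/-!
RP-H2. The coefficients of a shift of a tame program lie in a small algebra.

Plan: `G` is a program of the list `prg Ps` (padded) with `Rk J' (tau k t) (val G)`, `J'` = the image of `J` (as naturals), `J'.card ≤ k`,
`js = J'.toList`. `out_expand_list` in the ring `MvPolynomial ℕ ℚ` gives `val G = ∑_e monomial * val (cfs (js.zip e) G)`; `span_of_rk` (index
type: lists `e`, `S` = the finset of the lists in `lpow (range D) js.length`, `m e = ∑ single`), `vars_cfs`: a set `A` of at most `tau k t`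
lists with all `val (cfs (js.zip e) G)` in the span. Pass to `valF n` by injectivity of `rename Fin.val` (`rename_valF`). The same
expansion for `valF n G` (with `x i = X ⟨i, _⟩`), apply the ring homomorphism `shf J` (`out_hom`; `shf` and `coefSub` are in
`Helper7/T3/Coef.lean`): `shf J (X v) = C (X v) + ∑ ..`; for `v` in the image of `J` it has coefficients in the algebra generated by the
`X v`; `shf J (valF n (cfs (js.zip e) G)) = C (valF n (cfs (js.zip e) G))` by `out_cfs_congr` (the images of `X v`, `v` not in the image of `J`,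
are `C (X v)`) or by `shf_eq_C` and `vars_cfs`. Sums and products stay in the subalgebra `coefSub (adjoin A') r`. The set `A'` consists
of the `valF n (cfs (js.zip e ++ padding) G)`, `e ∈ A`, and of `valF n (cfs padding (varR (nL Ps) j))`, `j ∈ J'` (`cfs_append_out` with the
pair `(n, 0)` repeated up to length `k`): all are members of `As k 0 Ps` (`mem_As` with `V = []`).
-/

namespace Pool.Agent.RP

open MvPolynomial Pool.Agent.Helper6.SP
open Pool.Agent.Helper7 (shf coefSub coefSub_mono C_mem_coefSub shf_eq_C)

/-! ### lists of exponents -/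

theorem nodup_lpow {β : Type} {P : List β} (hP : P.Nodup) (j : ℕ) : (lpow P j).Nodup := by
  induction j with
  | zero => simp [lpow]
  | succ j ih =>
    simp only [lpow]
    rw [List.nodup_flatMap]
    refine ⟨fun m _ => hP.map fun a b h => (List.cons.inj h).1, ?_⟩
    refine ih.imp ?_
    intro m m' hmm' x hx hx'
    obtain ⟨p, _, rfl⟩ := List.mem_map.mp hx
    obtain ⟨p', _, h⟩ := List.mem_map.mp hx'
    exact hmm' (List.cons.inj h).2.symm

/-- the exponent vector of a list of pairs -/
noncomputable def expo (l : List (ℕ × ℕ)) : ℕ →₀ ℕ := (l.map fun p => Finsupp.single p.1 p.2).sum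

theorem expo_cons (p : ℕ × ℕ) (l : List (ℕ × ℕ)) :
    expo (p :: l) = Finsupp.single p.1 p.2 + expo l := by
  simp [expo]

theorem monomial_expo (l : List (ℕ × ℕ)) :
    (monomial (expo l) 1 : MvPolynomial ℕ ℚ) = (l.map fun p => X p.1 ^ p.2).prod := by
  induction l with
  | nil => simp [expo]
  | cons p l ih =>
    rw [expo_cons, List.map_cons, List.prod_cons, ← ih, X_pow_eq_monomial, monomial_mul, one_mul]

theorem expo_apply_eq_zero (l : List (ℕ × ℕ)) (j : ℕ) (h : ∀ p ∈ l, p.1 ≠ j) : expo l j = 0 := by
  induction l with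
  | nil => simp [expo]
  | cons p l ih =>
    rw [expo_cons, Finsupp.add_apply, ih fun q hq => h q (List.mem_cons_of_mem _ hq),
      Finsupp.single_eq_of_ne (h p List.mem_cons_self).symm]

theorem expo_inj (js : List ℕ) (hnd : js.Nodup) : ∀ e e' : List ℕ, e.length = js.length →
    e'.length = js.length → expo (js.zip e) = expo (js.zip e') → e = e' := by
  induction js with
  | nil =>
    intro e e' he he' _
    rw [List.eq_nil_of_length_eq_zero he, List.eq_nil_of_length_eq_zero he']
  | cons j js ih =>
    intro e e' he he' h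
    obtain ⟨hj, hnd'⟩ := List.nodup_cons.mp hnd
    cases e with
    | nil => simp at he
    | cons a e =>
      cases e' with
      | nil => simp at he'
      | cons a' e' =>
        rw [List.zip_cons_cons, List.zip_cons_cons, expo_cons, expo_cons] at h
        have hz : ∀ u : List ℕ, expo (js.zip u) j = 0 := fun u =>
          expo_apply_eq_zero _ _ fun p hp => by
            rintro rfl
            exact hj (List.of_mem_zip hp).1
        have h1 := DFunLike.congr_fun h j
        rw [Finsupp.add_apply, Finsupp.add_apply, hz, hz] at h1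
        have h2 : a = a' := by simpa using h1
        subst h2
        have h3 := add_left_cancel h
        rw [ih hnd' e e' (by simpa using he) (by simpa using he') h3]

/-! ### members of the list `As` -/

theorem mem_prs_out (Ps : List Rb) : ((nL Ps).length, 0) ∈ prs Ps := by
  simp [prs]

theorem mem_prs {Ps : List Rb} {j e : ℕ} (hj : j < (nL Ps).length)
    (he : e < (DL Ps).length) : (j, e) ∈ prs Ps := by
  refine List.mem_cons_of_mem _ (List.mem_flatMap.mpr ⟨j, List.mem_range.mpr hj, ?_⟩)
  exact List.mem_map.mpr ⟨e, List.mem_range.mpr he, rfl⟩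

theorem cfs_mem_As {k : ℕ} {Ps : List Rb} {g : Rb} (hg : g ∈ prg Ps)
    (hlen : g.length ≤ (nL Ps).length) (r : List (ℕ × ℕ)) (hr : r.length ≤ k)
    (h : ∀ p ∈ r, p ∈ prs Ps) : cfs r g ∈ As k 0 Ps := by
  refine mem_As.mpr ⟨g, hg, r ++ List.replicate (k - r.length) ((nL Ps).length, 0), ?_, ?_, [],
    rfl, by simp, ?_⟩
  · rw [List.length_append, List.length_replicate]; omega
  · intro p hp
    rcases List.mem_append.mp hp with h1 | h1
    · exact h p h1
    · rw [(List.mem_replicate.mp h1).2]
      exact mem_prs_out Ps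
  · rw [cfs_append_out _ _ _ _ hlen]
    rfl

theorem padR_mem_prg {Ps : List Rb} {G : Rb} (hG : G ∈ Ps) :
    padR (nL Ps) G ∈ prg Ps :=
  List.mem_append_left _ (List.mem_map_of_mem hG)

theorem varR_mem_prg {Ps : List Rb} {j : ℕ} (hj : j < (nL Ps).length) :
    varR (nL Ps) j ∈ prg Ps :=
  List.mem_append_right _ (List.mem_append_left _ (List.mem_map_of_mem (List.mem_range.mpr hj)))

theorem h2_one (k t : ℕ) (Ps : List Rb) {G : Rb} (hG : G ∈ Ps) (ht : Tame k t G)
    (r : ℕ) (hr : r ≤ k) (J : Fin r → Fin (nL Ps).length) :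
    ∃ A : Finset (MvPolynomial (Fin (nL Ps).length) ℚ), A.card ≤ tau k t + k ∧
      (∀ a ∈ A, ∃ G' ∈ As k 0 Ps, a = valF (nL Ps).length G') ∧
      shf J (valF (nL Ps).length G) ∈
        coefSub (Algebra.adjoin ℚ (A : Set (MvPolynomial (Fin (nL Ps).length) ℚ))) r := by
  classical
  set D := (DL Ps).length with hDdef
  have hD : 0 < D := by rw [hDdef]; simp [DL]
  set J' : Finset ℕ := Finset.univ.image (fun j => (J j : ℕ)) with hJ'
  have hJcard : J'.card ≤ r := Finset.card_image_le.trans (by simp)
  set js : List ℕ := J'.toList with hjs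
  have hnd : js.Nodup := J'.nodup_toList
  have hlen : js.length = J'.card := J'.length_toList
  have hmemjs : ∀ j, j ∈ js ↔ ∃ i, (J i : ℕ) = j := by
    intro j
    rw [hjs, Finset.mem_toList, hJ', Finset.mem_image]
    simp
  have hjlt : ∀ j ∈ js, j < (nL Ps).length := by
    intro j hj
    obtain ⟨i, rfl⟩ := (hmemjs j).mp hj
    exact (J i).2
  set g : Rb := padR (nL Ps) G with hg
  have hglen : g.length = (nL Ps).length := length_padR _ _ (length_input hG)
  have hgCL : CL D g := CL_padR hD _ (CL_input hG)
  have hgj : ∀ j ∈ js, j < g.length := fun j hj => by rw [hglen]; exact hjlt j hj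
  have hgprg : g ∈ prg Ps := padR_mem_prg hG
  set P : List (List ℕ) := lpow (List.range D) js.length with hP
  have hPnd : P.Nodup := nodup_lpow (List.nodup_range) _
  have hPmem : ∀ e, e ∈ P.toFinset ↔ e.length = js.length ∧ ∀ a ∈ e, a < D := by
    intro e
    rw [List.mem_toFinset, hP, mem_lpow]
    simp
  have hclen : ∀ e, (cfs (js.zip e) g).length = (nL Ps).length := fun e => by rw [length_cfs, hglen]
  -- the expansion of the polynomial
  have hexp : val G = ∑ e ∈ P.toFinset, monomial (expo (js.zip e)) 1 *
      val (cfs (js.zip e) g) := by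
    have h1 : val G = out X g := (out_padR X (nL Ps) G).symm
    rw [h1, out_expand_list X js D hD g hgj hnd hgCL, ← hP, List.sum_toFinset _ hPnd]
    congr 1
    refine List.map_congr_left fun e _ => ?_
    rw [monomial_expo]
    rfl
  have hJr : J'.card ≤ k := hJcard.trans hr
  have hrk : Rk J' (tau k t) (val G) := tame_rk ht hJr
  have hsupp : ∀ e ∈ P.toFinset, (expo (js.zip e)).support ⊆ J' := by
    intro e _ j hj
    by_contra hjn
    rw [Finsupp.mem_support_iff] at hj
    apply hj
    refine expo_apply_eq_zero _ _ fun p hp => ?_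
    rintro rfl
    have := (List.of_mem_zip hp).1
    rw [hjs, Finset.mem_toList] at this
    exact hjn this
  have hinj : Set.InjOn (fun e => expo (js.zip e)) (P.toFinset : Set (List ℕ)) := by
    intro e he e' he' h
    exact expo_inj js hnd e e' ((hPmem e).mp he).1 ((hPmem e').mp he').1 h
  have hdisj : ∀ e ∈ P.toFinset, Disjoint (val (cfs (js.zip e) g)).vars J' := by
    intro e he
    rw [Finset.disjoint_left]
    intro j hj hjJ
    have h1 : j ∈ js := by rw [hjs, Finset.mem_toList]; exact hjJ
    exact vars_cfs js e ((hPmem e).mp he).1 g j h1 hj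
  obtain ⟨A, hAsub, hAcard, hAspan⟩ := span_of_rk hrk P.toFinset (fun e => expo (js.zip e))
    hsupp hinj (fun e => val (cfs (js.zip e) g)) hdisj hexp
  -- pass to finitely many variables
  set cF : List ℕ → MvPolynomial (Fin (nL Ps).length) ℚ := fun e => valF (nL Ps).length (cfs (js.zip e) g) with hcF
  have hren : ∀ e, rename Fin.val (cF e) = val (cfs (js.zip e) g) := fun e =>
    rename_valF (nL Ps).length _ (hclen e).le
  have hspanF : ∀ e ∈ P.toFinset, cF e ∈ Submodule.span ℚ (cF '' (A : Set (List ℕ))) := by
    intro e he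
    have h1 := hAspan e he
    have h2 : (fun e => val (cfs (js.zip e) g)) '' (A : Set (List ℕ)) =
        (rename Fin.val : MvPolynomial (Fin (nL Ps).length) ℚ →ₐ[ℚ] MvPolynomial ℕ ℚ).toLinearMap ''
          (cF '' (A : Set (List ℕ))) := by
      rw [Set.image_image]
      refine Set.image_congr fun e _ => ?_
      exact (hren e).symm
    rw [h2, ← Submodule.map_span] at h1
    obtain ⟨y, hy, hy2⟩ := (Submodule.mem_map).mp h1
    have h3 : rename Fin.val y = rename Fin.val (cF e) := by
      rw [hren]
      exact hy2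
    have h4 : y = cF e := rename_injective _ Fin.val_injective h3
    rw [← h4]
    exact hy
  set A' : Finset (MvPolynomial (Fin (nL Ps).length) ℚ) := A.image cF ∪
    Finset.univ.image (fun j => (X (J j) : MvPolynomial (Fin (nL Ps).length) ℚ)) with hA'
  refine ⟨A', ?_, ?_, ?_⟩
  · refine (Finset.card_union_le _ _).trans ?_
    have h1 : (A.image cF).card ≤ tau k t := Finset.card_image_le.trans hAcard
    have h2 : (Finset.univ.image
        (fun j => (X (J j) : MvPolynomial (Fin (nL Ps).length) ℚ))).card ≤ r :=
      Finset.card_image_le.trans (by simp)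
    omega
  · intro a ha
    rcases Finset.mem_union.mp ha with h1 | h1
    · obtain ⟨e, he, rfl⟩ := Finset.mem_image.mp h1
      have he2 := (hPmem e).mp (hAsub he)
      refine ⟨cfs (js.zip e) g, cfs_mem_As hgprg hglen.le _ ?_ ?_, rfl⟩
      · rw [List.length_zip, he2.1, min_self, hlen]
        exact hJr
      · intro p hp
        have h3 := List.of_mem_zip (show (p.1, p.2) ∈ js.zip e from hp)
        exact mem_prs (hjlt _ h3.1) (he2.2 _ h3.2)
    · obtain ⟨j, _, rfl⟩ := Finset.mem_image.mp h1
      refine ⟨cfs [] (varR (nL Ps) (J j)), cfs_mem_As (varR_mem_prg (J j).2)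
        (length_varR _ _).le _ (Nat.zero_le _) (by simp), ?_⟩
      show X (J j) = out (fun i => if h : i < (nL Ps).length then X ⟨i, h⟩ else 0) (varR (nL Ps) (J j))
      rw [out_varR _ _ (J j).2, dif_pos (J j).2]
  · have hAS : ∀ a ∈ A', a ∈ Algebra.adjoin ℚ (A' : Set (MvPolynomial (Fin (nL Ps).length) ℚ)) :=
      fun a ha => Algebra.subset_adjoin ha
    have hspan_le : ∀ z ∈ Submodule.span ℚ (cF '' (A : Set (List ℕ))),
        z ∈ Algebra.adjoin ℚ (A' : Set (MvPolynomial (Fin (nL Ps).length) ℚ)) := by
      have h0 : Submodule.span ℚ (cF '' (A : Set (List ℕ))) ≤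
          Subalgebra.toSubmodule (Algebra.adjoin ℚ (A' : Set (MvPolynomial (Fin (nL Ps).length) ℚ))) := by
        rw [Submodule.span_le]
        rintro _ ⟨e, he, rfl⟩
        refine hAS _ ?_
        rw [hA']
        exact Finset.mem_union_left _ (Finset.mem_image_of_mem _ he)
      exact fun z hz => h0 hz
    generalize Algebra.adjoin ℚ (A' : Set (MvPolynomial (Fin (nL Ps).length) ℚ)) = S at hAS hspan_le ⊢
    have hXS : ∀ j : Fin r, (X (J j) : MvPolynomial (Fin (nL Ps).length) ℚ) ∈ S := by
      intro j
      refine hAS _ ?_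
      rw [hA']
      exact Finset.mem_union_right _ (Finset.mem_image_of_mem _ (Finset.mem_univ j))
    have hcS : ∀ e ∈ P, cF e ∈ S := fun e he =>
      hspan_le _ (hspanF e (List.mem_toFinset.mpr he))
    clear hspan_le hAS hspanF
    set x : ℕ → MvPolynomial (Fin (nL Ps).length) ℚ := fun i => if h : i < (nL Ps).length then X ⟨i, h⟩ else 0 with hx
    obtain ⟨Ψ, hΨ⟩ : ∃ Ψ, Ψ = shf J := ⟨_, rfl⟩
    have hΨX : ∀ v, Ψ (X v) = C (X v) + ∑ j, if J j = v then X j else 0 := by
      intro v
      rw [hΨ]
      exact Pool.Agent.Helper7.shf_X J v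
    rw [← hΨ]
    clear hΨ
    obtain ⟨y, hy⟩ : ∃ y : ℕ → MvPolynomial (Fin r) (MvPolynomial (Fin (nL Ps).length) ℚ),
      y = fun i => Ψ (x i) := ⟨_, rfl⟩
    have h1 : Ψ (valF (nL Ps).length G) = out y g := by
      have h2 : valF (nL Ps).length G = out x g := (out_padR x (nL Ps) G).symm
      rw [h2, hy]
      exact out_hom Ψ.toRingHom x g
    have hyout : ∀ i, i ∉ js → y i = C (x i) := by
      intro i hi
      rw [hy, hx]
      by_cases h : i < (nL Ps).length
      · simp only [dif_pos h]
        rw [hΨX]
        have : ∑ j, (if J j = ⟨i, h⟩ then (X j :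
            MvPolynomial (Fin r) (MvPolynomial (Fin (nL Ps).length) ℚ)) else 0) = 0 := by
          apply Finset.sum_eq_zero
          intro j _
          rw [if_neg]
          intro h3
          apply hi
          rw [hmemjs]
          exact ⟨j, by rw [h3]⟩
        rw [this, add_zero]
      · simp only [dif_neg h, map_zero]
    have hyin : ∀ i, i ∈ js → y i ∈ coefSub S r := by
      intro i hi
      obtain ⟨j0, rfl⟩ := (hmemjs i).mp hi
      rw [hy, hx]
      simp only [dif_pos (J j0).2]
      rw [hΨX]
      refine Subalgebra.add_mem _ (C_mem_coefSub (hXS j0)) (Subalgebra.sum_mem _ fun j _ => ?_)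
      split_ifs
      · exact Pool.Agent.Helper7.X_mem_coefSub j
      · exact Subalgebra.zero_mem _
    have hcF2 : ∀ e ∈ P, out y (cfs (js.zip e) g) = C (cF e) := by
      intro e he
      have he2 := (hPmem e).mp (List.mem_toFinset.mpr he)
      rw [out_cfs_congr (y := fun i => C (x i)) js e he2.1 g hyout]
      exact (out_hom (C : MvPolynomial (Fin (nL Ps).length) ℚ →+* _) x _).symm
    have hmain : out y g ∈ coefSub S r := by
      rw [out_expand_list y js D hD g hgj hnd hgCL]
      refine list_sum_mem ?_
      intro z hz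
      obtain ⟨e, he, rfl⟩ := List.mem_map.mp hz
      refine Subalgebra.mul_mem _ (list_prod_mem ?_) ?_
      · intro w hw
        obtain ⟨p, hp, rfl⟩ := List.mem_map.mp hw
        exact Subalgebra.pow_mem _ (hyin _ (List.of_mem_zip
          (show (p.1, p.2) ∈ js.zip e from hp)).1) _
      · rw [hcF2 e he]
        exact C_mem_coefSub (hcS e he)
    rw [h1]
    exact hmain

/-- a padded input program without any change is a member -/
theorem input_mem_As (k : ℕ) (Ps : List Rb) {G : Rb} (hG : G ∈ Ps) :
    ∃ G' ∈ As k 0 Ps, valF (nL Ps).length G' = valF (nL Ps).length G :=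
  ⟨cfs [] (padR (nL Ps) G), cfs_mem_As (padR_mem_prg hG)
    (length_padR _ _ (length_input hG)).le _ (Nat.zero_le _) (by simp), out_padR _ _ _⟩

end Pool.Agent.RP
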