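import Pool.Agent.Helper8.Occ.Defs

set_option autoImplicit false

/-!
RP-OccN. DEFINITION: formulas of bounded depth and bounded occurrence over a class of leaves, for
polynomials in infinitely many variables, and the transfer to finitely many variables.
-/

namespace Pool.Agent.RP

open MvPolynomial

/-- `Occ κ 𝓛 Δ f`: the polynomial `f` is computed by a formula of depth `Δ` over leaves in `𝓛`. The
gates are
* sums of any number of polynomials such that every variable occurs in at most `κ` of them;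
* products of powers, with arbitrary exponents, of any number of polynomials such that every
  variable occurs in at most `κ` of them;
* arbitrary polynomials, of any degree, in at most `κ` polynomials. -/
inductive Occ (κ : ℕ) (𝓛 : MvPolynomial ℕ ℚ → Prop) : ℕ → MvPolynomial ℕ ℚ → Prop
  | leaf {f : MvPolynomial ℕ ℚ} (hf : 𝓛 f) : Occ κ 𝓛 0 f
  | sum {Δ m : ℕ} (b : Fin m → MvPolynomial ℕ ℚ) (hb : ∀ l, Occ κ 𝓛 Δ (b l))
      (hκ : ∀ v, (Finset.univ.filter fun l => v ∈ (b l).vars).card ≤ κ) :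
      Occ κ 𝓛 (Δ + 1) (∑ l, b l)
  | prod {Δ m : ℕ} (b : Fin m → MvPolynomial ℕ ℚ) (hb : ∀ l, Occ κ 𝓛 Δ (b l))
      (hκ : ∀ v, (Finset.univ.filter fun l => v ∈ (b l).vars).card ≤ κ) (e : Fin m → ℕ) :
      Occ κ 𝓛 (Δ + 1) (∏ l, b l ^ e l)
  | comp {Δ m : ℕ} (b : Fin m → MvPolynomial ℕ ℚ) (hb : ∀ l, Occ κ 𝓛 Δ (b l))
      (hm : m ≤ κ) (p : MvPolynomial (Fin m) ℚ) : Occ κ 𝓛 (Δ + 1) (aeval b p)

theorem vars_rename_val {n : ℕ} (f : MvPolynomial (Fin n) ℚ) (v : Fin n) :
    v.val ∈ (rename Fin.val f).vars ↔ v ∈ f.vars := by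
  classical
  constructor
  · intro h
    obtain ⟨w, hw, hwv⟩ := Finset.mem_image.1 (vars_rename Fin.val f h)
    rwa [← Fin.ext hwv]
  · intro h
    obtain ⟨d, hd, hv⟩ := (mem_vars_iff_mem_support v).1 h
    refine (mem_vars_iff_mem_support _).2 ⟨d.mapDomain Fin.val, ?_, ?_⟩
    · rw [mem_support_iff, coeff_rename_mapDomain _ Fin.val_injective]
      exact mem_support_iff.1 hd
    · rw [Finsupp.mem_support_iff, Finsupp.mapDomain_apply Fin.val_injective]
      exact Finsupp.mem_support_iff.1 hv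

theorem Occ.toFin {n κ : ℕ} {𝓛 : MvPolynomial ℕ ℚ → Prop}
    {𝓛' : MvPolynomial (Fin n) ℚ → Prop}
    (hL : ∀ g, 𝓛 g → ∃ g', 𝓛' g' ∧ rename Fin.val g' = g) {Δ : ℕ} {f : MvPolynomial ℕ ℚ}
    (h : Occ κ 𝓛 Δ f) : ∃ f' : MvPolynomial (Fin n) ℚ, rename Fin.val f' = f ∧
      Pool.Agent.Helper8.Occ.OccFormula κ 𝓛' Δ f' := by
  induction h with
  | leaf hf =>
    obtain ⟨g', h1, h2⟩ := hL _ hf
    exact ⟨g', h2, .leaf h1⟩
  | sum b _ hκ ih =>
    choose b' h1 h2 using ih
    refine ⟨∑ l, b' l, by rw [map_sum]; exact Finset.sum_congr rfl fun l _ => h1 l,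
      .sum b' h2 fun v => ?_⟩
    refine le_trans (le_of_eq ?_) (hκ v.val)
    congr 1
    refine Finset.filter_congr fun l _ => ?_
    rw [← h1 l, vars_rename_val]
  | prod b _ hκ e ih =>
    choose b' h1 h2 using ih
    refine ⟨∏ l, b' l ^ e l, by
      rw [map_prod]
      exact Finset.prod_congr rfl fun l _ => by rw [map_pow, h1 l], .prod b' h2 (fun v => ?_) e⟩
    refine le_trans (le_of_eq ?_) (hκ v.val)
    congr 1
    refine Finset.filter_congr fun l _ => ?_
    rw [← h1 l, vars_rename_val]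
  | comp b _ hm p ih =>
    choose b' h1 h2 using ih
    refine ⟨aeval b' p, ?_, .comp b' h2 hm p⟩
    rw [← AlgHom.comp_apply]
    have h3 : (rename Fin.val).comp (aeval b') = (aeval b : MvPolynomial _ ℚ →ₐ[ℚ] _) := by
      apply MvPolynomial.algHom_ext
      intro l
      rw [AlgHom.comp_apply, aeval_X, aeval_X, h1]
    rw [h3]

theorem Occ.mono {κ Δ : ℕ} {𝓛 𝓛' : MvPolynomial ℕ ℚ → Prop} (h : ∀ g, 𝓛 g → 𝓛' g)
    {f : MvPolynomial ℕ ℚ} (hf : Occ κ 𝓛 Δ f) : Occ κ 𝓛' Δ f := by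
  induction hf with
  | leaf hf => exact .leaf (h _ hf)
  | sum b _ hκ ih => exact .sum b ih hκ
  | prod b _ hκ e ih => exact .prod b ih hκ e
  | comp b _ hm p ih => exact .comp b ih hm p

end Pool.Agent.RP
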