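import Pool.Agent.RP.H2
import Pool.Agent.RP.OccN
import Pool.Agent.Helper8.Occ.Main
import Pool.Agent.Helper6.SP.Hit

set_option autoImplicit false

/-!
RP-Hit. A point where the minors do not vanish, plus the generator, hits the composition.

Plan: `n = (nL Ps).length`; `occ_hit` (`Helper8/Occ/Main.lean`) with `σ = PEmpty`, `c = 0`, `γ i = C (v i)`,
`𝓛 = {g | ∃ ρ ∈ Ps, Tame k t ρ ∧ g = valF n ρ}`, `𝓛' = {g | ∃ ρ ∈ As k 0 Ps, g = valF n ρ}` (`input_mem_As`, `zero_mem`), `t₀ = tau k t + k`;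
`H2` is `h2_one`. `H1 γ 0 (Dc 𝓛' Δ) N`: `pd V (valF n G) = valF n (ders (V.map Fin.val) G)` (injectivity of `rename Fin.val`, `pderiv_rename`,
`rename_valF`, `val_ders`, `length_As`), so the entries are the values of members of `As k Δ Ps` (`ders_mem`; `choose` them); the minor is the
preimage of a minor of `hv` (`AlgHom.map_det`/`RingHom.map_det`, `pderiv_rename`); `Phi γ 0 f = C (eval v f)` (`genPoly n 0 = 0`), see
`eval_Phi` (`Helper5/V/Shift.lean`), `aeval_C_eq` (`Helper6/SP/Hit.lean`). The polynomials `T i`: choose `T' i` with `rename Fin.val (T' i) = T i` in the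
submonoid generated by `Occ.F κ 𝓛 Δ` (`Occ.toFin`, `Submonoid.closure_induction`); algebraic independence of `T'` gives that of `T`
(injective algebra homomorphism `rename Fin.val`: `AlgebraicIndependent.map'`); `F` is in the image of `Algebra.adjoin ℚ (Set.range T')`
(`AlgHom.map_adjoin`). Then `eval_Phi` and a point `w` with `eval w (Phi ..) ≠ 0` (`exists_eval_ne_zero` in `Helper8/Occ/H1.lean`).
-/

namespace Pool.Agent.RP

open MvPolynomial Pool.Agent.Helper6.SP

/-- the number of the local parameters of the leaves -/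
def t0 (k t : ℕ) : ℕ := tau k t + k

/-- the size of the minors -/
def TT (κ k t Δ : ℕ) : ℕ := Pool.Agent.Helper8.Occ.minors κ k (t0 k t) Δ

/-- the number of the seeds -/
def EE (κ k t Δ : ℕ) : ℕ := Pool.Agent.Helper8.Occ.extra κ k (t0 k t) Δ

private theorem rename_pd {n : ℕ} (L : List (Fin n)) (f : MvPolynomial (Fin n) ℚ) :
    rename Fin.val (Pool.Agent.Helper8.Occ.pd L f) =
      (L.map Fin.val).foldr (fun j f => pderiv j f) (rename Fin.val f) := by
  induction L with
  | nil => rfl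
  | cons v L ih =>
    rw [Pool.Agent.Helper8.Occ.pd_cons, List.map_cons, List.foldr_cons, ← ih]
    exact (pderiv_rename Fin.val_injective v (Pool.Agent.Helper8.Occ.pd L f)).symm

theorem hit (κ k t Δ : ℕ) (Ps : List Rb) (v : ℕ → ℚ)
    (hv : ∀ m ≤ TT κ k t Δ, ∀ (I : Fin m → Rb) (V : Fin m → ℕ), (∀ i, I i ∈ As k Δ Ps) →
      (∀ i, V i < (nL Ps).length) → (Matrix.of fun i j => pderiv (V j) (val (I i))).det ≠ 0 →
      eval v (Matrix.of fun i j => pderiv (V j) (val (I i))).det ≠ 0)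
    {N : ℕ} (T : Fin N → MvPolynomial ℕ ℚ)
    (hT : ∀ i, T i ∈ Submonoid.closure
      {f | Occ κ (fun g => ∃ ρ ∈ Ps, Tame k t ρ ∧ g = val ρ) Δ f})
    (htr : ∀ b : Finset (Fin N), AlgebraicIndepOn ℚ T (b : Set (Fin N)) → b.card ≤ k)
    (F : MvPolynomial ℕ ℚ) (hF : F ∈ Algebra.adjoin ℚ (Set.range T)) (hne : F ≠ 0) :
    ∃ (f : MvPolynomial (Fin (nL Ps).length) ℚ)
      (s : Fin (EE κ k t Δ) ⊕ Fin (EE κ k t Δ) → ℚ), rename Fin.val f = F ∧
      eval (fun i : Fin (nL Ps).length =>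
        v i.val + Pool.Agent.Helper5.gen (nL Ps).length (EE κ k t Δ) s i) f ≠ 0 := by
  classical
  have hinj : Function.Injective
      (rename Fin.val : MvPolynomial (Fin (nL Ps).length) ℚ → MvPolynomial ℕ ℚ) :=
    rename_injective _ Fin.val_injective
  set 𝓛 : Set (MvPolynomial (Fin (nL Ps).length) ℚ) :=
    {g | ∃ ρ ∈ Ps, Tame k t ρ ∧ g = valF (nL Ps).length ρ} with h𝓛
  set 𝓛' : Set (MvPolynomial (Fin (nL Ps).length) ℚ) :=
    {g | ∃ ρ ∈ As k 0 Ps, g = valF (nL Ps).length ρ} with h𝓛'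
  have hex : ∀ i, ∃ T' : MvPolynomial (Fin (nL Ps).length) ℚ, rename Fin.val T' = T i ∧
      T' ∈ Submonoid.closure (Pool.Agent.Helper8.Occ.F κ 𝓛 Δ) := by
    intro i
    have h1 := hT i
    generalize T i = P at h1
    induction h1 using Submonoid.closure_induction with
    | mem x hx =>
      obtain ⟨f', h1, h2⟩ := Occ.toFin (n := (nL Ps).length) (𝓛' := fun g => g ∈ 𝓛) (by
        rintro g ⟨ρ, hρ, ht, rfl⟩
        exact ⟨valF (nL Ps).length ρ, ⟨ρ, hρ, ht, rfl⟩, rename_valF _ ρ (length_input hρ)⟩) hx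
      exact ⟨f', h1, Submonoid.subset_closure h2⟩
    | one => exact ⟨1, map_one _, Submonoid.one_mem _⟩
    | mul x y _ _ ihx ihy =>
      obtain ⟨a, ha1, ha2⟩ := ihx
      obtain ⟨b, hb1, hb2⟩ := ihy
      exact ⟨a * b, by rw [map_mul, ha1, hb1], Submonoid.mul_mem _ ha2 hb2⟩
  choose T' hT1 hT2 using hex
  obtain ⟨f, hf, hfF⟩ : ∃ f ∈ Algebra.adjoin ℚ (Set.range T'), rename Fin.val f = F := by
    have h1 : Set.range T = (rename Fin.val :
        MvPolynomial (Fin (nL Ps).length) ℚ →ₐ[ℚ] MvPolynomial ℕ ℚ) '' Set.range T' := by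
      rw [← Set.range_comp]
      congr 1
      funext i
      exact (hT1 i).symm
    rw [h1, ← AlgHom.map_adjoin] at hF
    obtain ⟨f, hf, hfF⟩ := hF
    exact ⟨f, hf, hfF⟩
  have hf0 : f ≠ 0 := by
    intro h0
    apply hne
    rw [← hfF, h0, map_zero]
  have key := Pool.Agent.Helper8.Occ.occ_hit (σ := PEmpty.{1}) (k := k) (κ := κ) (Δ := Δ)
    (t₀ := t0 k t) (c := 0) (fun i => (C (v i.val) : MvPolynomial PEmpty.{1} ℚ)) 𝓛 𝓛' ?_ ?_ ?_ ?_
    T' hT2 ?_ f hf hf0
  · rw [Nat.zero_add] at key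
    obtain ⟨w, hw⟩ := Pool.Agent.Helper8.Occ.exists_eval_ne_zero key
    rw [VF.eval_Phi] at hw
    simp only [eval_C] at hw
    exact ⟨f, _, hfF, hw⟩
  · -- inclusion of the classes
    rintro g ⟨ρ, hρ, _, rfl⟩
    obtain ⟨G', h1, h2⟩ := input_mem_As k Ps hρ
    exact ⟨G', h1, h2.symm⟩
  · -- zero
    obtain ⟨G, h1, h2⟩ := zero_mem k Ps
    refine ⟨G, h1, hinj ?_⟩
    rw [rename_valF _ G (length_As h1).le, h2, map_zero]
  · -- H2
    rintro g ⟨ρ, hρ, ht, rfl⟩ r hr J
    obtain ⟨A, h1, h2, h3⟩ := h2_one k t Ps hρ ht r hr J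
    exact ⟨A, h2, h1, h3⟩
  · -- H1
    intro M hM a ha J hdet
    have hG : ∀ i, ∃ G ∈ As k Δ Ps, rename Fin.val (a i) = val G := by
      intro i
      obtain ⟨L, hL, b, ⟨ρ, hρ, rfl⟩, hab⟩ := ha i
      have hlt : ∀ j ∈ L.map Fin.val, j < (nL Ps).length := by
        intro j hj
        obtain ⟨q, _, rfl⟩ := List.mem_map.1 hj
        exact q.2
      refine ⟨ders (L.map Fin.val) ρ, ders_mem hρ _ hlt (by rwa [List.length_map]), ?_⟩
      rw [hab, rename_pd, rename_valF _ ρ (length_As hρ).le, val_ders _ ρ fun j hj => by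
        rw [length_As hρ]; exact hlt j hj]
    choose G hG1 hG2 using hG
    have hren : rename Fin.val (Matrix.of fun i j => pderiv (J j) (a i)).det =
        (Matrix.of fun i j => pderiv (J j).val (val (G i))).det := by
      rw [AlgHom.map_det]
      congr 1
      ext i j : 1
      simp only [AlgHom.mapMatrix_apply, Matrix.map_apply, Matrix.of_apply]
      rw [← hG2 i]
      exact (pderiv_rename Fin.val_injective (J j) (a i)).symm
    have h2 := hv M hM G (fun j => (J j).val) hG1 (fun j => (J j).2) (by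
      rw [← hren]
      intro h0
      exact hdet (hinj (by rw [h0, map_zero])))
    rw [← hren, eval_rename] at h2
    intro h0
    apply h2
    have h3 := congrArg (eval (Sum.elim (fun i => i.elim) (fun _ => 0) :
      PEmpty.{1} ⊕ (Fin 0 ⊕ Fin 0) → ℚ)) h0
    rw [VF.eval_Phi, map_zero] at h3
    simp only [eval_C] at h3
    have h4 : ∀ (s : Fin 0 ⊕ Fin 0 → ℚ) (i : Fin (nL Ps).length),
        Pool.Agent.Helper5.gen (nL Ps).length 0 s i = 0 := by
      intro s i
      simp [Pool.Agent.Helper5.gen]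
    simp only [h4, add_zero] at h3
    exact h3
  · -- transcendence degree
    intro b hb
    apply htr b
    have h1 : AlgebraicIndependent ℚ (fun i : (b : Set (Fin N)) => T' i) := hb
    have h2 := h1.map' (f := (rename Fin.val :
      MvPolynomial (Fin (nL Ps).length) ℚ →ₐ[ℚ] MvPolynomial ℕ ℚ)) hinj
    have h3 : (fun i : (b : Set (Fin N)) => T i) =
        (rename Fin.val : MvPolynomial (Fin (nL Ps).length) ℚ →ₐ[ℚ] MvPolynomial ℕ ℚ) ∘
          (fun i : (b : Set (Fin N)) => T' i) := by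
      funext i
      exact (hT1 i).symm
    show AlgebraicIndependent ℚ (fun i : (b : Set (Fin N)) => T i)
    rw [h3]
    exact h2

end Pool.Agent.RP
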