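import Pool.Agent.RP.Dsc
import Pool.Agent.RP.Hz

set_option autoImplicit false

/-!
RP-Pt. The test points.

Plan: `ptZ_eq`: `List.getD` of a map of a range, `zq` of `zAdd`, `zMul`, `zSum`, `zProd`; `(z, y)` as in `ptE_envF` of `Helper6/SP/Main.lean`
(`prod_erase` there). `fp_ptZ`: `FP.range`, `fp_map`, `FP.getDNat` (`G4/UPList.lean`), `fp_zSum`, `fp_zProd`, `FP.ite` (decision `j = i`), `FP.natAdd`.
-/

namespace Pool.Agent.RP

open MvPolynomial N487b59b3 N68a2faeb Pool.Agent.Helper22 Pool.Agent.Helper6.WB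
  Pool.Agent.Helper6.SP Pool.Agent.PQ

variable {α : Type} [N487b59b3 α]

/-- the point `v` plus the generator with `E` seeds -/
def ptZ (E : ℕ) (v : List ℕ) (n : List Bool) (zs : List ℕ) : List ZZ :=
  (List.range n.length).map fun i => zAdd (v.getD i 0, 0) (zSum ((List.range E).map fun l =>
    zMul (zs.getD l 0, 0) (zProd ((List.range n.length).map fun j =>
      if j = i then ((1, 0) : ZZ) else (zs.getD (E + l) 0, j)))))

theorem length_ptZ (E : ℕ) (v : List ℕ) (n : List Bool) (zs : List ℕ) :
    (ptZ E v n zs).length = n.length := by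
  simp [ptZ]

private theorem sum_range_fin (E : ℕ) (f : ℕ → ℚ) :
    ((List.range E).map f).sum = ∑ l : Fin E, f l := by
  induction E with
  | zero => simp
  | succ E ih =>
    rw [List.range_succ, List.map_append, List.sum_append, ih, Fin.sum_univ_castSucc]
    simp

theorem ptZ_eq (E : ℕ) (v : List ℕ) (n : List Bool) (z y : Fin E → ℕ) (i : Fin n.length) :
    zq ((ptZ E v n (List.ofFn z ++ List.ofFn y)).getD i (0, 0)) = (v.getD i 0 : ℚ) +
      ∑ l : Fin E, (z l : ℚ) * ∏ j ∈ Finset.univ.erase i, ((y l : ℚ) - (j.val : ℚ)) := by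
  unfold ptZ
  rw [List.getD_eq_getElem _ _ (by simp), List.getElem_map, List.getElem_range, zq_add, zq_sum,
    List.map_map]
  have h0 : zq (v.getD i.val 0, 0) = (v.getD i.val 0 : ℚ) := by
    simp [zq]
  rw [h0, sum_range_fin]
  congr 1
  refine Finset.sum_congr rfl fun l _ => ?_
  simp only [Function.comp_apply]
  rw [zq_mul, zq_zProd, List.map_map]
  have h1 : (List.ofFn z ++ List.ofFn y).getD l.val 0 = z l := by
    rw [List.getD_eq_getElem _ _ (by simp; omega),
      List.getElem_append_left (by rw [List.length_ofFn]; exact l.2), List.getElem_ofFn]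
  have h2 : (List.ofFn z ++ List.ofFn y).getD (E + l.val) 0 = y l := by
    rw [List.getD_eq_getElem _ _ (by simp),
      List.getElem_append_right (by rw [List.length_ofFn]; omega), List.getElem_ofFn]
    congr 1
    apply Fin.ext
    simp
  rw [h1, h2, ← prod_erase n.length (fun j => (y l : ℚ) - (j : ℚ)) i]
  have h3 : zq (z l, 0) = (z l : ℚ) := by simp [zq]
  rw [h3]
  congr 1
  refine congrArg List.prod (List.map_congr_left fun j _ => ?_)
  simp only [Function.comp_apply]
  by_cases h : j = i.val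
  · rw [if_pos h, if_pos (decide_eq_true h)]
    simp [zq]
  · rw [if_neg h, if_neg (by simpa using h)]
    simp [zq]

theorem fp_ptZ (E : ℕ) {v : α → List ℕ} {n : α → List Bool} {zs : α → List ℕ} (hv : FP v)
    (hn : FP n) (hz : FP zs) : FP fun a => ptZ E (v a) (n a) (zs a) := by
  have h1 : FP fun p : ((α × ℕ) × ℕ) × ℕ =>
      if decide (p.2 = p.1.1.2) then ((1, 0) : ZZ) else ((zs p.1.1.1).getD (E + p.1.2) 0, p.2) :=
    FP.ite (FP.natEq FP.snd (FP.snd.comp (FP.fst.comp FP.fst))) (FP.const _)
      (FP.pair (Pool.Agent.G4.FP.getDNat (hz.comp (FP.fst.comp (FP.fst.comp FP.fst)))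
        (Pool.Agent.Helper6.WB.FP.natAdd (FP.const E) (FP.snd.comp FP.fst)) 0) FP.snd)
  have h2 : FP fun p : (α × ℕ) × ℕ => (List.range (n p.1.1).length).map fun j =>
      if decide (j = p.1.2) then ((1, 0) : ZZ) else ((zs p.1.1).getD (E + p.2) 0, j) :=
    fp_map (FP.range (hn.comp (FP.fst.comp FP.fst))) h1
  have h3 : FP fun p : (α × ℕ) × ℕ => zMul ((zs p.1.1).getD p.2 0, 0)
      (zProd ((List.range (n p.1.1).length).map fun j =>
      if decide (j = p.1.2) then ((1, 0) : ZZ) else ((zs p.1.1).getD (E + p.2) 0, j))) :=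
    fp_zMul (FP.pair (Pool.Agent.G4.FP.getDNat (hz.comp (FP.fst.comp FP.fst)) FP.snd 0) (FP.const 0))
      (fp_zProd h2)
  have h4 : FP fun p : α × ℕ => (List.range E).map fun l => zMul ((zs p.1).getD l 0, 0)
      (zProd ((List.range (n p.1).length).map fun j =>
      if decide (j = p.2) then ((1, 0) : ZZ) else ((zs p.1).getD (E + l) 0, j))) :=
    fp_map (f := fun _ : α × ℕ => List.range E) (FP.const (List.range E)) h3
  have h5 : FP fun p : α × ℕ => zAdd ((v p.1).getD p.2 0, 0)
      (zSum ((List.range E).map fun l => zMul ((zs p.1).getD l 0, 0)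
      (zProd ((List.range (n p.1).length).map fun j =>
      if decide (j = p.2) then ((1, 0) : ZZ) else ((zs p.1).getD (E + l) 0, j))))) :=
    fp_zAdd (FP.pair (Pool.Agent.G4.FP.getDNat (hv.comp FP.fst) FP.snd 0) (FP.const 0)) (fp_zSum h4)
  have h6 : FP fun a => (List.range (n a).length).map fun i => zAdd ((v a).getD i 0, 0)
      (zSum ((List.range E).map fun l => zMul ((zs a).getD l 0, 0)
      (zProd ((List.range (n a).length).map fun j =>
      if decide (j = i) then ((1, 0) : ZZ) else ((zs a).getD (E + l) 0, j))))) :=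
    fp_map (FP.range hn) h5
  refine (congrArg FP (funext fun a => ?_)).mp h6
  unfold ptZ
  simp only [decide_eq_true_eq]

end Pool.Agent.RP
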