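import Pool.Agent.RP.Bp
import Pool.Agent.RP.Hit
import Pool.Agent.RP.Pt
import Pool.Agent.RP.Cmp

set_option autoImplicit false

/-!
RP-Main. The algorithm and its correctness.

Plan: as `decF`, `fp_decF`, `decF_true`, `decF_correct`, `main` in `Helper6/SP/Test.lean` and `Helper6/SP/Main.lean`:
`dec p = !((lpow grid (E + E)).any fun zs => !(decide (outQ (ptZ E (bp k Δ T (pgs p.2)) (nL (pgs p.2)) zs, p) = 0)))` with `E = EE κ k t Δ`,
`T = TT κ k t Δ`, and `grid` = the numbers up to at least `(n + 1) * deg`, `deg` = the bound of `totalDegree_cmpR` (unary products `FP.unMul`,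
`Helper22.un_length`). If the composition is zero all values vanish (`outQ_eq`, `length_input`, `length_ptZ`). Otherwise `hit` with `v = bp`
(`bp_spec`), `T i = ((L.get i).map facPoly).prod` (a product of members of the generating set: `Submonoid.list_prod_mem`, `Occ.mono`) gives `f`, `s`;
`f` shifted by `v` has the same degree; `hit_grid` (`Helper5/Gen.lean`) gives a grid point; `ptZ_eq`. `(L.map ..).getD i 0` is `cmpR` by `rfl`.
-/

namespace Pool.Agent.RP

open MvPolynomial N487b59b3 N68a2faeb Pool.Agent.Helper22 Pool.Agent.Helper6.WB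
  Pool.Agent.Helper6.SP Pool.Agent.PQ

/-- unary bound of the degree -/
private def dgU (p : Wd × List (List FacC)) : List Bool :=
  un ((p.1.map fun _ => true).length * (un (((toks1 p.2).map fun _ => true).length *
    (un ((nL (pgs p.2)).length * (DL (pgs p.2)).length)).length)).length)

private theorem length_dgU (p : Wd × List (List FacC)) : (dgU p).length =
    p.1.length * ((toks1 p.2).length * ((nL (pgs p.2)).length * (DL (pgs p.2)).length)) := by
  simp only [dgU, Helper22.un_length, List.length_map]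

/-- the values of the seeds -/
private def grd (p : Wd × List (List FacC)) : List ℕ :=
  List.range (true :: (un ((nL (pgs p.2)).length * (dgU p).length) ++ dgU p)).length

private theorem mem_grd {p : Wd × List (List FacC)} {v : ℕ} :
    v ∈ grd p ↔ v ≤ (nL (pgs p.2)).length * (dgU p).length + (dgU p).length := by
  unfold grd
  rw [List.mem_range]
  simp only [List.length_cons, List.length_append, Helper22.un_length]
  omega

private theorem fp_pgs : FP pgs := by
  have h1 : FP fun L : List (List FacC) => L.flatten := fp_flatten FP.id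
  have h2 : FP fun q : List (List FacC) × FacC => q.2.2 := FP.snd.comp FP.snd
  exact fp_flatMap h1 h2

private theorem fp_toks1 : FP toks1 := by
  have h1 : FP fun L : List (List FacC) => L.flatten := fp_flatten FP.id
  have h2 : FP fun q : List (List FacC) × FacC => q.2.1 := FP.fst.comp FP.snd
  exact fp_flatMap h1 h2

private theorem fp_ps : FP fun p : Wd × List (List FacC) => pgs p.2 := fp_pgs.comp FP.snd

private theorem fp_dgU : FP dgU := by
  have h1 : FP fun p : Wd × List (List FacC) => p.1.map fun t =>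
      (fun _ : (Wd × List (List FacC)) × (ℕ × ℚ) => true) (p, t) :=
    fp_map FP.fst (FP.const true)
  have h2 : FP fun p : Wd × List (List FacC) => (toks1 p.2).map fun t =>
      (fun _ : (Wd × List (List FacC)) × (ℕ × ℚ) => true) (p, t) :=
    fp_map (fp_toks1.comp FP.snd) (FP.const true)
  have h3 := FP.unMul (fp_nL.comp fp_ps) (fp_DL.comp fp_ps)
  exact FP.unMul h1 (FP.unMul h2 h3)

private theorem fp_grd : FP grd := by
  have h1 := FP.unMul (fp_nL.comp fp_ps) fp_dgU
  exact FP.range (FP.cons (FP.const true) (FP.append h1 fp_dgU))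

/-- the decision algorithm -/
noncomputable def dec (κ k t Δ : ℕ) (p : Wd × List (List FacC)) : Bool :=
  !((lpow (grd p) (EE κ k t Δ + EE κ k t Δ)).any fun zs =>
    !(decide (outQ (ptZ (EE κ k t Δ) (bp k Δ (TT κ k t Δ) (pgs p.2)) (nL (pgs p.2)) zs, p) = 0)))

private theorem fp_dec (κ k t Δ : ℕ) : FP (dec κ k t Δ) := by
  have h0 : FP fun q : (Wd × List (List FacC)) × List ℕ => pgs q.1.2 := fp_ps.comp FP.fst
  have h1 : FP fun q : (Wd × List (List FacC)) × List ℕ => ptZ (EE κ k t Δ)
      (bp k Δ (TT κ k t Δ) (pgs q.1.2)) (nL (pgs q.1.2)) q.2 :=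
    fp_ptZ _ ((fp_bp k Δ (TT κ k t Δ)).comp h0) (fp_nL.comp h0) FP.snd
  have h2 : FP fun q : (Wd × List (List FacC)) × List ℕ => !(decide (outQ (ptZ (EE κ k t Δ)
      (bp k Δ (TT κ k t Δ) (pgs q.1.2)) (nL (pgs q.1.2)) q.2, q.1) = 0)) :=
    FP.not (fq_outQ.comp (FP.pair h1 FP.fst)).eqZero
  exact FP.not (fp_any (fp_lpow fp_grd (EE κ k t Δ + EE κ k t Δ)) h2)

private theorem dec_true (κ k t Δ : ℕ) (p : Wd × List (List FacC)) : dec κ k t Δ p = true ↔
    ∀ zs ∈ lpow (grd p) (EE κ k t Δ + EE κ k t Δ), outQ (ptZ (EE κ k t Δ)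
      (bp k Δ (TT κ k t Δ) (pgs p.2)) (nL (pgs p.2)) zs, p) = 0 := by
  unfold dec
  rw [Bool.not_eq_true', Bool.eq_false_iff, ne_eq, List.any_eq_true]
  push Not
  constructor
  · intro h zs hzs
    have := h zs hzs
    simpa using this
  · intro h zs hzs
    have := h zs hzs
    simpa using this

private theorem mem_pgs {L : List (List Fac)} {p : List Fac} (hp : p ∈ L) {c : Fac} (hc : c ∈ p)
    {ρ : Rb} (hρ : ρ ∈ c.2) : ρ ∈ pgs (cdF L) := by
  unfold pgs
  refine List.mem_flatMap.2 ⟨c.code, List.mem_flatten.2 ⟨p.map Fac.code, ?_, ?_⟩, hρ⟩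
  · exact List.mem_map_of_mem hp
  · exact List.mem_map_of_mem hc

private theorem outQ_pt (E : ℕ) (v : List ℕ) (zs : List ℕ) (Q : Fm) (L : List (List Fac)) :
    outQ (ptZ E v (nL (pgs (cdF L))) zs, (Q.code, cdF L)) =
      eval (fun i => zq ((ptZ E v (nL (pgs (cdF L))) zs).getD i (0, 0))) (cmpR Q L) := by
  refine outQ_eq _ Q L fun g hg => ?_
  rw [length_ptZ]
  exact length_input hg

private theorem dec_correct (κ k t Δ : ℕ) (Q : Fm) (L : List (List Fac))
    (hocc : ∀ p ∈ L, ∀ c ∈ p, Occ κ (fun g => ∃ ρ ∈ c.2, Tame k t ρ ∧ g = val ρ) Δ (facPoly c))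
    (htr : ∀ b : Finset (Fin L.length), AlgebraicIndepOn ℚ
      (fun i => ((L.get i).map facPoly).prod) (b : Set (Fin L.length)) → b.card ≤ k) :
    dec κ k t Δ (Q.code, cdF L) = true ↔ cmpR Q L = 0 := by
  classical
  rw [dec_true]
  constructor
  · intro h
    by_contra hne
    set Ps : List Rb := pgs (cdF L) with hPs
    set n : ℕ := (nL Ps).length with hn
    set E : ℕ := EE κ k t Δ with hE
    set γ : ℕ → ℚ := fun i => ((bp k Δ (TT κ k t Δ) Ps).getD i 0 : ℚ) with hγ
    have hT : ∀ i : Fin L.length, ((L.get i).map facPoly).prod ∈ Submonoid.closure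
        {f | Occ κ (fun g => ∃ ρ ∈ Ps, Tame k t ρ ∧ g = val ρ) Δ f} := by
      intro i
      refine Submonoid.list_prod_mem _ fun x hx => ?_
      obtain ⟨c, hc, rfl⟩ := List.mem_map.1 hx
      refine Submonoid.subset_closure ?_
      refine Occ.mono ?_ (hocc _ (List.get_mem L i) c hc)
      rintro g ⟨ρ, hρ, h1, h2⟩
      exact ⟨ρ, mem_pgs (List.get_mem L i) hc hρ, h1, h2⟩
    obtain ⟨f, s, hf, hs⟩ := hit κ k t Δ Ps γ
      (fun m hm I V hI hV h0 => bp_spec k Δ (TT κ k t Δ) Ps hm I V hI hV h0)
      (fun i : Fin L.length => ((L.get i).map facPoly).prod) hT htr (cmpR Q L)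
      (cmpR_mem Q L) hne
    set fγ : MvPolynomial (Fin n) ℚ :=
      aeval (fun v => (X v + C (γ v.val) : MvPolynomial (Fin n) ℚ)) f with hfγ
    have hev : ∀ x : Fin n → ℚ, eval x fγ = eval (fun v => γ v.val + x v) f := by
      intro x
      have h1 : (eval x).comp ((aeval (fun v => (X v + C (γ v.val) :
          MvPolynomial (Fin n) ℚ)) : MvPolynomial (Fin n) ℚ →ₐ[ℚ] _) :
              MvPolynomial (Fin n) ℚ →+* _) = eval (fun v => γ v.val + x v) := by
        apply VF.ringHom_ext_rat
        intro v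
        simp [add_comm]
      exact congrArg (fun g => g f) h1
    have hD : (dgU (Q.code, cdF L)).length =
        Q.code.length * ((toks1 (cdF L)).length * (n * (DL Ps).length)) :=
      length_dgU (Q.code, cdF L)
    have hdeg : fγ.totalDegree ≤ (dgU (Q.code, cdF L)).length := by
      rw [hD]
      refine (totalDegree_aeval_le _ (fun v => ?_) f).trans ?_
      · refine (totalDegree_add _ _).trans (max_le (totalDegree_X v).le ?_)
        rw [totalDegree_C]
        exact Nat.zero_le _
      · refine (totalDegree_le_rename Fin.val Fin.val_injective f).trans ?_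
        rw [hf]
        exact totalDegree_cmpR Q L
    obtain ⟨a, ha, hea⟩ := Pool.Agent.Helper5.hit_grid fγ _ hdeg E ⟨s, by
      rw [hev]; exact hs⟩
    unfold Pool.Agent.Helper5.hittingSet at ha
    rw [Finset.mem_image] at ha
    obtain ⟨⟨z, y⟩, hzy, rfl⟩ := ha
    rw [Finset.mem_product, Fintype.mem_piFinset, Fintype.mem_piFinset] at hzy
    obtain ⟨hz, hy⟩ := hzy
    have hzs : List.ofFn z ++ List.ofFn y ∈ lpow (grd (Q.code, cdF L)) (E + E) := by
      rw [mem_lpow]
      refine ⟨by rw [List.length_append, List.length_ofFn, List.length_ofFn], ?_⟩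
      intro p hp
      rw [mem_grd]
      rcases List.mem_append.mp hp with hp | hp
      · obtain ⟨l, rfl⟩ := List.mem_ofFn.mp hp
        have := hz l
        simp only [Finset.mem_range] at this
        omega
      · obtain ⟨l, rfl⟩ := List.mem_ofFn.mp hp
        have := hy l
        simp only [Finset.mem_range] at this
        have h1 : n * (dgU (Q.code, cdF L)).length =
          (nL (pgs (Q.code, cdF L).2)).length * (dgU (Q.code, cdF L)).length := rfl
        omega
    have h2 := h _ hzs
    have h3 := outQ_pt E (bp k Δ (TT κ k t Δ) Ps) (List.ofFn z ++ List.ofFn y) Q L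
    rw [← hf, eval_rename] at h3
    apply hea
    rw [hev, ← h2]
    refine Eq.trans ?_ h3.symm
    refine congrArg (fun x => eval x f) ?_
    funext i
    exact (ptZ_eq E (bp k Δ (TT κ k t Δ) Ps) (nL Ps) z y i).symm
  · intro h zs _
    have h3 := outQ_pt (EE κ k t Δ) (bp k Δ (TT κ k t Δ) (pgs (cdF L))) zs Q L
    rw [h, map_zero] at h3
    exact h3

/-- **Main theorem.** -/
theorem main (κ k t Δ : ℕ) : ∃ f : List (ℕ × ℚ) × List (List (List (ℕ × ℚ) × List Rb)) → Bool,
    N68a2faeb.IsPolyTime f ∧ ∀ (Q : Fm) (L : List (List (Fm × List Rb))),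
      (∀ p ∈ L, ∀ c ∈ p, Occ κ (fun g => ∃ ρ ∈ c.2, Tame k t ρ ∧ g = val ρ) Δ (facPoly c)) →
      (∀ b : Finset (Fin L.length), AlgebraicIndepOn ℚ
        (fun i => ((L.get i).map facPoly).prod) (b : Set (Fin L.length)) → b.card ≤ k) →
      (f (Q.code, L.map fun p => p.map fun c => (c.1.code, c.2)) = true ↔
        aeval (fun i => (L.map fun p => (p.map facPoly).prod).getD i 0) Q.poly = 0) := by
  refine ⟨dec κ k t Δ, (Pool.Agent.Helper22.isPolyTime_iff _).mpr (fp_dec κ k t Δ), ?_⟩
  intro Q L hocc htr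
  exact dec_correct κ k t Δ Q L hocc htr

end Pool.Agent.RP
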