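import Pool.Agent.RP.Defs

set_option autoImplicit false

/-!
RP-Ops. DEFINITIONS: operations on programs.
-/

namespace Pool.Agent.RP

open MvPolynomial

/-- modification of the layer number `j` -/
def modL (j : ℕ) (h : Lay → Lay) (g : Rb) : Rb := g.zipIdx.map fun q => if q.2 = j then h q.1 else q.1

/-- the derivative of an entry -/
def derC (c : List ℤ) : List ℤ := c.zipIdx.tail.map fun q => (q.2 : ℤ) * q.1

/-- the derivative of a layer -/
def derL (L : Lay) : Lay := L.map fun row => row.map derC

/-- the coefficient of degree `e` of a layer -/
def cfL (e : ℕ) (L : Lay) : Lay := L.map fun row => row.map fun c => [c.getD e 0]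

/-- coefficients of several variables; pairs (variable, exponent) -/
def cfs (r : List (ℕ × ℕ)) (g : Rb) : Rb := r.foldl (fun g p => modL p.1 (cfL p.2) g) g

/-- one more trivial layer for every surplus entry of `n` -/
def padR (n : List Bool) (g : Rb) : Rb := g ++ (n.drop g.length).map fun _ => [[[1]]]

/-- the program of the variable `x_j` with `n` layers -/
def varR (n : List Bool) (j : ℕ) : Rb :=
  (List.range n.length).map fun i => if i = j then [[[0, 1]]] else [[[1]]]

/-- the lengths of the coefficient lists are at most `D` -/
def CL (D : ℕ) (g : Rb) : Prop := ∀ L ∈ g, ∀ row ∈ L, ∀ c ∈ row, c.length ≤ D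

end Pool.Agent.RP
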