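import Pool.Agent.RP.Der
import Pool.Agent.RP.Gram
import Pool.Agent.RP.GramF

set_option autoImplicit false

/-!
RP-Orc. The oracle: does a Jacobian minor of programs vanish on a grid?

Plan: for fixed `m` the minor is `FV` by `FV.det` and `fv_der` (entries `I.getD i []`, `V.getD j 0` for fixed
`i`, `j < m`: `fp_getD`); the oracle is `decide (zq (tz F) = 0)` (`fp_tz`, `fp_isZero`, `tz_iff`). For all `m ≤ T`: induction on
`T` with `FP.ite` on `decide (x.2.2.length = T + 1)` (`FP.length` of `Helper47/TR/FPx.lean`).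
-/

namespace Pool.Agent.RP

open MvPolynomial N487b59b3 N68a2faeb Pool.Agent.Helper22 Pool.Agent.Helper6.WB
  Pool.Agent.Helper6.SP Pool.Agent.PQ

/-- rows and columns of a minor: programs and variables -/
abbrev Mn := List Rb × List ℕ

/-- the Jacobian minor -/
noncomputable def JJ (m : ℕ) (I : List Rb) (V : List ℕ) : MvPolynomial ℕ ℚ :=
  (Matrix.of fun i j : Fin m => pderiv (V.getD j 0) (val (I.getD i []))).det

private theorem van_iff {xs : List (List ZZ)} {F : Vb} {w : ℕ} {f : MvPolynomial ℕ ℚ}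
    (hw : SqV w xs F) (hv : ∀ κ, Idx xs κ → vval F κ = eval (ptK xs κ) f) :
    decide (zq (tz F) = 0) = true ↔ Van xs f := by
  rw [decide_eq_true_iff, tz_iff hw]
  constructor
  · intro h κ hκ
    rw [← hv κ hκ]
    exact h κ hκ
  · intro h κ hκ
    rw [hv κ hκ]
    exact h κ hκ

theorem exists_orcM (m : ℕ) : ∃ g : List (List ZZ) × Mn → Bool, FP g ∧ ∀ x : List (List ZZ) × Mn,
    x.2.1.length = m → x.2.2.length = m → (∀ h ∈ x.2.1, h.length = x.1.length) →
    (∀ j ∈ x.2.2, j < x.1.length) → (g x = true ↔ Van x.1 (JJ m x.2.1 x.2.2)) := by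
  have key : ∀ i j : Fin m, FV (fun x : List (List ZZ) × Mn => x.1)
      (fun x => x.2.1.length = m ∧ x.2.2.length = m ∧ (∀ h ∈ x.2.1, h.length = x.1.length) ∧
        (∀ j ∈ x.2.2, j < x.1.length))
      (fun x => pderiv (x.2.2.getD j 0) (val (x.2.1.getD i []))) := by
    intro i j
    have h1 : FP fun x : List (List ZZ) × Mn =>
        (x.1, (x.2.1.getD (i : ℕ) ([] : Rb), x.2.2.getD (j : ℕ) 0)) := by
      refine FP.pair FP.fst (FP.pair ?_ ?_)
      · exact fp_getD (f := fun x : List (List ZZ) × Mn => x.2.1) (FP.fst.comp FP.snd) i []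
      · exact fp_getD (f := fun x : List (List ZZ) × Mn => x.2.2) (FP.snd.comp FP.snd) j 0
    refine (fv_der.comp h1).imp fun x hx => ?_
    obtain ⟨h2, h3, h4, h5⟩ := hx
    refine ⟨?_, ?_⟩
    · have h6 : (i : ℕ) < x.2.1.length := by rw [h2]; exact i.2
      change (x.2.1.getD (i : ℕ) ([] : Rb)).length = x.1.length
      rw [List.getD_eq_getElem _ _ h6]
      exact h4 _ (List.getElem_mem h6)
    · have h6 : (j : ℕ) < x.2.2.length := by rw [h3]; exact j.2
      change x.2.2.getD (j : ℕ) 0 < x.1.length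
      rw [List.getD_eq_getElem _ _ h6]
      exact h5 _ (List.getElem_mem h6)
  obtain ⟨F, hF, hP⟩ := FV.det (α := List (List ZZ) × Mn) FP.fst key
  refine ⟨fun x => decide (zq (tz (F x)) = 0), fp_isZero (fp_tz hF), fun x h1 h2 h3 h4 => ?_⟩
  obtain ⟨⟨w, hw⟩, hv⟩ := hP x ⟨h1, h2, h3, h4⟩
  exact van_iff hw hv

theorem exists_orc (T : ℕ) : ∃ g : List (List ZZ) × Mn → Bool, FP g ∧ ∀ x : List (List ZZ) × Mn,
    x.2.1.length = x.2.2.length → x.2.2.length ≤ T → (∀ h ∈ x.2.1, h.length = x.1.length) →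
    (∀ j ∈ x.2.2, j < x.1.length) →
    (g x = true ↔ Van x.1 (JJ x.2.2.length x.2.1 x.2.2)) := by
  induction T with
  | zero =>
    obtain ⟨g, hg, h⟩ := exists_orcM 0
    refine ⟨g, hg, fun x h1 h2 h3 h4 => ?_⟩
    have h5 : x.2.2.length = 0 := Nat.le_zero.1 h2
    rw [h5]
    exact h x (h1.trans h5) h5 h3 h4
  | succ T ih =>
    obtain ⟨g, hg, h⟩ := ih
    obtain ⟨g', hg', h'⟩ := exists_orcM (T + 1)
    refine ⟨fun x => if decide (x.2.2.length = T + 1) then g' x else g x, ?_,
      fun x h1 h2 h3 h4 => ?_⟩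
    · refine FP.ite ?_ hg' hg
      have e1 : FP fun x : List (List ZZ) × Mn => x.2.2.length :=
        Pool.Agent.Helper47.TR.FP.length (FP.snd.comp FP.snd)
      have e2 : FP fun q : ℕ × ℕ => decide (q.1 = q.2) := by fun_prop
      exact e2.comp (e1.pair (FP.const (T + 1)))
    · by_cases h5 : x.2.2.length = T + 1
      · simp only [h5, decide_true, if_true]
        exact h' x (h1.trans h5) h5 h3 h4
      · simp only [h5, decide_false]
        exact h x h1 (by omega) h3 h4

end Pool.Agent.RP
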