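import Pool.Agent.RP.Ops

set_option autoImplicit false

/-!
RP-RunA. Basic properties of the run of a program.

Plan: everything by induction on the program `g` for `run x g i s` with arbitrary `i` and `s`, then `out` is the head of
the run. `run x (g ++ h) i s = run x h (i + g.length) (run x g i s)`. The trivial layer `[[[1]]]` maps `s` to
`[s.headD 0]` if `s` is not empty and to `[0]` if `s` is empty: in both cases to `[s.headD 0]`. `varR`: the state is `[1]` before the layer `j`,
`[x j]` after it. `modL` with `zipIdx`: generalise to `zipIdx m`. `out_expand`: `run` is additive in the layer `j` (linear in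
the state: `run x g i (a • s + ..)` entry by entry; for lists of equal length use `List.zipWith`, or prove: if
`s = (range n).map fun a => ∑ e ∈ range D, c e * t e a` then the run is the sum of the runs), and
`entry c x = ∑_{e<D} x^e * entry [c.getD e 0] x` for `c.length ≤ D`. A convenient form: for all `g i s`, all
`D` and all families `t : ℕ → List R` with `(t e).length = s.length` and `s.getD a 0 = ∑ e ∈ range D, y ^ e * (t e).getD a 0` for all `a`, the same
holds for `run x g i s` and `run x g i (t e)`.
-/

namespace Pool.Agent.RP

open MvPolynomial

variable {R S : Type*} [CommRing R] [CommRing S]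

private theorem entry_hom' (φ : R →+* S) (c : List ℤ) (x : R) : φ (entry c x) = entry c (φ x) := by
  simp only [entry, map_sum, map_mul, map_pow, map_intCast]

private theorem entry_single' (k : ℤ) (x : R) : entry [k] x = (k : R) := by
  simp [entry]

private theorem rowMul_hom' (φ : R →+* S) (x : R) (row : List (List ℤ)) (s : List R) :
    φ (rowMul x row s) = rowMul (φ x) row (s.map φ) := by
  induction row generalizing s with
  | nil => simp [rowMul]
  | cons c row ih =>
    cases s with
    | nil => simp [rowMul]
    | cons a s =>
      have h := ih s
      simp only [rowMul] at h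
      simp only [rowMul, List.zip_cons_cons, List.map_cons, List.sum_cons, map_add, map_mul,
        entry_hom', h]

private theorem run_hom' (φ : R →+* S) (x : ℕ → R) (g : Rb) (i : ℕ) (s : List R) :
    (run x g i s).map φ = run (fun i => φ (x i)) g i (s.map φ) := by
  induction g generalizing i s with
  | nil => rfl
  | cons L g ih =>
    rw [run, run, ih, List.map_map]
    congr 1
    refine List.map_congr_left fun row _ => ?_
    exact rowMul_hom' φ (x i) row s

theorem out_hom (φ : R →+* S) (x : ℕ → R) (g : Rb) : φ (out x g) = out (fun i => φ (x i)) g := by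
  have h := run_hom' φ x g 0 [1]
  simp only [List.map_cons, List.map_nil, map_one] at h
  rw [out, out, ← h]
  cases run x g 0 [1] with
  | nil => simp
  | cons a l => simp

private theorem run_congr' {x y : ℕ → R} (g : Rb) (m : ℕ) (s : List R)
    (h : ∀ i, m ≤ i → i < m + g.length → x i = y i) : run x g m s = run y g m s := by
  induction g generalizing m s with
  | nil => rfl
  | cons L g ih =>
    rw [run, run, h m le_rfl (by simp)]
    exact ih _ _ fun i hi hi' => h i (by omega) (by simp only [List.length_cons]; omega)

theorem out_congr {x y : ℕ → R} (g : Rb) (h : ∀ i < g.length, x i = y i) : out x g = out y g := by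
  rw [out, out, run_congr' g 0 [1] fun i _ hi => h i (by omega)]

private theorem run_append' (x : ℕ → R) (g h : Rb) (m : ℕ) (s : List R) :
    run x (g ++ h) m s = run x h (m + g.length) (run x g m s) := by
  induction g generalizing m s with
  | nil => rfl
  | cons L g ih =>
    rw [List.cons_append, run, ih, run, List.length_cons]
    congr 1
    omega

private theorem rowMul_one' (x : R) (s : List R) : rowMul x [[1]] s = s.headD 0 := by
  cases s with
  | nil => simp [rowMul]
  | cons a s => simp [rowMul, entry_single']

private theorem rowMul_var' (x : R) (s : List R) : rowMul x [[0, 1]] s = x * s.headD 0 := by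
  cases s with
  | nil => simp [rowMul]
  | cons a s =>
    have : entry [0, 1] x = x := by
      simp [entry, Finset.sum_range_succ]
    simp [rowMul, this]

private theorem run_triv' (x : ℕ → R) {α : Type*} (l : List α) (m : ℕ) (s : List R) :
    (run x (l.map fun _ => [[[1]]]) m s).headD 0 = s.headD 0 := by
  induction l generalizing m s with
  | nil => rfl
  | cons a l ih =>
    rw [List.map_cons, run, ih, List.map_cons, List.map_nil, rowMul_one']
    rfl

theorem out_padR (x : ℕ → R) (n : List Bool) (g : Rb) : out x (padR n g) = out x g := by
  rw [out, padR, run_append', run_triv']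
  rfl

theorem length_padR (n : List Bool) (g : Rb) (h : g.length ≤ n.length) :
    (padR n g).length = n.length := by
  rw [padR, List.length_append, List.length_map, List.length_drop]
  omega

private theorem run_var' (x : ℕ → R) (j N m : ℕ) (s : List R) :
    (run x ((List.range' m N).map fun i => if i = j then [[[0, 1]]] else [[[1]]]) m s).headD 0 =
      if m ≤ j ∧ j < m + N then x j * s.headD 0 else s.headD 0 := by
  induction N generalizing m s with
  | zero =>
    rw [if_neg (by omega)]
    rfl
  | succ N ih =>
    rw [List.range'_succ, List.map_cons, run, ih]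
    by_cases hm : m = j
    · subst hm
      rw [if_neg (by omega), if_pos rfl, if_pos (by omega)]
      simp only [List.map_cons, List.map_nil, rowMul_var', List.headD_cons]
    · rw [if_neg hm]
      simp only [List.map_cons, List.map_nil, rowMul_one', List.headD_cons]
      by_cases h1 : m + 1 ≤ j ∧ j < m + 1 + N
      · rw [if_pos h1, if_pos (by omega)]
      · rw [if_neg h1, if_neg (by omega)]

theorem out_varR (x : ℕ → R) (n : List Bool) {j : ℕ} (h : j < n.length) :
    out x (varR n j) = x j := by
  rw [out, varR, List.range_eq_range', run_var', if_pos (by omega)]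
  simp

theorem length_varR (n : List Bool) (j : ℕ) : (varR n j).length = n.length := by
  simp [varR]

theorem length_modL (j : ℕ) (h : Lay → Lay) (g : Rb) : (modL j h g).length = g.length := by
  simp [modL]

private theorem modZ' (j : ℕ) (h : Lay → Lay) (g : Rb) (m : ℕ) (hj : j < m ∨ m + g.length ≤ j) :
    ((g.zipIdx m).map fun q => if q.2 = j then h q.1 else q.1) = g := by
  induction g generalizing m with
  | nil => rfl
  | cons L g ih =>
    rw [List.zipIdx_cons, List.map_cons, ih (m + 1) (by
      simp only [List.length_cons] at hj
      omega)]
    simp only [List.length_cons] at hj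
    rw [if_neg (by simp only; omega)]

theorem modL_of_le (j : ℕ) (h : Lay → Lay) (g : Rb) (hj : g.length ≤ j) : modL j h g = g :=
  modZ' j h g 0 (Or.inr (by omega))

theorem length_cfs (r : List (ℕ × ℕ)) (g : Rb) : (cfs r g).length = g.length := by
  induction r generalizing g with
  | nil => rfl
  | cons p r ih =>
    have h := ih (modL p.1 (cfL p.2) g)
    rw [length_modL] at h
    exact h

private theorem rowMul_cfc' (z z' : R) (e : ℕ) (row : List (List ℤ)) (s : List R) :
    rowMul z (row.map fun c => [c.getD e 0]) s = rowMul z' (row.map fun c => [c.getD e 0]) s := by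
  induction row generalizing s with
  | nil => simp [rowMul]
  | cons c row ih =>
    cases s with
    | nil => simp [rowMul]
    | cons a s =>
      have h := ih s
      simp only [rowMul] at h
      simp only [rowMul, List.map_cons, List.zip_cons_cons, List.sum_cons, entry_single', h]

private theorem run_cf' (x : ℕ → R) (y : R) (j e : ℕ) (g : Rb) (m : ℕ) (s : List R) :
    run (Function.update x j y) ((g.zipIdx m).map fun q => if q.2 = j then cfL e q.1 else q.1) m s =
      run x ((g.zipIdx m).map fun q => if q.2 = j then cfL e q.1 else q.1) m s := by
  induction g generalizing m s with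
  | nil => rfl
  | cons L g ih =>
    rw [List.zipIdx_cons, List.map_cons, run, run, ih]
    congr 1
    by_cases hm : m = j
    · subst hm
      rw [if_pos rfl]
      simp only [cfL, List.map_map]
      refine List.map_congr_left fun row _ => ?_
      exact rowMul_cfc' _ _ e row s
    · rw [Function.update_of_ne hm]

/-- a coefficient does not depend on its variable -/
theorem out_modL_cfL (x : ℕ → R) (y : R) (j e : ℕ) (g : Rb) :
    out (Function.update x j y) (modL j (cfL e) g) = out x (modL j (cfL e) g) := by
  rw [out, out, modL, run_cf']

private theorem rowMul_sum' (z : R) (row : List (List ℤ)) (s : List R) :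
    rowMul z row s = ∑ a ∈ Finset.range row.length, entry (row.getD a []) z * s.getD a 0 := by
  induction row generalizing s with
  | nil => simp [rowMul]
  | cons c row ih =>
    cases s with
    | nil => simp [rowMul]
    | cons a s =>
      have h := ih s
      simp only [rowMul] at h
      rw [List.length_cons, Finset.sum_range_succ']
      simp only [rowMul, List.zip_cons_cons, List.map_cons, List.sum_cons, h,
        List.getD_cons_succ, List.getD_cons_zero]
      rw [add_comm]

private theorem entry_expand' (c : List ℤ) (z : R) (D : ℕ) (hD : c.length ≤ D) :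
    entry c z = ∑ e ∈ Finset.range D, z ^ e * entry [c.getD e 0] z := by
  rw [entry]
  have h1 : ∑ e ∈ Finset.range c.length, ((c.getD e 0 : ℤ) : R) * z ^ e =
      ∑ e ∈ Finset.range D, ((c.getD e 0 : ℤ) : R) * z ^ e := by
    apply Finset.sum_subset (Finset.range_subset_range.2 hD)
    intro e _ he
    rw [Finset.mem_range, not_lt] at he
    rw [List.getD_eq_default _ _ he, Int.cast_zero, zero_mul]
  rw [h1]
  refine Finset.sum_congr rfl fun e _ => ?_
  rw [entry_single', mul_comm]

private def LCom (y : R) (D : ℕ) (v : List R) (t : ℕ → List R) : Prop :=
  ∀ a, v.getD a 0 = ∑ e ∈ Finset.range D, y ^ e * (t e).getD a 0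

private theorem getD_map' {α : Type*} (f : α → R) (l : List α) (a : ℕ) (d : α) :
    (l.map f).getD a 0 = if a < l.length then f (l.getD a d) else 0 := by
  by_cases h : a < l.length
  · rw [if_pos h, List.getD_eq_getElem _ _ (by simpa using h), List.getD_eq_getElem _ _ h,
      List.getElem_map]
  · rw [if_neg h, List.getD_eq_default _ _ (by simpa using h)]

private theorem LCom.run' (x : ℕ → R) {y : R} {D : ℕ} (g : Rb) (m : ℕ) {v : List R}
    {t : ℕ → List R} (h : LCom y D v t) :
    LCom y D (run x g m v) (fun e => run x g m (t e)) := by
  induction g generalizing m v t with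
  | nil => exact h
  | cons L g ih =>
    simp only [run]
    apply ih
    intro a
    rw [getD_map' _ _ _ []]
    simp only [getD_map' _ _ _ ([] : List (List ℤ))]
    by_cases ha : a < L.length
    · simp only [if_pos ha, rowMul_sum', Finset.mul_sum]
      rw [Finset.sum_comm]
      refine Finset.sum_congr rfl fun b _ => ?_
      rw [h b, Finset.mul_sum]
      refine Finset.sum_congr rfl fun e _ => ?_
      ring
    · simp only [if_neg ha, mul_zero, Finset.sum_const_zero]

private theorem LCom.lay' (y : R) (D : ℕ) (L : Lay) (v : List R)
    (hD : ∀ row ∈ L, ∀ c ∈ row, c.length ≤ D) :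
    LCom y D (L.map fun row => rowMul y row v)
      (fun e => (cfL e L).map fun row => rowMul y row v) := by
  intro a
  simp only [cfL, List.map_map, Function.comp_def]
  rw [getD_map' _ _ _ []]
  simp only [getD_map' _ _ _ ([] : List (List ℤ))]
  by_cases ha : a < L.length
  · simp only [if_pos ha]
    have hr : ∀ c ∈ L.getD a [], c.length ≤ D := by
      rw [List.getD_eq_getElem _ _ ha]
      exact hD _ (List.getElem_mem ha)
    generalize L.getD a [] = row at hr
    simp only [rowMul_sum', List.length_map, Finset.mul_sum]
    rw [Finset.sum_comm]
    refine Finset.sum_congr rfl fun b hb => ?_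
    rw [Finset.mem_range] at hb
    have h1 : (row.getD b []).length ≤ D := by
      rw [List.getD_eq_getElem _ _ hb]
      exact hr _ (List.getElem_mem hb)
    rw [entry_expand' _ y D h1, Finset.sum_mul]
    refine Finset.sum_congr rfl fun e _ => ?_
    have h2 : (row.map fun c => [c.getD e 0]).getD b [] = [(row.getD b []).getD e 0] := by
      rw [List.getD_eq_getElem _ _ (by simpa using hb), List.getElem_map,
        List.getD_eq_getElem row [] hb]
    rw [h2, mul_assoc]
  · simp only [if_neg ha, mul_zero, Finset.sum_const_zero]

private theorem run_expand' (x : ℕ → R) (j D : ℕ) (g : Rb) (m : ℕ) (s : List R) (hm : m ≤ j)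
    (hj : j < m + g.length) (hD : CL D g) :
    LCom (x j) D (run x g m s) (fun e =>
      run x ((g.zipIdx m).map fun q => if q.2 = j then cfL e q.1 else q.1) m s) := by
  induction g generalizing m s with
  | nil => simp at hj; omega
  | cons L g ih =>
    simp only [List.zipIdx_cons, List.map_cons, run]
    by_cases h : m = j
    · subst h
      simp only [if_true]
      have h1 : ∀ e, ((g.zipIdx (m + 1)).map fun q => if q.2 = m then cfL e q.1 else q.1) = g :=
        fun e => modZ' m (cfL e) g (m + 1) (Or.inl (by omega))
      simp only [h1]
      exact LCom.run' x g (m + 1) (LCom.lay' (x m) D L s (hD L (by simp)))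
    · simp only [if_neg h]
      exact ih (m + 1) _ (by omega) (by simp only [List.length_cons] at hj; omega)
        (fun L' hL' => hD L' (List.mem_cons_of_mem _ hL'))

private theorem headD_eq' (l : List R) : l.headD 0 = l.getD 0 0 := by
  cases l <;> rfl

/-- expansion in the powers of one variable -/
theorem out_expand (x : ℕ → R) (j D : ℕ) (g : Rb) (hj : j < g.length) (hD : CL D g) :
    out x g = ∑ e ∈ Finset.range D, x j ^ e * out x (modL j (cfL e) g) := by
  have h := run_expand' x j D g 0 [1] (Nat.zero_le _) (by omega) hD 0
  rw [out, headD_eq', h]
  refine Finset.sum_congr rfl fun e _ => ?_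
  rw [out, headD_eq', modL]

theorem CL_modL_cfL {D : ℕ} (hD : 0 < D) (j e : ℕ) {g : Rb} (h : CL D g) :
    CL D (modL j (cfL e) g) := by
  intro L' hL'
  rw [modL, List.mem_map] at hL'
  obtain ⟨⟨L, i⟩, hL, rfl⟩ := hL'
  have hLg : L ∈ g := (List.mem_zipIdx hL).2.2 ▸ List.getElem_mem _
  dsimp only
  split_ifs with hi
  · intro row hrow c hc
    simp only [cfL, List.mem_map] at hrow
    obtain ⟨row0, _, rfl⟩ := hrow
    simp only [List.mem_map] at hc
    obtain ⟨c0, _, rfl⟩ := hc
    exact hD
  · exact h L hLg

theorem CL_varR (n : List Bool) (j : ℕ) : CL 2 (varR n j) := by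
  intro L hL
  rw [varR, List.mem_map] at hL
  obtain ⟨i, _, rfl⟩ := hL
  intro row hrow c hc
  split_ifs at hrow with hi
  · simp only [List.mem_singleton] at hrow
    subst hrow
    simp only [List.mem_singleton] at hc
    subst hc
    simp
  · simp only [List.mem_singleton] at hrow
    subst hrow
    simp only [List.mem_singleton] at hc
    subst hc
    simp

theorem CL_padR {D : ℕ} (hD : 0 < D) (n : List Bool) {g : Rb} (h : CL D g) : CL D (padR n g) := by
  intro L hL
  rw [padR, List.mem_append] at hL
  rcases hL with hL | hL
  · exact h L hL
  · rw [List.mem_map] at hL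
    obtain ⟨_, _, rfl⟩ := hL
    intro row hrow c hc
    simp only [List.mem_singleton] at hrow
    subst hrow
    simp only [List.mem_singleton] at hc
    subst hc
    exact hD

end Pool.Agent.RP
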