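import Pool.Agent.RP.RunA

set_option autoImplicit false

/-!
RP-RunB. Derivatives, variables and degrees of the polynomial of a program.
-/

namespace Pool.Agent.RP

open MvPolynomial

/-! ### rows -/

theorem rowMul_nil_left {R : Type*} [CommRing R] (x : R) (s : List R) : rowMul x [] s = 0 := by
  simp [rowMul]

theorem rowMul_nil_right {R : Type*} [CommRing R] (x : R) (row : List (List ℤ)) :
    rowMul x row [] = 0 := by
  simp [rowMul]

theorem rowMul_cons {R : Type*} [CommRing R] (x : R) (c : List ℤ) (row : List (List ℤ)) (a : R)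
    (s : List R) : rowMul x (c :: row) (a :: s) = entry c x * a + rowMul x row s := by
  simp [rowMul]

/-- the derivation of an entry in another variable -/
theorem pderiv_entry_ne {i j : ℕ} (h : j ≠ i) (c : List ℤ) :
    pderiv j (entry c (X i : MvPolynomial ℕ ℚ)) = 0 := by
  unfold entry
  rw [map_sum]
  refine Finset.sum_eq_zero fun e _ => ?_
  rw [Derivation.leibniz, Derivation.leibniz_pow, pderiv_X_of_ne (Ne.symm h)]
  have : pderiv j ((c.getD e 0 : ℤ) : MvPolynomial ℕ ℚ) = 0 := by
    rw [← map_intCast (C : ℚ →+* MvPolynomial ℕ ℚ), pderiv_C]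
  rw [this]; simp

theorem length_derC (c : List ℤ) : (derC c).length = c.length - 1 := by
  simp [derC]

theorem getD_derC (c : List ℤ) {e : ℕ} (h : e + 1 < c.length) :
    (derC c).getD e 0 = ((e + 1 : ℕ) : ℤ) * c.getD (e + 1) 0 := by
  have h1 : e < (derC c).length := by rw [length_derC]; omega
  rw [List.getD_eq_getElem _ _ h1, List.getD_eq_getElem _ _ h]
  simp only [derC, List.getElem_map, List.getElem_tail, List.getElem_zipIdx, zero_add]

/-- the derivation of an entry in its variable -/
theorem pderiv_entry_self (i : ℕ) (c : List ℤ) :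
    pderiv i (entry c (X i : MvPolynomial ℕ ℚ)) = entry (derC c) (X i) := by
  unfold entry
  rw [map_sum, length_derC]
  rcases hn : c.length with _ | n
  · simp
  · rw [Finset.sum_range_succ', Nat.add_sub_cancel]
    have h0 : ∀ z : ℤ, pderiv i ((z : ℤ) : MvPolynomial ℕ ℚ) = 0 := by
      intro z
      rw [← map_intCast (C : ℚ →+* MvPolynomial ℕ ℚ), pderiv_C]
    have h1 : pderiv i (((c.getD 0 0 : ℤ) : MvPolynomial ℕ ℚ) * X i ^ 0) = 0 := by
      rw [pow_zero, mul_one, h0]
    rw [h1, add_zero]
    refine Finset.sum_congr rfl fun e he => ?_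
    rw [Finset.mem_range] at he
    rw [getD_derC c (by omega), Derivation.leibniz, h0, Derivation.leibniz_pow, pderiv_X_self]
    simp only [smul_eq_mul, mul_zero, add_zero, nsmul_eq_mul, mul_one, Nat.add_sub_cancel]
    push_cast
    ring

theorem pderiv_rowMul_ne {i j : ℕ} (h : j ≠ i) (row : List (List ℤ)) :
    ∀ s : List (MvPolynomial ℕ ℚ),
      pderiv j (rowMul (X i) row s) = rowMul (X i) row (s.map (pderiv j)) := by
  induction row with
  | nil => intro s; rw [rowMul_nil_left, rowMul_nil_left, map_zero]
  | cons c row ih =>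
    intro s
    cases s with
    | nil => rw [rowMul_nil_right, List.map_nil, rowMul_nil_right, map_zero]
    | cons a s =>
      rw [rowMul_cons, List.map_cons, rowMul_cons, map_add, ih, Derivation.leibniz,
        pderiv_entry_ne h]
      simp

theorem pderiv_rowMul_self (i : ℕ) (row : List (List ℤ)) :
    ∀ s : List (MvPolynomial ℕ ℚ), (∀ p ∈ s, pderiv i p = 0) →
      pderiv i (rowMul (X i) row s) = rowMul (X i) (row.map derC) s := by
  induction row with
  | nil => intro s _; rw [List.map_nil, rowMul_nil_left, map_zero]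
  | cons c row ih =>
    intro s hs
    cases s with
    | nil => rw [rowMul_nil_right, rowMul_nil_right, map_zero]
    | cons a s =>
      rw [rowMul_cons, List.map_cons, rowMul_cons, map_add,
        ih s fun p hp => hs p (List.mem_cons_of_mem _ hp), Derivation.leibniz,
        pderiv_entry_self, hs a (List.mem_cons_self ..)]
      simp [mul_comm]

theorem map_run_lt (j : ℕ) (g : Rb) : ∀ (i : ℕ) (s : List (MvPolynomial ℕ ℚ)), j < i →
    (run X g i s).map (pderiv j) = run X g i (s.map (pderiv j)) := by
  induction g with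
  | nil => intro i s _; rfl
  | cons L g ih =>
    intro i s h
    rw [run, run, ih (i + 1) _ (by omega), List.map_map]
    congr 2
    funext row
    exact pderiv_rowMul_ne (by omega) row s

theorem zipIdx_map_of_lt (j : ℕ) (h : Lay → Lay) (g : Rb) (i : ℕ) (hj : j < i) :
    ((g.zipIdx i).map fun q => if q.2 = j then h q.1 else q.1) = g := by
  induction g generalizing i with
  | nil => rfl
  | cons L g ih =>
    rw [List.zipIdx_cons, List.map_cons, ih (i + 1) (by omega)]
    simp only
    rw [if_neg (by omega)]

theorem map_run_ge (j : ℕ) (g : Rb) : ∀ (i : ℕ) (s : List (MvPolynomial ℕ ℚ)), i ≤ j →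
    j < i + g.length → (∀ p ∈ s, pderiv j p = 0) →
    (run X g i s).map (pderiv j) =
      run X ((g.zipIdx i).map fun q => if q.2 = j then derL q.1 else q.1) i s := by
  induction g with
  | nil => intro i s h1 h2; simp at h2; omega
  | cons L g ih =>
    intro i s h1 h2 hs
    rw [List.zipIdx_cons, List.map_cons, run]
    simp only
    by_cases hij : i = j
    · subst hij
      rw [if_pos rfl, zipIdx_map_of_lt i derL g (i + 1) (by omega), run,
        map_run_lt i g (i + 1) _ (by omega), derL, List.map_map, List.map_map]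
      congr 2
      funext row
      exact pderiv_rowMul_self i row s hs
    · rw [if_neg hij, run]
      rw [List.length_cons] at h2
      refine ih (i + 1) _ (by omega) (by omega) ?_
      intro p hp
      rw [List.mem_map] at hp
      obtain ⟨row, _, rfl⟩ := hp
      rw [pderiv_rowMul_ne (by omega)]
      have hz : ∀ (row : List (List ℤ)) (s : List (MvPolynomial ℕ ℚ)), (∀ p ∈ s, pderiv j p = 0) →
          rowMul (X i : MvPolynomial ℕ ℚ) row (s.map (pderiv j)) = 0 := by
        intro row
        induction row with
        | nil => intro s _; rw [rowMul_nil_left]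
        | cons c row ih' =>
          intro s hs
          cases s with
          | nil => rw [List.map_nil, rowMul_nil_right]
          | cons a s =>
            rw [List.map_cons, rowMul_cons, hs a (List.mem_cons_self ..),
              ih' s fun p hp => hs p (List.mem_cons_of_mem _ hp)]
            simp
      exact hz row s hs

theorem headD_map {α β : Type*} (f : α → β) (l : List α) (d : α) :
    (l.map f).headD (f d) = f (l.headD d) := by
  cases l <;> rfl

theorem val_modL_derL (j : ℕ) (g : Rb) (hj : j < g.length) :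
    val (modL j derL g) = pderiv j (val g) := by
  have h := map_run_ge j g 0 [1] (Nat.zero_le _) (by omega) (by
    intro p hp
    rw [List.mem_singleton] at hp
    rw [hp]
    exact Derivation.map_one_eq_zero _)
  unfold val out modL
  rw [← h]
  have h2 := headD_map (pderiv j) (run X g 0 [1] : List (MvPolynomial ℕ ℚ)) 0
  rw [map_zero] at h2
  exact h2

/-! ### variables -/

theorem entry_mem (i n : ℕ) (hi : i < n) (c : List ℤ) :
    entry c (X i : MvPolynomial ℕ ℚ) ∈ supported ℚ {a : ℕ | a < n} := by
  unfold entry
  refine Subalgebra.sum_mem _ fun e _ => Subalgebra.mul_mem _ ?_ (Subalgebra.pow_mem _ ?_ _)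
  · exact Subalgebra.intCast_mem _ _
  · exact (X_mem_supported).2 hi

theorem rowMul_mem {R : Type*} [CommRing R] [Algebra ℚ R] (A : Subalgebra ℚ R) (x : R)
    (hx : ∀ c : List ℤ, entry c x ∈ A) (row : List (List ℤ)) :
    ∀ s : List R, (∀ p ∈ s, p ∈ A) → rowMul x row s ∈ A := by
  induction row with
  | nil => intro s _; rw [rowMul_nil_left]; exact A.zero_mem
  | cons c row ih =>
    intro s hs
    cases s with
    | nil => rw [rowMul_nil_right]; exact A.zero_mem
    | cons a s =>
      rw [rowMul_cons]
      exact A.add_mem (A.mul_mem (hx c) (hs a (List.mem_cons_self ..)))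
        (ih s fun p hp => hs p (List.mem_cons_of_mem _ hp))

theorem run_mem (n : ℕ) (g : Rb) : ∀ (i : ℕ) (s : List (MvPolynomial ℕ ℚ)),
    i + g.length ≤ n → (∀ p ∈ s, p ∈ supported ℚ {a : ℕ | a < n}) →
    ∀ p ∈ run X g i s, p ∈ supported ℚ {a : ℕ | a < n} := by
  induction g with
  | nil => intro i s _ hs; exact hs
  | cons L g ih =>
    intro i s h hs
    rw [List.length_cons] at h
    rw [run]
    refine ih (i + 1) _ (by omega) ?_
    intro p hp
    rw [List.mem_map] at hp
    obtain ⟨row, _, rfl⟩ := hp
    exact rowMul_mem _ _ (fun c => entry_mem i n (by omega) c) row s hs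

theorem headD_mem_or {α : Type*} (l : List α) (d : α) : l.headD d ∈ l ∨ l.headD d = d := by
  cases l with
  | nil => right; rfl
  | cons a l => left; exact List.mem_cons_self ..

theorem vars_val (g : Rb) : (val g).vars ⊆ Finset.range g.length := by
  have h : val g ∈ supported ℚ {a : ℕ | a < g.length} := by
    unfold val out
    rcases headD_mem_or (run X g 0 [1] : List (MvPolynomial ℕ ℚ)) 0 with h | h
    · refine run_mem g.length g 0 [1] (by omega) ?_ _ h
      intro p hp
      rw [List.mem_singleton] at hp
      rw [hp]; exact Subalgebra.one_mem _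
    · rw [h]; exact Subalgebra.zero_mem _
  rw [mem_supported] at h
  intro a ha
  rw [Finset.mem_range]
  exact h (Finset.mem_coe.2 ha)

/-! ### degrees -/

theorem degreeOf_intCast' (j : ℕ) (z : ℤ) : degreeOf j ((z : ℤ) : MvPolynomial ℕ ℚ) = 0 := by
  rw [← map_intCast (C : ℚ →+* MvPolynomial ℕ ℚ), degreeOf_C]

theorem degreeOf_entry_ne {i j : ℕ} (h : j ≠ i) (c : List ℤ) :
    degreeOf j (entry c (X i : MvPolynomial ℕ ℚ)) = 0 := by
  unfold entry
  refine Nat.le_zero.1 ((degreeOf_sum_le _ _ _).trans (Finset.sup_le fun e _ => ?_))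
  refine (degreeOf_mul_le _ _ _).trans ?_
  rw [degreeOf_intCast', zero_add]
  refine (degreeOf_pow_le _ _ _).trans ?_
  rw [degreeOf_X, if_neg (by omega), mul_zero]

theorem degreeOf_entry_le (i j : ℕ) (c : List ℤ) :
    degreeOf j (entry c (X i : MvPolynomial ℕ ℚ)) ≤ c.length := by
  unfold entry
  refine (degreeOf_sum_le _ _ _).trans (Finset.sup_le fun e he => ?_)
  rw [Finset.mem_range] at he
  refine (degreeOf_mul_le _ _ _).trans ?_
  rw [degreeOf_intCast', zero_add]
  refine (degreeOf_pow_le _ _ _).trans ?_
  rw [degreeOf_X]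
  split_ifs <;> omega

theorem totalDegree_entry_le (i : ℕ) (c : List ℤ) :
    (entry c (X i : MvPolynomial ℕ ℚ)).totalDegree ≤ c.length := by
  unfold entry
  refine (totalDegree_finsetSum _ _).trans (Finset.sup_le fun e he => ?_)
  rw [Finset.mem_range] at he
  refine (totalDegree_mul _ _).trans ?_
  have h1 : (((c.getD e 0 : ℤ) : MvPolynomial ℕ ℚ)).totalDegree = 0 := by
    rw [← map_intCast (C : ℚ →+* MvPolynomial ℕ ℚ), totalDegree_C]
  rw [h1, zero_add]
  refine (totalDegree_pow _ _).trans ?_
  rw [totalDegree_X]
  omega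

theorem degreeOf_rowMul_le (i j D E : ℕ) (row : List (List ℤ))
    (hrow : ∀ c ∈ row, degreeOf j (entry c (X i : MvPolynomial ℕ ℚ)) ≤ D) :
    ∀ s : List (MvPolynomial ℕ ℚ), (∀ p ∈ s, degreeOf j p ≤ E) →
      degreeOf j (rowMul (X i) row s) ≤ D + E := by
  induction row with
  | nil => intro s _; rw [rowMul_nil_left, degreeOf_zero]; omega
  | cons c row ih =>
    intro s hs
    cases s with
    | nil => rw [rowMul_nil_right, degreeOf_zero]; omega
    | cons a s =>
      rw [rowMul_cons]
      refine (degreeOf_add_le _ _ _).trans (max_le ?_ ?_)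
      · exact (degreeOf_mul_le _ _ _).trans
          (Nat.add_le_add (hrow c (List.mem_cons_self ..)) (hs a (List.mem_cons_self ..)))
      · exact ih (fun c hc => hrow c (List.mem_cons_of_mem _ hc)) s
          fun p hp => hs p (List.mem_cons_of_mem _ hp)

theorem totalDegree_rowMul_le (i D E : ℕ) (row : List (List ℤ))
    (hrow : ∀ c ∈ row, (entry c (X i : MvPolynomial ℕ ℚ)).totalDegree ≤ D) :
    ∀ s : List (MvPolynomial ℕ ℚ), (∀ p ∈ s, p.totalDegree ≤ E) →
      (rowMul (X i) row s).totalDegree ≤ D + E := by
  induction row with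
  | nil => intro s _; rw [rowMul_nil_left, totalDegree_zero]; omega
  | cons c row ih =>
    intro s hs
    cases s with
    | nil => rw [rowMul_nil_right, totalDegree_zero]; omega
    | cons a s =>
      rw [rowMul_cons]
      refine (totalDegree_add _ _).trans (max_le ?_ ?_)
      · exact (totalDegree_mul _ _).trans
          (Nat.add_le_add (hrow c (List.mem_cons_self ..)) (hs a (List.mem_cons_self ..)))
      · exact ih (fun c hc => hrow c (List.mem_cons_of_mem _ hc)) s
          fun p hp => hs p (List.mem_cons_of_mem _ hp)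

theorem degreeOf_run_lt (j E : ℕ) (g : Rb) : ∀ (i : ℕ) (s : List (MvPolynomial ℕ ℚ)), j < i →
    (∀ p ∈ s, degreeOf j p ≤ E) → ∀ p ∈ run X g i s, degreeOf j p ≤ E := by
  induction g with
  | nil => intro i s _ hs; exact hs
  | cons L g ih =>
    intro i s h hs
    rw [run]
    refine ih (i + 1) _ (by omega) ?_
    intro p hp
    rw [List.mem_map] at hp
    obtain ⟨row, _, rfl⟩ := hp
    have := degreeOf_rowMul_le i j 0 E row
      (fun c _ => (degreeOf_entry_ne (by omega) c).le) s hs
    omega

theorem degreeOf_run_ge (j D : ℕ) (g : Rb) : ∀ (i : ℕ) (s : List (MvPolynomial ℕ ℚ)), i ≤ j →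
    CL D g → (∀ p ∈ s, degreeOf j p = 0) → ∀ p ∈ run X g i s, degreeOf j p ≤ D := by
  induction g with
  | nil => intro i s _ _ hs p hp; rw [hs p hp]; omega
  | cons L g ih =>
    intro i s h hD hs
    rw [run]
    have hD' : CL D g := fun L' hL' => hD L' (List.mem_cons_of_mem _ hL')
    by_cases hij : i = j
    · subst hij
      refine degreeOf_run_lt i D g (i + 1) _ (by omega) ?_
      intro p hp
      rw [List.mem_map] at hp
      obtain ⟨row, hrow, rfl⟩ := hp
      have := degreeOf_rowMul_le i i D 0 row
        (fun c hc => (degreeOf_entry_le i i c).trans (hD L (List.mem_cons_self ..) row hrow c hc)) s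
        (fun p hp => (hs p hp).le)
      omega
    · refine ih (i + 1) _ (by omega) hD' ?_
      intro p hp
      rw [List.mem_map] at hp
      obtain ⟨row, _, rfl⟩ := hp
      have := degreeOf_rowMul_le i j 0 0 row
        (fun c _ => (degreeOf_entry_ne (by omega) c).le) s (fun p hp => (hs p hp).le)
      omega

theorem totalDegree_run (D : ℕ) (g : Rb) : ∀ (E i : ℕ) (s : List (MvPolynomial ℕ ℚ)),
    CL D g → (∀ p ∈ s, p.totalDegree ≤ E) →
      ∀ p ∈ run X g i s, p.totalDegree ≤ g.length * D + E := by
  induction g with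
  | nil => intro E i s _ hs p hp; exact (hs p hp).trans (Nat.le_add_left _ _)
  | cons L g ih =>
    intro E i s hD hs p hp
    rw [run] at hp
    have h := ih (D + E) (i + 1) _ (fun L' hL' => hD L' (List.mem_cons_of_mem _ hL')) (by
      intro q hq
      rw [List.mem_map] at hq
      obtain ⟨row, hrow, rfl⟩ := hq
      exact totalDegree_rowMul_le i D E row
        (fun c hc => (totalDegree_entry_le i c).trans
          (hD L (List.mem_cons_self ..) row hrow c hc)) s hs) p hp
    rw [List.length_cons, Nat.succ_mul]
    omega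

theorem degreeOf_val (j D : ℕ) (g : Rb) (hD : CL D g) : (val g).degreeOf j ≤ D := by
  unfold val out
  rcases headD_mem_or (run X g 0 [1] : List (MvPolynomial ℕ ℚ)) 0 with h | h
  · refine degreeOf_run_ge j D g 0 [1] (Nat.zero_le _) hD ?_ _ h
    intro p hp
    rw [List.mem_singleton] at hp
    rw [hp]; exact degreeOf_one j
  · rw [h, degreeOf_zero]; omega

theorem totalDegree_val (D : ℕ) (g : Rb) (hD : CL D g) :
    (val g).totalDegree ≤ g.length * D := by
  unfold val out
  rcases headD_mem_or (run X g 0 [1] : List (MvPolynomial ℕ ℚ)) 0 with h | h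
  · refine (totalDegree_run D g 0 0 [1] hD ?_ _ h).trans (by omega)
    intro p hp
    rw [List.mem_singleton] at hp
    rw [hp, totalDegree_one]
  · rw [h, totalDegree_zero]; omega

/-- evaluation -/
theorem eval_val (x : ℕ → ℚ) (g : Rb) : eval x (val g) = out x g := by
  unfold val
  rw [out_hom (eval x) X g]
  simp only [eval_X]

/-- the polynomial in finitely many variables -/
noncomputable def valF (n : ℕ) (g : Rb) : MvPolynomial (Fin n) ℚ :=
  out (fun i => if h : i < n then X ⟨i, h⟩ else 0) g

theorem rename_valF (n : ℕ) (g : Rb) (h : g.length ≤ n) :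
    rename Fin.val (valF n g) = val g := by
  unfold val valF
  have h1 := out_hom (rename (Fin.val : Fin n → ℕ) : MvPolynomial (Fin n) ℚ →ₐ[ℚ] MvPolynomial ℕ ℚ).toRingHom
    (fun i => if h : i < n then X ⟨i, h⟩ else 0) g
  refine Eq.trans h1 (out_congr g fun i hi => ?_)
  have hin : i < n := lt_of_lt_of_le hi h
  simp [hin]

end Pool.Agent.RP
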