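import Pool.Agent.RP.Orc

set_option autoImplicit false

/-!
RP-SrD. DEFINITIONS: the search of a point where many minors do not vanish, coordinate by coordinate.
-/

namespace Pool.Agent.RP

open MvPolynomial N487b59b3 N68a2faeb Pool.Agent.Helper22 Pool.Agent.Helper6.WB
  Pool.Agent.Helper6.SP Pool.Agent.PQ

/-- the grid after the choice of the first coordinates -/
def pre (vs : List ℕ) (rest : List Bool) (G : List ℕ) : List (List ZZ) :=
  (vs.map fun v => [((v, 0) : ZZ)]) ++ rest.map fun _ => G.map fun v => ((v, 0) : ZZ)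

/-- context: values and minors -/
abbrev Cx := List ℕ × List Mn

/-- no minor dies when the next coordinate is `v` -/
def okv (g : List (List ZZ) × Mn → Bool) (x : Cx) (vs : List ℕ) (rest : List Bool) (v : ℕ) :
    Bool :=
  !(x.2.any fun μ => !(g (pre vs (true :: rest) x.1, μ)) && g (pre (vs ++ [v]) rest x.1, μ))

/-- the next coordinate -/
def pick (g : List (List ZZ) × Mn → Bool) (x : Cx) (vs : List ℕ) (rest : List Bool) : ℕ :=
  (x.1.flatMap fun v => if okv g x vs rest v then [v] else []).headD 0

/-- one step -/
def srF (g : List (List ZZ) × Mn → Bool) (p : List Bool × (Cx × List ℕ)) : Cx × List ℕ :=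
  (p.2.1, p.2.2 ++ [pick g p.2.1 p.2.2 p.1.tail])

/-- the search -/
def srch (g : List (List ZZ) × Mn → Bool) (x : Cx) (n : List Bool) : List ℕ :=
  (loopList (srF g) n (x, [])).2

end Pool.Agent.RP
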