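import Pool.Agent.RP.SrD

set_option autoImplicit false

/-!
RP-SrM. The search is correct.

Plan: invariant along the list: for every minor `μ` with `f μ ≠ 0` the polynomial does not vanish on the grid
`pre vs rest G` (start: `d < G.length` and all variables `< n`: e.g. `MvPolynomial.eq_zero_of_eval_zero_at_prod_finset` after the passage to
`Fin n`, or directly by the step argument below from a point with `eval ≠ 0`, replacing the coordinates one by one). Step:
`¬ Van (pre vs (true :: rest) G) f` gives a point of the grid with `eval ≠ 0`; as a function of the coordinate number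
`vs.length` alone this is a nonzero univariate polynomial of degree at most `degreeOf ≤ d`, so at most `d` values `v ∈ G` are bad for
this `μ`; for all `μ` together at most `x.2.length * d < G.length` values are bad, so some `v ∈ G` is good, `okv` holds for it
(`okv` does not change if `μ` with `f μ = 0` are in the list: they satisfy `g (pre ..) = true` before). At the end the grid is one
point.
-/

namespace Pool.Agent.RP

open MvPolynomial N487b59b3 N68a2faeb Pool.Agent.Helper22 Pool.Agent.Helper6.WB
  Pool.Agent.Helper6.SP Pool.Agent.PQ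

private theorem srm_evc (J : MvPolynomial ℕ ℚ) {f g : ℕ → ℚ} (h : ∀ i ∈ J.vars, f i = g i) :
    eval f J = eval g J :=
  eval₂Hom_congr' rfl (fun i hi _ => h i hi) rfl

/-- a univariate specialisation has few zeros -/
private theorem srm_uni (f : MvPolynomial ℕ ℚ) (i d : ℕ) (hd : f.degreeOf i ≤ d) (y : ℕ → ℚ)
    (hy : eval y f ≠ 0) (S : Finset ℚ) (hS : ∀ t ∈ S, eval (Function.update y i t) f = 0) :
    S.card ≤ d := by
  classical
  set gg : ℕ → Polynomial ℚ := fun j => if j = i then Polynomial.X else Polynomial.C (y j) with hgg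
  set P : Polynomial ℚ := aeval gg f with hP
  have hPe : ∀ t : ℚ, P.eval t = eval (Function.update y i t) f := by
    intro t
    have h1 : (Polynomial.evalRingHom t).comp (aeval gg).toRingHom =
        eval (Function.update y i t) := by
      apply MvPolynomial.ringHom_ext
      · intro a
        simp
      · intro j
        by_cases hj : j = i
        · subst hj
          simp [hgg]
        · simp [hgg, hj]
    exact congrArg (fun f' : MvPolynomial ℕ ℚ →+* ℚ => f' f) h1
  have hP0 : P ≠ 0 := by
    intro h0
    have h1 := hPe (y i)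
    rw [h0, Polynomial.eval_zero, Function.update_eq_self] at h1
    exact hy h1.symm
  have hdeg : P.natDegree ≤ d := by
    refine le_trans ?_ hd
    rw [hP, aeval_def, eval₂_eq]
    refine Polynomial.natDegree_sum_le_of_forall_le _ _ ?_
    intro m hm
    refine (Polynomial.natDegree_C_mul_le _ _).trans ?_
    refine (Polynomial.natDegree_prod_le _ _).trans ?_
    have h2 : ∀ j ∈ m.support, (gg j ^ m j).natDegree ≤ if j = i then m i else 0 := by
      intro j _
      refine Polynomial.natDegree_pow_le.trans ?_
      by_cases hj : j = i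
      · subst hj
        simp [hgg]
      · simp [hgg, hj]
    refine (Finset.sum_le_sum h2).trans ?_
    rw [Finset.sum_ite_eq']
    have h3 : m i ≤ f.degreeOf i := monomial_le_degreeOf i hm
    split_ifs
    · exact h3
    · exact Nat.zero_le _
  by_contra hcon
  push Not at hcon
  apply hP0
  apply Polynomial.eq_zero_of_natDegree_lt_card_of_eval_eq_zero' P S
  · intro t ht
    rw [hPe]
    exact hS t ht
  · omega

private theorem srm_pre_len (vs : List ℕ) (rest : List Bool) (G : List ℕ) :
    (pre vs rest G).length = vs.length + rest.length := by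
  simp [pre]

private theorem srm_pre_lt (vs : List ℕ) (rest : List Bool) (G : List ℕ) (i : ℕ)
    (h : i < vs.length) : (pre vs rest G).getD i [] = [((vs.getD i 0, 0) : ZZ)] := by
  rw [pre, List.getD_append _ _ _ _ (by simpa using h)]
  simp [List.getD_eq_getElem?_getD, h]

private theorem srm_pre_ge (vs : List ℕ) (rest : List Bool) (G : List ℕ) (i : ℕ)
    (h : vs.length ≤ i) (h2 : i < vs.length + rest.length) :
    (pre vs rest G).getD i [] = G.map fun v => ((v, 0) : ZZ) := by
  rw [pre, List.getD_append_right _ _ _ _ (by simpa using h)]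
  have h3 : i - vs.length < rest.length := by omega
  simp [List.getD_eq_getElem?_getD, h3]

private theorem srm_pre_out (vs : List ℕ) (rest : List Bool) (G : List ℕ) (i : ℕ)
    (h2 : vs.length + rest.length ≤ i) : (pre vs rest G).getD i [] = [] := by
  rw [List.getD_eq_default]
  rw [srm_pre_len]
  exact h2

private theorem srm_van (vs : List ℕ) (rest : List Bool) (G : List ℕ) (f : MvPolynomial ℕ ℚ)
    (hv : f.vars ⊆ Finset.range (vs.length + rest.length)) :
    Van (pre vs rest G) f ↔ ∀ y : ℕ → ℕ, (∀ i < vs.length, y i = vs.getD i 0) →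
      (∀ i, vs.length ≤ i → i < vs.length + rest.length → y i ∈ G) →
      eval (fun i => (y i : ℚ)) f = 0 := by
  constructor
  · intro h y h1 h2
    set κ : List ℕ := (List.range (vs.length + rest.length)).map
      (fun i => if i < vs.length then 0 else G.idxOf (y i)) with hκ
    have hκl : κ.length = vs.length + rest.length := by simp [hκ]
    have hκi : ∀ i, i < vs.length + rest.length →
        κ.getD i 0 = if i < vs.length then 0 else G.idxOf (y i) := by
      intro i hi
      simp [hκ, List.getD_eq_getElem?_getD, hi]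
    have hI : Idx (pre vs rest G) κ := by
      rw [Idx, List.forall₂_iff_get]
      refine ⟨by rw [srm_pre_len, hκl], ?_⟩
      intro i hi1 hi2
      have e1 : (pre vs rest G).get ⟨i, hi1⟩ = (pre vs rest G).getD i [] := by
        simp [List.getD_eq_getElem?_getD, hi1]
      have e2 : κ.get ⟨i, hi2⟩ = κ.getD i 0 := by
        simp [List.getD_eq_getElem?_getD, hi2]
      have hi3 : i < vs.length + rest.length := by rw [← hκl]; exact hi2
      rw [e1, e2, hκi i hi3]
      by_cases hlt : i < vs.length
      · rw [if_pos hlt, srm_pre_lt _ _ _ _ hlt]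
        simp
      · rw [if_neg hlt, srm_pre_ge _ _ _ _ (by omega) hi3, List.length_map]
        exact List.idxOf_lt_length_iff.2 (h2 i (by omega) hi3)
    rw [← h κ hI]
    apply srm_evc
    intro i hi
    have hi3 : i < vs.length + rest.length := Finset.mem_range.1 (hv hi)
    rw [ptK, hκi i hi3]
    by_cases hlt : i < vs.length
    · rw [if_pos hlt, srm_pre_lt _ _ _ _ hlt, h1 i hlt]
      simp [zq]
    · rw [if_neg hlt, srm_pre_ge _ _ _ _ (by omega) hi3]
      have h4 : G.idxOf (y i) < G.length :=
        List.idxOf_lt_length_iff.2 (h2 i (by omega) hi3)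
      simp [zq, List.getD_eq_getElem?_getD, h4]
  · intro h κ hI
    rw [Idx, List.forall₂_iff_get] at hI
    obtain ⟨hl, hI⟩ := hI
    rw [srm_pre_len] at hl
    have key : ∀ i, i < vs.length + rest.length →
        κ.getD i 0 < ((pre vs rest G).getD i []).length := by
      intro i hi
      have hi1 : i < (pre vs rest G).length := by rw [srm_pre_len]; exact hi
      have hi2 : i < κ.length := by rw [← hl]; exact hi
      have := hI i hi1 hi2
      have e1 : (pre vs rest G).get ⟨i, hi1⟩ = (pre vs rest G).getD i [] := by
        simp [List.getD_eq_getElem?_getD, hi1]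
      have e2 : κ.get ⟨i, hi2⟩ = κ.getD i 0 := by
        simp [List.getD_eq_getElem?_getD, hi2]
      rwa [e1, e2] at this
    have h5 := h (fun i => (((pre vs rest G).getD i []).getD (κ.getD i 0) (0, 0)).1) ?_ ?_
    · rw [← h5]
      apply srm_evc
      intro i hi
      have hi3 : i < vs.length + rest.length := Finset.mem_range.1 (hv hi)
      have hk := key i hi3
      rw [ptK]
      by_cases hlt : i < vs.length
      · rw [srm_pre_lt _ _ _ _ hlt] at hk ⊢
        have h6 : κ.getD i 0 = 0 := by simpa using hk
        rw [h6]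
        simp [zq]
      · rw [srm_pre_ge _ _ _ _ (by omega) hi3] at hk ⊢
        rw [List.length_map] at hk
        rw [List.getD_eq_getElem _ _ (by rw [List.length_map]; exact hk), List.getElem_map]
        simp [zq]
    · intro i hlt
      have hk := key i (by omega)
      rw [srm_pre_lt _ _ _ _ hlt] at hk
      have h6 : κ.getD i 0 = 0 := by simpa using hk
      rw [srm_pre_lt _ _ _ _ hlt, h6]
      rfl
    · intro i hge hi3
      have hk := key i hi3
      rw [srm_pre_ge _ _ _ _ hge hi3] at hk ⊢
      rw [List.length_map] at hk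
      rw [List.getD_eq_getElem _ _ (by rw [List.length_map]; exact hk), List.getElem_map]
      exact List.getElem_mem hk

/-- few bad values for one minor -/
private theorem srm_bad (vs : List ℕ) (rest : List Bool) (G : List ℕ) (f : MvPolynomial ℕ ℚ)
    (d : ℕ) (hd : ∀ i, f.degreeOf i ≤ d)
    (hv : f.vars ⊆ Finset.range (vs.length + (true :: rest).length))
    (h : ¬ Van (pre vs (true :: rest) G) f) (B : Finset ℕ) (_hB : ∀ v ∈ B, v ∈ G)
    (hB2 : ∀ v ∈ B, Van (pre (vs ++ [v]) rest G) f) : B.card ≤ d := by
  classical
  rw [srm_van _ _ _ _ hv] at h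
  push Not at h
  obtain ⟨y, h1, h2, h3⟩ := h
  rw [← Finset.card_map (Nat.castEmbedding (R := ℚ))]
  refine srm_uni f vs.length d (hd _) _ h3 _ ?_
  intro t ht
  obtain ⟨v, hvB, rfl⟩ := Finset.mem_map.1 ht
  have hv' : f.vars ⊆ Finset.range ((vs ++ [v]).length + rest.length) := by
    refine hv.trans (Finset.range_subset_range.2 ?_)
    simp only [List.length_cons, List.length_append, List.length_nil]
    omega
  have h4 := (srm_van _ _ _ _ hv').1 (hB2 v hvB) (Function.update y vs.length v) ?_ ?_
  · rw [← h4]
    congr 1
    congr 1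
    funext i
    by_cases hi : i = vs.length
    · subst hi
      simp
    · simp [Function.update_of_ne hi]
  · intro i hi
    rw [List.length_append, List.length_singleton] at hi
    by_cases hi2 : i = vs.length
    · subst hi2
      rw [Function.update_self]
      simp
    · rw [Function.update_of_ne hi2, h1 i (by omega), List.getD_append _ _ _ _ (by omega)]
  · intro i hi hi3
    rw [List.length_append, List.length_singleton] at hi hi3
    have hi2 : i ≠ vs.length := by omega
    rw [Function.update_of_ne hi2]
    exact h2 i (by omega) (by rw [List.length_cons]; omega)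

private theorem srm_pick (G : List ℕ) (p : ℕ → Bool) (h : ∃ v ∈ G, p v = true) :
    (G.flatMap fun v => if p v then [v] else []).headD 0 ∈ G ∧
      p ((G.flatMap fun v => if p v then [v] else []).headD 0) = true := by
  induction G with
  | nil => simp at h
  | cons a G ih =>
    rw [List.flatMap_cons]
    by_cases ha : p a = true
    · rw [if_pos ha]
      simp [ha]
    · rw [if_neg ha, List.nil_append]
      obtain ⟨v, hv, hpv⟩ := h
      have hv' : v ∈ G := by
        rcases List.mem_cons.1 hv with rfl | h1
        · exact absurd hpv ha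
        · exact h1
      obtain ⟨h1, h2⟩ := ih ⟨v, hv', hpv⟩
      exact ⟨List.mem_cons_of_mem _ h1, h2⟩

private theorem srm_len (g : List (List ZZ) × Mn → Bool) (x : Cx) :
    ∀ (rest : List Bool) (vs : List ℕ),
      (loopList (srF g) rest (x, vs)).1 = x ∧
      (loopList (srF g) rest (x, vs)).2.length = vs.length + rest.length := by
  intro rest
  induction rest with
  | nil => intro vs; exact ⟨rfl, rfl⟩
  | cons b rest ih =>
    intro vs
    have h1 : loopList (srF g) (b :: rest) (x, vs) =
        loopList (srF g) rest (x, vs ++ [pick g x vs rest]) := rfl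
    rw [h1]
    obtain ⟨h2, h3⟩ := ih (vs ++ [pick g x vs rest])
    refine ⟨h2, ?_⟩
    rw [h3, List.length_append, List.length_singleton, List.length_cons]
    omega

theorem length_srch (g : List (List ZZ) × Mn → Bool) (x : Cx) (n : List Bool) :
    (srch g x n).length = n.length := by
  rw [srch, (srm_len g x n []).2]
  simp

private theorem srm_step (g : List (List ZZ) × Mn → Bool) (x : Cx) (N d : ℕ)
    (f : Mn → MvPolynomial ℕ ℚ)
    (hg : ∀ xs, ∀ μ ∈ x.2, xs.length = N → (g (xs, μ) = true ↔ Van xs (f μ)))
    (hv : ∀ μ ∈ x.2, (f μ).vars ⊆ Finset.range N)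
    (hd : ∀ μ ∈ x.2, ∀ i, (f μ).degreeOf i ≤ d) (hG : x.1.Nodup)
    (hG2 : x.2.length * d < x.1.length) (vs : List ℕ) (rest : List Bool)
    (hN : vs.length + (rest.length + 1) = N) :
    ∀ μ ∈ x.2, ¬ Van (pre vs (true :: rest) x.1) (f μ) →
      ¬ Van (pre (vs ++ [pick g x vs rest]) rest x.1) (f μ) := by
  classical
  have hl1 : (pre vs (true :: rest) x.1).length = N := by
    rw [srm_pre_len, List.length_cons]; exact hN
  have hl2 : ∀ v, (pre (vs ++ [v]) rest x.1).length = N := by
    intro v
    rw [srm_pre_len, List.length_append, List.length_singleton]; omega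
  -- meaning of `okv`
  have hok : ∀ v, okv g x vs rest v = true ↔ ∀ μ ∈ x.2, ¬ Van (pre vs (true :: rest) x.1) (f μ) →
      ¬ Van (pre (vs ++ [v]) rest x.1) (f μ) := by
    intro v
    rw [okv, Bool.not_eq_true', List.any_eq_false]
    constructor
    · intro h μ hμ h1 h2
      apply h μ hμ
      rw [Bool.and_eq_true, Bool.not_eq_true']
      refine ⟨?_, (hg _ μ hμ (hl2 v)).2 h2⟩
      rw [← Bool.not_eq_true]
      intro h3
      exact h1 ((hg _ μ hμ hl1).1 h3)
    · intro h μ hμ h1
      rw [Bool.and_eq_true, Bool.not_eq_true'] at h1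
      refine h μ hμ ?_ ((hg _ μ hμ (hl2 v)).1 h1.2)
      intro h3
      rw [(hg _ μ hμ hl1).2 h3] at h1
      exact absurd h1.1 (by decide)
  -- a good value exists
  have hex : ∃ v ∈ x.1, okv g x vs rest v = true := by
    by_contra hcon
    push Not at hcon
    have hsub : x.1.toFinset ⊆ x.2.toFinset.biUnion fun μ =>
        if Van (pre vs (true :: rest) x.1) (f μ) then (∅ : Finset ℕ)
        else x.1.toFinset.filter fun v => Van (pre (vs ++ [v]) rest x.1) (f μ) := by
      intro v hvv
      have h1 := hcon v (List.mem_toFinset.1 hvv)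
      rw [Ne, hok] at h1
      push Not at h1
      obtain ⟨μ, hμ, h2, h3⟩ := h1
      rw [Finset.mem_biUnion]
      refine ⟨μ, List.mem_toFinset.2 hμ, ?_⟩
      rw [if_neg h2]
      exact Finset.mem_filter.2 ⟨hvv, h3⟩
    have h4 := Finset.card_le_card hsub
    have h5 := h4.trans Finset.card_biUnion_le
    have h6 : ∀ μ ∈ x.2.toFinset, (if Van (pre vs (true :: rest) x.1) (f μ) then (∅ : Finset ℕ)
        else x.1.toFinset.filter fun v => Van (pre (vs ++ [v]) rest x.1) (f μ)).card ≤ d := by
      intro μ hμ
      have hμ' := List.mem_toFinset.1 hμ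
      split_ifs with h7
      · simp
      · refine srm_bad vs rest x.1 (f μ) d (hd μ hμ') ?_ h7 _ ?_ ?_
        · rw [List.length_cons, hN]
          exact hv μ hμ'
        · intro v hvv
          exact List.mem_toFinset.1 (Finset.mem_filter.1 hvv).1
        · intro v hvv
          exact (Finset.mem_filter.1 hvv).2
    have h8 := h5.trans (Finset.sum_le_sum h6)
    rw [Finset.sum_const, smul_eq_mul, List.toFinset_card_of_nodup hG] at h8
    have h9 : x.2.toFinset.card * d ≤ x.2.length * d :=
      Nat.mul_le_mul_right _ (List.toFinset_card_le _)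
    omega
  have hp := (srm_pick x.1 (okv g x vs rest) hex).2
  exact (hok _).1 hp

private theorem srm_loop (g : List (List ZZ) × Mn → Bool) (x : Cx) (N d : ℕ)
    (f : Mn → MvPolynomial ℕ ℚ)
    (hg : ∀ xs, ∀ μ ∈ x.2, xs.length = N → (g (xs, μ) = true ↔ Van xs (f μ)))
    (hv : ∀ μ ∈ x.2, (f μ).vars ⊆ Finset.range N)
    (hd : ∀ μ ∈ x.2, ∀ i, (f μ).degreeOf i ≤ d) (hG : x.1.Nodup)
    (hG2 : x.2.length * d < x.1.length) :
    ∀ (rest : List Bool) (vs : List ℕ), vs.length + rest.length = N →
      ∀ μ ∈ x.2, ¬ Van (pre vs rest x.1) (f μ) →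
        ¬ Van (pre (loopList (srF g) rest (x, vs)).2 [] x.1) (f μ) := by
  intro rest
  induction rest with
  | nil => intro vs _ μ _ h; exact h
  | cons b rest ih =>
    intro vs hN μ hμ h
    have h1 : loopList (srF g) (b :: rest) (x, vs) =
        loopList (srF g) rest (x, vs ++ [pick g x vs rest]) := rfl
    rw [h1]
    rw [List.length_cons] at hN
    refine ih _ ?_ μ hμ ?_
    · rw [List.length_append, List.length_singleton]
      omega
    · refine srm_step g x N d f hg hv hd hG hG2 vs rest hN μ hμ ?_
      have h2 : pre vs (true :: rest) x.1 = pre vs (b :: rest) x.1 := rfl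
      rw [h2]
      exact h

private theorem srm_start (f : MvPolynomial ℕ ℚ) (N d : ℕ) (_hv : f.vars ⊆ Finset.range N)
    (hd : ∀ i, f.degreeOf i ≤ d) (G : List ℕ) (hG : G.Nodup) (hG2 : d < G.length) (h0 : f ≠ 0) :
    ∀ m, ∃ y : ℕ → ℚ, (∀ i < m, ∃ v ∈ G, y i = (v : ℚ)) ∧ eval y f ≠ 0 := by
  classical
  intro m
  induction m with
  | zero =>
    by_contra hcon
    push Not at hcon
    apply h0
    apply MvPolynomial.funext
    intro z
    rw [map_zero]
    exact hcon z (by intro i hi; omega)
  | succ m ih =>
    obtain ⟨y, h1, h2⟩ := ih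
    have hex : ∃ v ∈ G, eval (Function.update y m (v : ℚ)) f ≠ 0 := by
      by_contra hcon
      push Not at hcon
      have h3 := srm_uni f m d (hd m) y h2 (G.toFinset.map (Nat.castEmbedding (R := ℚ))) (by
        intro t ht
        obtain ⟨v, hvB, rfl⟩ := Finset.mem_map.1 ht
        exact hcon v (List.mem_toFinset.1 hvB))
      rw [Finset.card_map, List.toFinset_card_of_nodup hG] at h3
      omega
    obtain ⟨v, hvG, h4⟩ := hex
    refine ⟨_, ?_, h4⟩
    intro i hi
    by_cases him : i = m
    · subst him
      exact ⟨v, hvG, by rw [Function.update_self]⟩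
    · obtain ⟨w, hw, hw2⟩ := h1 i (by omega)
      exact ⟨w, hw, by rw [Function.update_of_ne him, hw2]⟩

theorem srch_spec (g : List (List ZZ) × Mn → Bool) (x : Cx) (n : List Bool) (d : ℕ)
    (f : Mn → MvPolynomial ℕ ℚ)
    (hg : ∀ xs, ∀ μ ∈ x.2, xs.length = n.length → (g (xs, μ) = true ↔ Van xs (f μ)))
    (hv : ∀ μ ∈ x.2, (f μ).vars ⊆ Finset.range n.length)
    (hd : ∀ μ ∈ x.2, ∀ i, (f μ).degreeOf i ≤ d) (hG : x.1.Nodup)
    (hG2 : x.2.length * d < x.1.length) {μ : Mn} (hμ : μ ∈ x.2) (h0 : f μ ≠ 0) :
    eval (fun i => ((srch g x n).getD i 0 : ℚ)) (f μ) ≠ 0 := by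
  classical
  have hpos : 1 ≤ x.2.length := List.length_pos_of_mem hμ
  have hd1 : d < x.1.length := lt_of_le_of_lt (by nlinarith) hG2
  obtain ⟨y, h1, h2⟩ := srm_start (f μ) n.length d (hv μ hμ) (hd μ hμ) x.1 hG hd1 h0 n.length
  have hstart : ¬ Van (pre [] n x.1) (f μ) := by
    intro h3
    have hv' : (f μ).vars ⊆ Finset.range (([] : List ℕ).length + n.length) := by
      simpa using hv μ hμ
    rw [srm_van _ _ _ _ hv'] at h3
    choose! w hw hw2 using h1
    have h4 := h3 w (by simp) (by
      intro i _ hi
      exact hw i (by simpa using hi))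
    apply h2
    rw [← h4]
    apply srm_evc
    intro i hi
    exact hw2 i (Finset.mem_range.1 (hv μ hμ hi))
  have hend := srm_loop g x n.length d f hg hv hd hG hG2 n [] (by simp) μ hμ hstart
  have hlen : (loopList (srF g) n (x, [])).2.length = n.length := by
    rw [(srm_len g x n []).2]; simp
  intro h5
  apply hend
  have hv' : (f μ).vars ⊆ Finset.range
      ((loopList (srF g) n (x, [])).2.length + ([] : List Bool).length) := by
    rw [hlen]
    simpa using hv μ hμ
  rw [srm_van _ _ _ _ hv']
  intro y' h6 _
  rw [← h5]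
  apply srm_evc
  intro i hi
  have hi2 : i < n.length := Finset.mem_range.1 (hv μ hμ hi)
  rw [h6 i (by rw [hlen]; exact hi2)]
  rfl

end Pool.Agent.RP
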