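import Pool.Agent.RP.Hz

set_option autoImplicit false

/-!
RP-Tab. Tabulation of a program on a grid.

Plan (mathematics): `vrun` of the table is the run of the program with the vectors padded by zeros: for a vector `s` of
length at most `w` put `s' = s ++ zeros`; then `mv (qr (tabL W L x)) s' = (L.map fun row => rowMul (zq x) row s) ++ zeros` if
`L.length ≤ w` (the entries of a row beyond `s.length` meet zeros; missing entries are `hz [] x = 0`). Then
`vval` is the first entry. Induction on the program with `xs`, `κ` (`List.Forall₂`), and arbitrary start index `i` of `run`.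
(FP): `FP.range`, `FP.getDNat` of `G4/UPList.lean`, `fp_map`, `fp_zip`, `fp_hz`.
-/

namespace Pool.Agent.RP

open MvPolynomial N487b59b3 N68a2faeb Pool.Agent.Helper22 Pool.Agent.Helper6.WB
  Pool.Agent.Helper6.SP Pool.Agent.PQ

variable {α : Type} [N487b59b3 α]

/-- the matrix of a layer at `x` -/
def tabL (W : List Bool) (L : Lay) (x : ZZ) : Mt :=
  (List.range W.length).map fun r => (List.range W.length).map fun c =>
    hz ((L.getD r []).getD c []) x

/-- first unit vector -/
def e1 (W : List Bool) : List ZZ := (1, 0) :: W.tail.map fun _ => (0, 0)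

/-- the table of a program -/
def tabR (W : List Bool) (g : Rb) (xs : List (List ZZ)) : Vb :=
  (e1 W, ((g.zip xs).map fun q => q.2.map fun x => tabL W q.1 x, e1 W))

private theorem tb_len_e1 (W : List Bool) (hW : W ≠ []) : (e1 W).length = W.length := by
  cases W with
  | nil => exact absurd rfl hW
  | cons a W => simp [e1]

private theorem tb_sqM (W : List Bool) (L : Lay) (x : ZZ) : SqM W.length (tabL W L x) := by
  refine ⟨by simp [tabL], ?_⟩
  intro r hr
  unfold tabL at hr
  obtain ⟨i, -, rfl⟩ := List.mem_map.1 hr
  simp

theorem sqV_tabR (W : List Bool) (g : Rb) (xs : List (List ZZ)) (h : g.length = xs.length)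
    (hW : W ≠ []) : SqV W.length xs (tabR W g xs) := by
  refine ⟨tb_len_e1 W hW, tb_len_e1 W hW, ?_⟩
  change List.Forall₂ _ ((g.zip xs).map fun q => q.2.map fun x => tabL W q.1 x) xs
  induction g generalizing xs with
  | nil =>
    cases xs with
    | nil => exact List.Forall₂.nil
    | cons y xs => simp at h
  | cons L g ih =>
    cases xs with
    | nil => simp at h
    | cons y xs =>
      rw [List.zip_cons_cons, List.map_cons]
      refine List.Forall₂.cons ⟨by simp, ?_⟩ (ih xs (by simpa using h))
      intro M hM
      obtain ⟨x, -, rfl⟩ := List.mem_map.1 hM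
      exact tb_sqM W L x

/-- padding by zeros -/
private def pd (w : ℕ) (s : List ℚ) : List ℚ := s ++ List.replicate (w - s.length) 0

private theorem tb_pd_map {β : Type} (w : ℕ) (L : List β) (d : β) (f : β → ℚ) (hf : f d = 0)
    (hL : L.length ≤ w) : pd w (L.map f) = (List.range w).map fun r => f (L.getD r d) := by
  induction L generalizing w with
  | nil =>
    unfold pd
    apply List.ext_getElem
    · simp
    · intro i h1 h2
      simp [hf]
  | cons a L ih =>
    cases w with
    | zero => simp at hL
    | succ w =>
      have h1 := ih w (by simpa using hL)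
      rw [List.map_cons, List.range_succ_eq_map, List.map_cons, List.map_map]
      unfold pd at h1 ⊢
      rw [List.cons_append, List.length_cons, Nat.succ_sub_succ_eq_sub, h1]
      rfl

private theorem tb_pd_eq (w : ℕ) (s : List ℚ) (h : s.length ≤ w) :
    pd w s = (List.range w).map fun r => s.getD r 0 := by
  have := tb_pd_map w s 0 (fun q => q) rfl h
  rwa [List.map_id'] at this

private theorem tb_entry_nil (x : ℚ) : entry ([] : List ℤ) x = 0 := by
  simp [entry]

private theorem tb_rowMul_nil (x : ℚ) (s : List ℚ) : rowMul x [] s = 0 := by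
  simp [rowMul]

private theorem tb_row (X : ℚ) : ∀ (s : List ℚ) (row : List (List ℤ)) (w : ℕ), s.length ≤ w →
    ((List.range w).map fun c => entry (row.getD c []) X * s.getD c 0).sum = rowMul X row s
  | [], row, w, _ => by
    have h1 : ((List.range w).map fun c => entry (row.getD c []) X *
        ([] : List ℚ).getD c 0) = (List.range w).map fun _ => (0 : ℚ) := by
      apply List.map_congr_left
      intro c _
      simp
    rw [h1]
    simp [rowMul]
  | a :: s, [], w, _ => by
    have h1 : ((List.range w).map fun c => entry (([] : List (List ℤ)).getD c []) X *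
        (a :: s).getD c 0) = (List.range w).map fun _ => (0 : ℚ) := by
      apply List.map_congr_left
      intro c _
      rw [List.getD_nil, tb_entry_nil, zero_mul]
    rw [h1]
    simp [rowMul]
  | a :: s, r :: row, 0, h => by simp at h
  | a :: s, r :: row, w + 1, h => by
    have ih := tb_row X s row w (by simpa using h)
    rw [List.range_succ_eq_map, List.map_cons, List.map_map, List.sum_cons]
    have h1 : (List.range w).map ((fun c => entry ((r :: row).getD c []) X *
        (a :: s).getD c 0) ∘ Nat.succ) =
        (List.range w).map fun c => entry (row.getD c []) X * s.getD c 0 := by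
      apply List.map_congr_left
      intro c _
      simp
    rw [h1, ih]
    simp [rowMul]

private theorem tb_qdot_map (w : ℕ) (u v : ℕ → ℚ) :
    qdot ((List.range w).map u) ((List.range w).map v) =
      ((List.range w).map fun c => u c * v c).sum := by
  unfold qdot
  rw [List.zip_map', List.map_map]
  rfl

private theorem tb_qr (W : List Bool) (L : Lay) (x : ZZ) :
    qr (tabL W L x) = (List.range W.length).map fun r => (List.range W.length).map fun c =>
      entry ((L.getD r []).getD c []) (zq x) := by
  unfold qr tabL
  rw [List.map_map]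
  apply List.map_congr_left
  intro r _
  change List.map zq ((List.range W.length).map _) = _
  rw [List.map_map]
  apply List.map_congr_left
  intro c _
  exact zq_hz _ _

private theorem tb_step (W : List Bool) (L : Lay) (x : ZZ) (s : List ℚ)
    (hL : L.length ≤ W.length) (hs : s.length ≤ W.length) :
    mv (qr (tabL W L x)) (pd W.length s) =
      pd W.length (L.map fun row => rowMul (zq x) row s) := by
  rw [tb_pd_map W.length L [] (fun row => rowMul (zq x) row s) (tb_rowMul_nil _ _) hL, tb_qr,
    tb_pd_eq _ _ hs]
  unfold mv
  rw [List.map_map]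
  apply List.map_congr_left
  intro r _
  change qdot ((List.range W.length).map fun c => entry ((L.getD r []).getD c []) (zq x)) _ = _
  rw [tb_qdot_map, tb_row _ _ _ _ hs]

private theorem tb_run (W : List Bool) (xs : List (List ZZ)) (κ : List ℕ) (hκ : Idx xs κ) :
    ∀ (g : Rb) (_ : g.length = xs.length) (_ : ∀ L ∈ g, L.length ≤ W.length) (y : ℕ → ℚ) (i : ℕ)
      (_ : ∀ j, y (i + j) = ptK xs κ j) (s : List ℚ) (_ : s.length ≤ W.length),
      vrun ((g.zip xs).map fun q => q.2.map fun x => tabL W q.1 x) κ (pd W.length s) =
        pd W.length (run y g i s) := by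
  unfold Idx at hκ
  induction hκ with
  | nil =>
    intro g hg _ y i _ s _
    cases g with
    | nil => rfl
    | cons L g => simp at hg
  | @cons x k xs κ hk _ ih =>
    intro g hg hW y i hy s hs
    cases g with
    | nil => simp at hg
    | cons L g =>
      rw [List.zip_cons_cons, List.map_cons]
      change vrun _ κ (mv (qr ((x.map fun x => tabL W L x).getD k [])) (pd W.length s)) =
        pd W.length (run y g (i + 1) (L.map fun row => rowMul (y i) row s))
      have h1 : (x.map fun x => tabL W L x).getD k [] = tabL W L (x.getD k (0, 0)) := by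
        rw [List.getD_eq_getElem _ _ (by rw [List.length_map]; exact hk), List.getElem_map,
          List.getD_eq_getElem _ _ hk]
      have h2 : y i = zq (x.getD k (0, 0)) := by
        have := hy 0
        rw [add_zero] at this
        rw [this]
        rfl
      rw [h1, tb_step W L _ s (hW L List.mem_cons_self) hs, h2]
      refine ih g (by simpa using hg) (fun L' hL' => hW L' (List.mem_cons_of_mem _ hL')) y (i + 1)
        ?_ _ ?_
      · intro j
        have := hy (j + 1)
        rw [show i + 1 + j = i + (j + 1) by ring, this]
        simp [ptK]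
      · rw [List.length_map]
        exact hW L List.mem_cons_self

private theorem tb_e1 (W : List Bool) (hW : W ≠ []) : qv (e1 W) = pd W.length [1] := by
  cases W with
  | nil => exact absurd rfl hW
  | cons a W =>
    unfold qv e1 pd
    simp [zq, List.map_const']

private theorem tb_dot (v : List ℚ) : ∀ (k : ℕ), qdot (List.replicate k 0) v = 0 := by
  intro k
  unfold qdot
  apply List.sum_eq_zero
  intro q hq
  obtain ⟨p, hp, rfl⟩ := List.mem_map.1 hq
  have := (List.of_mem_zip hp).1
  rw [List.eq_of_mem_replicate this, zero_mul]

theorem vval_tabR (W : List Bool) (g : Rb) (xs : List (List ZZ)) (h : g.length = xs.length)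
    (hW : W ≠ []) (hg : ∀ L ∈ g, L.length ≤ W.length) (κ : List ℕ) (hκ : Idx xs κ) :
    vval (tabR W g xs) κ = out (ptK xs κ) g := by
  have hW1 : 1 ≤ W.length := List.length_pos_iff.2 hW
  unfold vval tabR
  dsimp only
  rw [tb_e1 W hW, tb_run W xs κ hκ g h hg (ptK xs κ) 0 (fun j => by rw [zero_add]) [1]
    (by simpa using hW1)]
  unfold out
  obtain ⟨w, hw⟩ := Nat.exists_eq_add_of_le hW1
  have h1 : pd W.length [1] = 1 :: List.replicate w 0 := by
    unfold pd
    rw [hw]
    simp
  rw [h1]
  cases hr : run (ptK xs κ) g 0 [1] with
  | nil =>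
    unfold pd
    rw [hw]
    rw [List.nil_append, List.length_nil, Nat.sub_zero, show 1 + w = w + 1 by ring,
      List.replicate_succ]
    unfold qdot
    rw [List.zip_cons_cons, List.map_cons, List.sum_cons]
    have := tb_dot (List.replicate w 0) w
    unfold qdot at this
    rw [this]
    simp
  | cons a t =>
    unfold pd
    rw [List.cons_append]
    unfold qdot
    rw [List.zip_cons_cons, List.map_cons, List.sum_cons]
    have := tb_dot (t ++ List.replicate (W.length - (a :: t).length) 0) w
    unfold qdot at this
    rw [this]
    simp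

private theorem fp_e1 {W : α → List Bool} (hW : FP W) : FP fun a => e1 (W a) := by
  have h := FP.cons (FP.const (α := α) ((1, 0) : ZZ)) (fp_map (f := fun a => (W a).tail)
    (h := fun _ : α × Bool => ((0, 0) : ZZ)) hW.tail (FP.const _))
  exact h

private theorem fp_tabL {W : α → List Bool} {L : α → Lay} {x : α → ZZ} (hW : FP W)
    (hL : FP L) (hx : FP x) : FP fun a => tabL (W a) (L a) (x a) := by
  have h1 : FP fun q : (α × ℕ) × ℕ => hz (((L q.1.1).getD q.1.2 []).getD q.2 []) (x q.1.1) :=
    fp_hz (G4.FP.getDNat (G4.FP.getDNat (hL.comp (FP.fst.comp FP.fst)) (FP.snd.comp FP.fst) [])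
      FP.snd []) (hx.comp (FP.fst.comp FP.fst))
  have h2 : FP fun p : α × ℕ => (List.range (W p.1).length).map fun c =>
      hz (((L p.1).getD p.2 []).getD c []) (x p.1) :=
    fp_map (f := fun p : α × ℕ => List.range (W p.1).length)
      (h := fun q : (α × ℕ) × ℕ => hz (((L q.1.1).getD q.1.2 []).getD q.2 []) (x q.1.1))
      (FP.range (hW.comp FP.fst)) h1
  exact fp_map (f := fun a => List.range (W a).length)
    (h := fun p : α × ℕ => (List.range (W p.1).length).map fun c =>
      hz (((L p.1).getD p.2 []).getD c []) (x p.1)) (FP.range hW) h2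

theorem fp_tabR {W : α → List Bool} {g : α → Rb} {xs : α → List (List ZZ)} (hW : FP W)
    (hg : FP g) (hx : FP xs) : FP fun a => tabR (W a) (g a) (xs a) := by
  have h1 : FP fun q : (α × (Lay × List ZZ)) × ZZ => tabL (W q.1.1) q.1.2.1 q.2 :=
    fp_tabL (hW.comp (FP.fst.comp FP.fst)) (FP.fst.comp (FP.snd.comp FP.fst)) FP.snd
  have h2 : FP fun p : α × (Lay × List ZZ) => p.2.2.map fun x => tabL (W p.1) p.2.1 x :=
    fp_map (f := fun p : α × (Lay × List ZZ) => p.2.2)
      (h := fun q : (α × (Lay × List ZZ)) × ZZ => tabL (W q.1.1) q.1.2.1 q.2)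
      (FP.snd.comp FP.snd) h1
  have h3 : FP fun a => ((g a).zip (xs a)).map fun q => q.2.map fun x => tabL (W a) q.1 x :=
    fp_map (f := fun a => (g a).zip (xs a))
      (h := fun p : α × (Lay × List ZZ) => p.2.2.map fun x => tabL (W p.1) p.2.1 x)
      (fp_zip hg hx) h2
  exact (fp_e1 hW).pair (h3.pair (fp_e1 hW))

end Pool.Agent.RP
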