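import Pool.Agent.RP.RunB
import Pool.Agent.PQ.Zip
import Pool.Agent.G4.UPList

set_option autoImplicit false

/-!
RP-VDefs. DEFINITIONS: tabulated programs (integer matrices on a grid).
-/

namespace Pool.Agent.RP

open MvPolynomial N487b59b3 N68a2faeb Pool.Agent.Helper22 Pool.Agent.Helper6.WB
  Pool.Agent.Helper6.SP Pool.Agent.PQ

/-- a tabulated program: start vector, list of the layers (a layer is a list of square matrices),
final vector -/
abbrev Vb := List ZZ × (List (List Mt) × List ZZ)

/-- values of a vector -/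
def qv (s : List ZZ) : List ℚ := s.map zq

/-- values of a matrix -/
def qr (A : Mt) : List (List ℚ) := A.map fun r => r.map zq

/-- inner product -/
def qdot (u v : List ℚ) : ℚ := ((u.zip v).map fun p => p.1 * p.2).sum

/-- matrix times vector -/
def mv (A : List (List ℚ)) (s : List ℚ) : List ℚ := A.map fun r => qdot r s

/-- run of a tabulated program for a choice of the matrices -/
def vrun : List (List Mt) → List ℕ → List ℚ → List ℚ
  | [], _, s => s
  | L :: Ls, κ, s => vrun Ls κ.tail (mv (qr (L.getD (κ.headD 0) [])) s)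

/-- the value for a choice -/
def vval (p : Vb) (κ : List ℕ) : ℚ := qdot (qv p.2.2) (vrun p.2.1 κ (qv p.1))

/-- square matrices of size `w` -/
def SqM (w : ℕ) (A : Mt) : Prop := A.length = w ∧ ∀ r ∈ A, r.length = w

/-- tabulated programs of width `w` for the grid `xs` -/
def SqV (w : ℕ) (xs : List (List ZZ)) (p : Vb) : Prop :=
  p.1.length = w ∧ p.2.2.length = w ∧
    List.Forall₂ (fun L x => L.length = x.length ∧ ∀ M ∈ L, SqM w M) p.2.1 xs

/-- choices for the grid `xs` -/
def Idx (xs : List (List ZZ)) (κ : List ℕ) : Prop := List.Forall₂ (fun x j => j < x.length) xs κ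

/-- the point of a choice -/
def ptK (xs : List (List ZZ)) (κ : List ℕ) (i : ℕ) : ℚ := zq ((xs.getD i []).getD (κ.getD i 0) (0, 0))

/-- the polynomial vanishes on the grid -/
def Van (xs : List (List ZZ)) (f : MvPolynomial ℕ ℚ) : Prop := ∀ κ, Idx xs κ → eval (ptK xs κ) f = 0

/-- an integer -/
def toZ (a : ℤ) : ZZ := (a.toNat, (-a).toNat)

/-- value of a polynomial with integer coefficients -/
def hz (c : List ℤ) (x : ZZ) : ZZ := c.foldr (fun a s => zAdd (toZ a) (zMul x s)) (0, 0)

/-- product of a list -/
def zProd (l : List ZZ) : ZZ := l.foldl zMul (1, 0)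

/-- a vector of zeros -/
def zz (l : List ZZ) : List ZZ := l.map fun _ => (0, 0)

/-- direct sum of two matrices -/
def dsm (z z' : List ZZ) (A B : Mt) : Mt := (A.map fun r => r ++ z') ++ B.map fun r => z ++ r

/-- sum of two tabulated programs -/
def vadd (p q : Vb) : Vb :=
  (p.1 ++ q.1, ((p.2.1.zip q.2.1).map fun x => (x.1.zip x.2).map fun y =>
    dsm (zz p.1) (zz q.1) y.1 y.2, p.2.2 ++ q.2.2))

/-- tensor product of vectors -/
def krV (u v : List ZZ) : List ZZ := u.flatMap fun a => v.map fun b => zMul a b

/-- tensor product of matrices -/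
def krM (A B : Mt) : Mt := A.flatMap fun r => B.map fun s => krV r s

/-- product of two tabulated programs -/
def vmul (p q : Vb) : Vb :=
  (krV p.1 q.1, ((p.2.1.zip q.2.1).map fun x => (x.1.zip x.2).map fun y => krM y.1 y.2,
    krV p.2.2 q.2.2))

/-- multiplication by an integer -/
def vscl (a : ZZ) (p : Vb) : Vb := (p.1.map (zMul a), p.2)

/-- the constant `a` -/
def vcst (a : ZZ) (xs : List (List ZZ)) : Vb :=
  ([a], (xs.map fun x => x.map fun _ => [[(1, 0)]], [(1, 0)]))

/-- sum of a list of matrices with `n` rows and columns -/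
def msum (z : List ZZ) (l : List Mt) : Mt :=
  l.foldl (fun S A => (S.zip A).map fun x => (x.1.zip x.2).map fun y => zAdd y.1 y.2)
    (z.map fun _ => zz z)

/-- one step of the Gram matrix -/
def gstep (z : List ZZ) (G : Mt) (L : List Mt) : Mt := msum z (L.map fun M => mulT (mulT M G) M)

/-- the sum of the squares of the values -/
def tz (p : Vb) : ZZ :=
  dot p.2.2 ((p.2.1.foldl (gstep p.1) (p.1.map fun a => p.1.map fun b => zMul a b)).map
    fun r => dot r p.2.2)

end Pool.Agent.RP
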